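import Mathlib

open scoped NumberField
open Polynomial

/-! Task statements for MP_ed3ef1_nt (Smyth's conjecture over number fields), frozen S18875. -/

namespace Pool.Agent.H961R3.Smyth

/-- the tuple is a Smyth tuple (as in S18875) -/
def IsSmyth (K : Type) [Field K] [NumberField K] (n : ℕ) (a : Fin n → 𝓞 K) : Prop :=
  ∃ α : Fin n → AlgebraicClosure K,
    (∀ i, α i ≠ 0) ∧ (∀ i j, minpoly K (α i) = minpoly K (α j)) ∧
    ∑ i, algebraMap K (AlgebraicClosure K) (a i : K) * α i = 0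

def StrongArch (K : Type) [Field K] [NumberField K] (n : ℕ) (a : Fin n → 𝓞 K) : Prop :=
  ∀ v : NumberField.InfinitePlace K, ∀ i : Fin n,
    v (a i : K) < ∑ j ∈ Finset.univ.erase i, v (a j : K)

def NonArch (K : Type) [Field K] [NumberField K] (n : ℕ) (a : Fin n → 𝓞 K) : Prop :=
  ∀ v : IsDedekindDomain.HeightOneSpectrum (𝓞 K), ∀ i : Fin n,
    ∃ j : Fin n, j ≠ i ∧ v.valuation K (a i : K) ≤ v.valuation K (a j : K)

def RootsCond (K : Type) [Field K] [NumberField K] (n : ℕ) (a : Fin n → 𝓞 K) : Prop :=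
  ∃ ω : Fin n → AlgebraicClosure K,
    (∀ i, ∃ m : ℕ, 0 < m ∧ ω i ^ m = 1) ∧
    ∑ i, algebraMap K (AlgebraicClosure K) (a i : K) * ω i = 0

/-- S1: irreducible polynomials over `ℚ` of every prime degree `l ≥ 5` with full symmetric Galois
group, in terms of any algebraic closure `F` of `ℚ`. -/
def S1 : Prop := ∀ l : ℕ, l.Prime → 5 ≤ l → ∃ p : ℚ[X], Irreducible p ∧ p.natDegree = l ∧
  ∀ (F : Type) [Field F] [Algebra ℚ F] [IsAlgClosure ℚ F] (τ : Equiv.Perm (p.rootSet F)),
    ∃ σ : F ≃ₐ[ℚ] F, ∀ x : p.rootSet F, σ (x : F) = (τ x : F)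

/-- GalTask: prescribed permutations are realised by automorphisms of `AlgebraicClosure K`. -/
def GalTask : Prop := ∀ (K : Type) [Field K] [NumberField K] (n N : ℕ)
  (τ : Fin n → Equiv.Perm (Fin N)),
  ∃ (β : Fin N → AlgebraicClosure K)
    (σ : Fin n → (AlgebraicClosure K ≃ₐ[K] AlgebraicClosure K)),
    Function.Injective β ∧ ∀ i k, σ i (β k) = β (τ i k)

/-- S2: from the symmetric polynomials over `ℚ` to `GalTask`. -/
def S2 : Prop := S1 → GalTask

/-- S3: a singular combination of permutations gives a Smyth tuple. -/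
def S3 : Prop := GalTask → ∀ (K : Type) [Field K] [NumberField K] (n : ℕ) (a : Fin n → 𝓞 K)
  (N : ℕ) (v : Fin N → 𝓞 K) (τ : Fin n → Equiv.Perm (Fin N)), v ≠ 0 →
  (∀ k, ∑ i, a i * v (τ i k) = 0) → IsSmyth K n a

/-- balanced nonzero real weights on the lattice of relations -/
def Balanced (R : Type) [CommRing R] (n : ℕ) (a : Fin n → R) : Prop :=
  ∃ (X : Finset (Fin n → R)) (w : (Fin n → R) → ℝ), (∀ x ∈ X, 0 ≤ w x) ∧ (∃ x ∈ X, 0 < w x) ∧
    (∀ x ∈ X, x ≠ 0 ∧ ∑ j, a j * x j = 0) ∧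
    ∀ (i j : Fin n) (c : R), (∑ x ∈ X, Set.indicator {y : Fin n → R | y i = c} w x) =
      ∑ x ∈ X, Set.indicator {y : Fin n → R | y j = c} w x

/-- S4: from real balanced weights to permutations. -/
def S4 : Prop := ∀ (R : Type) [CommRing R] (n : ℕ) (a : Fin n → R), 1 ≤ n → Balanced R n a →
  ∃ (N : ℕ) (v : Fin N → R) (τ : Fin n → Equiv.Perm (Fin N)), v ≠ 0 ∧
    ∀ k, ∑ i, a i * v (τ i k) = 0

/-- S5: a vanishing combination of roots of unity gives a Smyth tuple. -/
def S5 : Prop := ∀ (K : Type) [Field K] [NumberField K] (n : ℕ) (a : Fin n → 𝓞 K),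
  RootsCond K n a → IsSmyth K n a

/-- S6: the nonarchimedean necessary condition. -/
def S6 : Prop := ∀ (K : Type) [Field K] [NumberField K] (n : ℕ) (a : Fin n → 𝓞 K), 2 ≤ n →
  IsSmyth K n a → NonArch K n a

/-- S7: the archimedean necessary condition. -/
def S7 : Prop := ∀ (K : Type) [Field K] [NumberField K] (n : ℕ) (a : Fin n → 𝓞 K),
  IsSmyth K n a → StrongArch K n a ∨ RootsCond K n a

/-- S8: solvability of the relation with one prescribed coordinate. -/
def S8 : Prop := ∀ (K : Type) [Field K] [NumberField K] (n : ℕ) (a : Fin n → 𝓞 K),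
  NonArch K n a → ∀ (i : Fin n) (c : 𝓞 K), ∃ x : Fin n → 𝓞 K, x i = c ∧ ∑ j, a j * x j = 0

/-- The core (owner helper961). -/
def Core : Prop := ∀ (K : Type) [Field K] [NumberField K] (n : ℕ) (a : Fin n → 𝓞 K), 1 ≤ n →
  StrongArch K n a → (∀ (i : Fin n) (c : 𝓞 K), ∃ x : Fin n → 𝓞 K, x i = c ∧ ∑ j, a j * x j = 0) →
  Balanced (𝓞 K) n a

theorem final (h1 : S1) (h2 : S2) (h3 : S3) (h4 : S4) (h5 : S5) (h6 : S6) (h7 : S7) (h8 : S8)
    (hc : Core) :
    ∀ (K : Type) [Field K] [NumberField K] (n : ℕ) (a : Fin n → 𝓞 K),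
    (∃ α : Fin n → AlgebraicClosure K,
        (∀ i, α i ≠ 0) ∧ (∀ i j, minpoly K (α i) = minpoly K (α j)) ∧
        ∑ i, algebraMap K (AlgebraicClosure K) (a i : K) * α i = 0) ↔
    (((∀ v : NumberField.InfinitePlace K, ∀ i : Fin n,
          v (a i : K) < ∑ j ∈ Finset.univ.erase i, v (a j : K)) ∧
      (∀ v : IsDedekindDomain.HeightOneSpectrum (𝓞 K), ∀ i : Fin n,
          ∃ j : Fin n, j ≠ i ∧ v.valuation K (a i : K) ≤ v.valuation K (a j : K))) ∨
     ∃ ω : Fin n → AlgebraicClosure K,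
        (∀ i, ∃ m : ℕ, 0 < m ∧ ω i ^ m = 1) ∧
        ∑ i, algebraMap K (AlgebraicClosure K) (a i : K) * ω i = 0) := by
  intro K _ _ n a
  constructor
  · intro h
    have hS : IsSmyth K n a := h
    rcases h7 K n a hS with hA | hR
    · by_cases hn : 2 ≤ n
      · exact Or.inl ⟨hA, h6 K n a hn hS⟩
      · have : n = 0 ∨ n = 1 := by omega
        rcases this with rfl | rfl
        · exact Or.inl ⟨hA, fun v i => i.elim0⟩
        · exfalso
          obtain ⟨v⟩ := (inferInstance : Nonempty (NumberField.InfinitePlace K))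
          have h0 := hA v 0
          have : (Finset.univ.erase (0 : Fin 1)) = ∅ := by decide
          rw [this, Finset.sum_empty] at h0
          exact absurd h0 (not_lt.2 (apply_nonneg v _))
    · exact Or.inr hR
  · rintro (⟨hA, hN⟩ | hR)
    · by_cases hn : 1 ≤ n
      · obtain ⟨N, v, τ, hv, hτ⟩ := h4 (𝓞 K) n a hn (hc K n a hn hA (h8 K n a hN))
        exact h3 (h2 h1) K n a N v τ hv hτ
      · have : n = 0 := by omega
        subst this
        exact ⟨fun _ => 1, fun i => i.elim0, fun i => i.elim0, by simp⟩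
    · exact h5 K n a hR

end Pool.Agent.H961R3.Smyth
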