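import Mathlib
import Pool.Agent.H961R3.Smyth.Stmts

open scoped NumberField ComplexConjugate

/-! Second list of task statements for MP_ed3ef1_nt: decomposition of `Core`. -/

namespace Pool.Agent.H961R3.Smyth

/-- all complex embeddings of an algebraic integer -/
noncomputable def emb (K : Type) [Field K] [NumberField K] (c : 𝓞 K) : (K →+* ℂ) → ℂ :=
  fun σ => σ (c : K)

/-- the house: sup norm over all embeddings -/
noncomputable def nu (K : Type) [Field K] [NumberField K] (c : 𝓞 K) : ℝ := ‖emb K c‖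

/-- `i`-th marginal of a finitely supported measure -/
noncomputable def marg {R : Type} {n : ℕ} (i : Fin n) (μ : (Fin n → R) →₀ ℝ) : R →₀ ℝ :=
  Finsupp.mapDomain (fun x => x i) μ

/-- solvability of the relation with one prescribed coordinate -/
def Surj (R : Type) [CommRing R] (n : ℕ) (a : Fin n → R) : Prop :=
  ∀ (i : Fin n) (c : R), ∃ x : Fin n → R, x i = c ∧ ∑ j, a j * x j = 0

/-- Transport property: every large `c` occurs as `i`-th coordinate of a relation vector whose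
other coordinates are smaller by a factor `θ < 1`. -/
def TP (R : Type) [CommRing R] (n : ℕ) (a : Fin n → R) (ν : R → ℝ) : Prop :=
  ∃ C0 θ : ℝ, 1 ≤ C0 ∧ 0 < θ ∧ θ < 1 ∧ ∀ (i : Fin n) (c : R), C0 < ν c →
    ∃ x : Fin n → R, x i = c ∧ ∑ j, a j * x j = 0 ∧ ∀ j, j ≠ i → ν (x j) ≤ θ * ν c

/-- Approximation property: nearly balanced measures. -/
def AP (R : Type) [CommRing R] (n : ℕ) (a : Fin n → R) (ν : R → ℝ) : Prop :=
  ∀ (A : ℕ) (C1 η : ℝ), 0 < η → ∃ μ : (Fin n → R) →₀ ℝ,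
    (∀ x, 0 ≤ μ x) ∧ (∀ x ∈ μ.support, x ≠ 0 ∧ ∑ j, a j * x j = 0) ∧
    (∀ x : Fin n → R, x ≠ 0 → ∑ j, a j * x j = 0 → (∀ j, ν (x j) ≤ C1) → 1 ≤ μ x) ∧
    ∀ T : Finset R, ∑ c ∈ T, (1 + ν c) ^ A * ∑ i, ∑ j, |marg i μ c - marg j μ c| ≤ η

/-- S9: combinatorial part. -/
def S9 : Prop := ∀ (R : Type) [CommRing R] (n : ℕ) (a : Fin n → R) (ν : R → ℝ), 1 ≤ n →
  (∀ c, 0 ≤ ν c) → (∀ r : ℝ, {c : R | ν c ≤ r}.Finite) →
  (∃ x : Fin n → R, x ≠ 0 ∧ ∑ j, a j * x j = 0) → TP R n a ν → AP R n a ν → Balanced R n a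

/-- S10: real span lemma. -/
def S10 : Prop := ∀ (K : Type) [Field K] [NumberField K] (n : ℕ) (a : Fin n → 𝓞 K) (i : Fin n),
  StrongArch K n a → ∃ (m : ℕ) (x : Fin m → (Fin n → 𝓞 K)),
    (∀ l, x l i = 0 ∧ ∑ j, a j * x l j = 0 ∧ x l ≠ 0) ∧
    ∀ z : Fin n → ((K →+* ℂ) → ℂ),
      (∀ j σ, z j (NumberField.ComplexEmbedding.conjugate σ) = conj (z j σ)) → z i = 0 →
      (∀ σ : K →+* ℂ, ∑ j, σ (a j : K) * z j σ = 0) →
      ∃ t : Fin m → ℝ, ∀ j σ, z j σ = ∑ l, (t l : ℂ) * emb K (x l j) σ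

/-- S11: the transport property for number fields. -/
def S11 : Prop := S10 → ∀ (K : Type) [Field K] [NumberField K] (n : ℕ) (a : Fin n → 𝓞 K),
  1 ≤ n → StrongArch K n a → Surj (𝓞 K) n a → TP (𝓞 K) n a (nu K)

/-- S12: finiteness of balls. -/
def S12 : Prop := ∀ (K : Type) [Field K] [NumberField K] (r : ℝ), {c : 𝓞 K | nu K c ≤ r}.Finite

/-- S13 (owner helper961): the approximation property for number fields. -/
def S13 : Prop := S10 → ∀ (K : Type) [Field K] [NumberField K] (n : ℕ) (a : Fin n → 𝓞 K),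
  1 ≤ n → StrongArch K n a → Surj (𝓞 K) n a → AP (𝓞 K) n a (nu K)

theorem core_of (h9 : S9) (h10 : S10) (h11 : S11) (h12 : S12) (h13 : S13) : Core := by
  intro K _ _ n a hn hA hS
  refine h9 (𝓞 K) n a (nu K) hn (fun c => norm_nonneg _) (h12 K) ?_
    (h11 h10 K n a hn hA hS) (h13 h10 K n a hn hA hS)
  obtain ⟨x, hx, hr⟩ := hS ⟨0, hn⟩ 1
  refine ⟨x, ?_, hr⟩
  rintro rfl
  simp at hx

end Pool.Agent.H961R3.Smyth
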