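import Mathlib
import Pool.Agent.H961R3.Smyth.Stmts2

open scoped NumberField ComplexConjugate

/-! Third list of task statements for MP_ed3ef1_nt: decomposition of `S13`. -/

namespace Pool.Agent.H961R3.Smyth

/-- S14: one-dimensional theta sums are nearly independent of the shift. -/
def S14 : Prop := ∀ α : ℝ, 0 < α → α ≤ 1 →
  (∀ u : ℝ, Summable fun j : ℤ => Real.exp (-α * ((j : ℝ) + u) ^ 2)) ∧
  ∀ u u' : ℝ, (∑' j : ℤ, Real.exp (-α * ((j : ℝ) + u) ^ 2)) ≤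
    (1 + 16 * Real.exp (-1 / α)) * ∑' j : ℤ, Real.exp (-α * ((j : ℝ) + u') ^ 2)

/-- S15: shifts along the real line through a lattice vector. -/
def S15 : Prop := S14 → ∀ (H : Type) [NormedAddCommGroup H] [InnerProductSpace ℝ H]
  (G : Type) [AddCommGroup G] (f : G →+ H) (b : G) (a : ℝ), 0 < a → f b ≠ 0 →
  a * ‖f b‖ ^ 2 ≤ 1 → (∀ s : H, Summable fun y : G => Real.exp (-a * ‖s + f y‖ ^ 2)) →
  ∀ (s : H) (t : ℝ), (∑' y : G, Real.exp (-a * ‖s + t • f b + f y‖ ^ 2)) ≤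
    (1 + 16 * Real.exp (-1 / (a * ‖f b‖ ^ 2))) * ∑' y : G, Real.exp (-a * ‖s + f y‖ ^ 2)

/-- square of the `T₂` norm -/
noncomputable def qq (K : Type) [Field K] [NumberField K] (c : 𝓞 K) : ℝ :=
  ∑ σ : K →+* ℂ, ‖σ (c : K)‖ ^ 2

/-- S16: the explicit Euclidean structure on the relation lattice for which all coordinate
projections are co-isometries. -/
def S16 : Prop := S10 → ∀ (K : Type) [Field K] [NumberField K] (n : ℕ) (a : Fin n → 𝓞 K),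
  1 ≤ n → StrongArch K n a →
  ∃ (ι : Type) (_ : Fintype ι) (r : (Fin n → 𝓞 K) →+ EuclideanSpace ℝ ι)
    (M : Fin n → 𝓞 K → EuclideanSpace ℝ ι),
    (∀ x : Fin n → 𝓞 K, ∑ j, a j * x j = 0 → ∀ i,
      ‖r x‖ ^ 2 = qq K (x i) + ‖r x - M i (x i)‖ ^ 2) ∧
    ∀ i, ∃ (m : ℕ) (b : Fin m → (Fin n → 𝓞 K)),
      (∀ l, b l i = 0 ∧ ∑ j, a j * b l j = 0 ∧ b l ≠ 0) ∧
      ∀ x : Fin n → 𝓞 K, ∑ j, a j * x j = 0 →
        ∃ t : Fin m → ℝ, r x - M i (x i) = ∑ l, t l • r (b l)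

/-- S17: Gaussian sums over the ring of integers. -/
def S17 : Prop := ∀ (K : Type) [Field K] [NumberField K], ∃ (C : ℝ) (B : ℕ), 0 < C ∧
  ∀ a : ℝ, 0 < a → a ≤ 1 → (Summable fun c : 𝓞 K => Real.exp (-a * qq K c)) ∧
    (∑' c : 𝓞 K, Real.exp (-a * qq K c)) ≤ C * (1 / a) ^ B

/-- S18: product sums. -/
def S18 : Prop := ∀ (R : Type) (g : R → ℝ), (∀ c, 0 ≤ g c) → Summable g → ∀ n : ℕ,
  (Summable fun x : Fin n → R => ∏ j, g (x j)) ∧ (∑' x : Fin n → R, ∏ j, g (x j)) = (∑' c, g c) ^ n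

end Pool.Agent.H961R3.Smyth
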