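import Mathlib
import Pool.Agent.H961R3.Smyth.Stmts3

open scoped NumberField ComplexConjugate

namespace Pool.Agent.H961R3.Smyth

/-- fibre sum of `φ` over `{x | x i = c}` -/
noncomputable def fs {R : Type} {n : ℕ} (i : Fin n) (φ : (Fin n → R) → ℝ) (c : R) : ℝ :=
  ∑' x : {x : Fin n → R // x i = c}, φ x

section FS

variable {R : Type} {n : ℕ}

lemma fs_nonneg (i : Fin n) (φ : (Fin n → R) → ℝ) (h : ∀ x, 0 ≤ φ x) (c : R) : 0 ≤ fs i φ c :=
  tsum_nonneg (fun x => h x)

lemma fs_summable_tsum (i : Fin n) (φ : (Fin n → R) → ℝ) (h : Summable φ) :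
    Summable (fs i φ) ∧ ∑' c, fs i φ c = ∑' x, φ x := by
  have h1 : Summable (fun p : (Σ c : R, {x : Fin n → R // x i = c}) => φ p.2) := by
    have := (Equiv.sigmaFiberEquiv (fun x : Fin n → R => x i)).summable_iff.2 h
    exact this
  have h2 := (Equiv.sigmaFiberEquiv (fun x : Fin n → R => x i)).tsum_eq φ
  constructor
  · exact h1.sigma
  · rw [← h2]
    exact (h1.tsum_sigma).symm

lemma fs_weight (i : Fin n) (φ : (Fin n → R) → ℝ) (w : R → ℝ) (c : R) :
    fs i (fun x => w (x i) * φ x) c = w c * fs i φ c := by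
  unfold fs
  rw [← tsum_mul_left]
  apply tsum_congr
  intro x
  show w ((x : Fin n → R) i) * φ x = w c * φ x
  rw [x.2]

lemma fs_weight_sum_le (i : Fin n) (φ : (Fin n → R) → ℝ) (h : ∀ x, 0 ≤ φ x) (w : R → ℝ)
    (hw : ∀ c, 0 ≤ w c) (hs : Summable (fun x => w (x i) * φ x)) (T : Finset R) :
    ∑ c ∈ T, w c * fs i φ c ≤ ∑' x, w (x i) * φ x := by
  obtain ⟨h1, h2⟩ := fs_summable_tsum i _ hs
  rw [← h2]
  have h3 : ∑ c ∈ T, w c * fs i φ c = ∑ c ∈ T, fs i (fun x => w (x i) * φ x) c :=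
    Finset.sum_congr rfl (fun c _ => (fs_weight i φ w c).symm)
  rw [h3]
  exact h1.sum_le_tsum T (fun c _ => fs_nonneg i _ (fun x => mul_nonneg (hw _) (h x)) c)

lemma fs_add (i : Fin n) (φ ψ : (Fin n → R) → ℝ) (h : Summable φ) (h' : Summable ψ) (c : R) :
    fs i (fun x => φ x + ψ x) c = fs i φ c + fs i ψ c := by
  unfold fs
  exact Summable.tsum_add (h.subtype _) (h'.subtype _)

lemma marg_eq_fs (i : Fin n) (μ : (Fin n → R) →₀ ℝ) (c : R) : marg i μ c = fs i (fun x => μ x) c := by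
  classical
  unfold marg fs
  have h1 : (∑' x : {x : Fin n → R // x i = c}, μ x) =
      ∑' x : Fin n → R, Set.indicator {x : Fin n → R | x i = c} (fun x => μ x) x :=
    tsum_subtype {x : Fin n → R | x i = c} (fun x => μ x)
  rw [h1, tsum_eq_sum (s := μ.support)]
  · rw [Finsupp.mapDomain, Finsupp.sum_apply, Finsupp.sum]
    apply Finset.sum_congr rfl
    intro x _
    rw [Finsupp.single_apply, Set.indicator_apply]
    rfl
  · intro x hx
    rw [Finsupp.notMem_support_iff] at hx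
    rw [Set.indicator_apply]
    split_ifs
    · exact hx
    · rfl

lemma fs_delta (i : Fin n) [Zero R] (t : ℝ) (c : R) :
    fs i (fun x => Set.indicator {(0 : Fin n → R)} (fun _ => t) x) c =
      Set.indicator {(0 : R)} (fun _ => t) c := by
  classical
  unfold fs
  rw [Set.indicator_apply]
  split_ifs with h
  · have h0 : c = 0 := h
    subst h0
    rw [tsum_eq_single (⟨0, rfl⟩ : {x : Fin n → R // x i = 0})]
    · simp
    · intro x hx
      show Set.indicator {(0 : Fin n → R)} (fun _ => t) (x : Fin n → R) = 0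
      rw [Set.indicator_apply, if_neg]
      intro h1
      apply hx
      apply Subtype.ext
      exact h1
  · have : ∀ x : {x : Fin n → R // x i = c},
        Set.indicator {(0 : Fin n → R)} (fun _ => t) (x : Fin n → R) = 0 := by
      intro x
      rw [Set.indicator_apply, if_neg]
      intro h1
      apply h
      have h2 := x.2
      have h3 : (x : Fin n → R) = 0 := h1
      rw [h3] at h2
      exact h2.symm
    simp only [this, tsum_zero]

end FS

/-- weights are absorbed by half of the Gaussian -/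
lemma weight_le (A : ℕ) (a v q : ℝ) (ha : 0 < a) (ha1 : a ≤ 1) (hv : 0 ≤ v) (hq : v ^ 2 ≤ q) :
    (1 + v) ^ A ≤ (1 / a) ^ A * (A.factorial * Real.exp 2) * Real.exp (a / 2 * q) := by
  have h1 := Real.pow_div_factorial_le_exp (a * (1 + v)) (by positivity) A
  have hf : (0 : ℝ) < A.factorial := by exact_mod_cast A.factorial_pos
  rw [div_le_iff₀ hf] at h1
  have h2 : a * (1 + v) ≤ 2 + a / 2 * q := by
    nlinarith [sq_nonneg (v - 1)]
  have h3 : Real.exp (a * (1 + v)) ≤ Real.exp 2 * Real.exp (a / 2 * q) := by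
    rw [← Real.exp_add]
    exact Real.exp_le_exp.2 h2
  have h4 : (1 + v) ^ A = (1 / a) ^ A * (a * (1 + v)) ^ A := by
    rw [← mul_pow]
    congr 1
    field_simp
  rw [h4]
  calc (1 / a) ^ A * (a * (1 + v)) ^ A ≤ (1 / a) ^ A * (Real.exp (a * (1 + v)) * A.factorial) :=
        mul_le_mul_of_nonneg_left h1 (by positivity)
    _ ≤ (1 / a) ^ A * ((Real.exp 2 * Real.exp (a / 2 * q)) * A.factorial) := by
        apply mul_le_mul_of_nonneg_left _ (by positivity)
        exact mul_le_mul_of_nonneg_right h3 hf.le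
    _ = _ := by ring

lemma pow_one_add_le (x : ℝ) (hx : 0 ≤ x) (hx1 : x ≤ 1) (m : ℕ) : (1 + x) ^ m ≤ 1 + 3 ^ m * x := by
  induction m with
  | zero => simp; exact hx
  | succ m ih =>
    have h3 : (1 : ℝ) ≤ 3 ^ m := one_le_pow₀ (by norm_num)
    calc (1 + x) ^ (m + 1) = (1 + x) ^ m * (1 + x) := pow_succ _ _
      _ ≤ (1 + 3 ^ m * x) * (1 + x) := mul_le_mul_of_nonneg_right ih (by linarith)
      _ ≤ 1 + 3 ^ (m + 1) * x := by
        rw [pow_succ]
        nlinarith [mul_nonneg (by linarith : (0 : ℝ) ≤ 3 ^ m) hx,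
          mul_le_mul_of_nonneg_left hx1 (mul_nonneg (by linarith : (0 : ℝ) ≤ 3 ^ m) hx)]

/-- comparison of nearly constant functions with the same Gaussian integral -/
lemma compare (Z G E Fi Fj : ℝ) (hZ : 0 ≤ Z) (hG : 1 ≤ G) (hE : 1 ≤ E)
    (h1 : Fi * G ≤ E * Z) (h2 : Z ≤ E * Fi * G) (h3 : Fj * G ≤ E * Z) (h4 : Z ≤ E * Fj * G) :
    |Fi - Fj| ≤ 2 * (E - 1) * Z := by
  have key : ∀ x y : ℝ, x * G ≤ E * Z → Z ≤ E * y * G → x - y ≤ 2 * (E - 1) * Z := by
    intro x y hx hy
    have hEpos : 0 < E := by linarith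
    have hGpos : 0 < G := by linarith
    have h5 : (x - y) * G * E ≤ (E * E - 1) * Z := by nlinarith
    have h6 : (E * E - 1) * Z ≤ 2 * (E - 1) * Z * E := by
      have : (E * E - 1) ≤ 2 * (E - 1) * E := by nlinarith
      nlinarith
    have h7 : (x - y) * G ≤ 2 * (E - 1) * Z := by
      have := h5.trans h6
      nlinarith
    by_cases hxy : x - y ≤ 0
    · have : 0 ≤ 2 * (E - 1) * Z := by
        apply mul_nonneg _ hZ; linarith
      linarith
    · push Not at hxy
      nlinarith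
  rw [abs_le]
  constructor
  · have := key Fj Fi h3 h2
    linarith
  · exact key Fi Fj h1 h4

end Pool.Agent.H961R3.Smyth
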