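import Mathlib
import Pool.Agent.H961R3.Smyth.A1

open scoped NumberField ComplexConjugate

namespace Pool.Agent.H961R3.Smyth

/-- shifting by a real combination of finitely many lattice vectors -/
lemma shift_finset (h14 : S14) (h15 : S15) {H : Type} [NormedAddCommGroup H] [InnerProductSpace ℝ H]
    {G : Type} [AddCommGroup G] (f : G →+ H) (t Cb : ℝ) (ht : 0 < t) (hCb : 0 < Cb)
    (htC : t * Cb ≤ 1) (hs : ∀ s : H, Summable fun y : G => Real.exp (-t * ‖s + f y‖ ^ 2))
    {m : ℕ} (b : Fin m → G) (hb : ∀ l, f (b l) ≠ 0) (hbC : ∀ l, ‖f (b l)‖ ^ 2 ≤ Cb)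
    (u : Fin m → ℝ) (S : Finset (Fin m)) (s : H) :
    (∑' y : G, Real.exp (-t * ‖s + ∑ l ∈ S, u l • f (b l) + f y‖ ^ 2)) ≤
      (1 + 16 * Real.exp (-1 / (t * Cb))) ^ S.card *
        ∑' y : G, Real.exp (-t * ‖s + f y‖ ^ 2) := by
  classical
  induction S using Finset.induction_on with
  | empty => simp
  | insert l S hl ih =>
    rw [Finset.sum_insert hl, Finset.card_insert_of_notMem hl, pow_succ]
    have hpos : 0 < t * ‖f (b l)‖ ^ 2 := by
      have : 0 < ‖f (b l)‖ := norm_pos_iff.2 (hb l)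
      positivity
    have hle : t * ‖f (b l)‖ ^ 2 ≤ t * Cb := mul_le_mul_of_nonneg_left (hbC l) ht.le
    have h1 := h15 h14 H G f (b l) t ht (hb l) (hle.trans htC) hs
      (s + ∑ l ∈ S, u l • f (b l)) (u l)
    have h2 : ∀ y : G, s + (u l • f (b l) + ∑ l ∈ S, u l • f (b l)) + f y =
        s + ∑ l ∈ S, u l • f (b l) + u l • f (b l) + f y := by
      intro y; abel
    simp only [h2]
    refine h1.trans ?_
    have h3 : Real.exp (-1 / (t * ‖f (b l)‖ ^ 2)) ≤ Real.exp (-1 / (t * Cb)) := by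
      apply Real.exp_le_exp.2
      rw [neg_div, neg_div, neg_le_neg_iff]
      exact one_div_le_one_div_of_le hpos hle
    have h4 : 0 ≤ ∑' y : G, Real.exp (-t * ‖s + ∑ l ∈ S, u l • f (b l) + f y‖ ^ 2) :=
      tsum_nonneg (fun y => (Real.exp_pos _).le)
    calc (1 + 16 * Real.exp (-1 / (t * ‖f (b l)‖ ^ 2))) *
          ∑' y : G, Real.exp (-t * ‖s + ∑ l ∈ S, u l • f (b l) + f y‖ ^ 2)
        ≤ (1 + 16 * Real.exp (-1 / (t * Cb))) *
          ((1 + 16 * Real.exp (-1 / (t * Cb))) ^ S.card *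
            ∑' y : G, Real.exp (-t * ‖s + f y‖ ^ 2)) := by
          apply mul_le_mul (by linarith) ih h4
          have := Real.exp_pos (-1 / (t * Cb))
          linarith
      _ = _ := by ring

section Rel

variable {R : Type} [CommRing R] {n : ℕ} (a : Fin n → R)
  {H : Type} [NormedAddCommGroup H] [InnerProductSpace ℝ H]

/-- relation vectors with vanishing `i`-th coordinate -/
def relSub (i : Fin n) : AddSubgroup (Fin n → R) where
  carrier := {x | x i = 0 ∧ ∑ j, a j * x j = 0}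
  zero_mem' := by simp
  add_mem' := by
    rintro x y ⟨h1, h2⟩ ⟨h3, h4⟩
    refine ⟨by simp [h1, h3], ?_⟩
    have : ∑ j, a j * (x + y) j = ∑ j, a j * x j + ∑ j, a j * y j := by
      rw [← Finset.sum_add_distrib]
      apply Finset.sum_congr rfl
      intro j _
      rw [Pi.add_apply]; ring
    rw [this, h2, h4, add_zero]
  neg_mem' := by
    rintro x ⟨h1, h2⟩
    refine ⟨by simp [h1], ?_⟩
    have : ∑ j, a j * (-x) j = -∑ j, a j * x j := by
      rw [← Finset.sum_neg_distrib]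
      apply Finset.sum_congr rfl
      intro j _
      rw [Pi.neg_apply]; ring
    rw [this, h2, neg_zero]

open Classical in
/-- Gaussian weight on relation vectors -/
noncomputable def gg (r : (Fin n → R) →+ H) (t : ℝ) (x : Fin n → R) : ℝ :=
  if ∑ j, a j * x j = 0 then Real.exp (-t * ‖r x‖ ^ 2) else 0

lemma gg_nonneg (r : (Fin n → R) →+ H) (t : ℝ) (x : Fin n → R) : 0 ≤ gg a r t x := by
  unfold gg
  split_ifs
  · exact (Real.exp_pos _).le
  · exact le_rfl

lemma rel_add {x y : Fin n → R} (hx : ∑ j, a j * x j = 0) (hy : ∑ j, a j * y j = 0) :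
    ∑ j, a j * (x + y) j = 0 := by
  have : ∑ j, a j * (x + y) j = ∑ j, a j * x j + ∑ j, a j * y j := by
    rw [← Finset.sum_add_distrib]
    apply Finset.sum_congr rfl
    intro j _
    rw [Pi.add_apply]; ring
  rw [this, hx, hy, add_zero]

lemma summ_shift (r : (Fin n → R) →+ H) (t : ℝ) (ht : 0 < t) (hs : Summable (gg a r (t / 2)))
    (i : Fin n) (s : H) : Summable fun y : relSub a i => Real.exp (-t * ‖s + r y‖ ^ 2) := by
  have h1 : Summable (fun y : relSub a i => gg a r (t / 2) y) :=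
    hs.comp_injective Subtype.val_injective
  refine Summable.of_nonneg_of_le (fun y => (Real.exp_pos _).le) ?_
    (h1.mul_left (Real.exp (t * ‖s‖ ^ 2)))
  intro y
  have hy : ∑ j, a j * (y : Fin n → R) j = 0 := y.2.2
  rw [gg, if_pos hy, ← Real.exp_add]
  apply Real.exp_le_exp.2
  have h2 : ‖r (y : Fin n → R)‖ ≤ ‖s + r y‖ + ‖s‖ := by
    have : r (y : Fin n → R) = (s + r y) - s := by abel
    calc ‖r (y : Fin n → R)‖ = ‖(s + r y) - s‖ := by rw [← this]
      _ ≤ _ := norm_sub_le _ _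
  have h3 : ‖r (y : Fin n → R)‖ ^ 2 ≤ 2 * ‖s + r y‖ ^ 2 + 2 * ‖s‖ ^ 2 := by
    have h0 := norm_nonneg (r (y : Fin n → R))
    nlinarith [sq_nonneg (‖s + r (y : Fin n → R)‖ - ‖s‖), norm_nonneg (s + r (y : Fin n → R)),
      norm_nonneg s]
  nlinarith

/-- fibre sums of the Gaussian -/
lemma full_eq (r : (Fin n → R) →+ H) (M : Fin n → R → H) (q : R → ℝ)
    (hM : ∀ x : Fin n → R, ∑ j, a j * x j = 0 → ∀ i,
      ‖r x‖ ^ 2 = q (x i) + ‖r x - M i (x i)‖ ^ 2) (t : ℝ) (i : Fin n) (c : R)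
    (xc : Fin n → R) (hxc : xc i = c) (hrel : ∑ j, a j * xc j = 0) :
    fs i (gg a r t) c = Real.exp (-t * q c) *
      ∑' y : relSub a i, Real.exp (-t * ‖(r xc - M i c) + r y‖ ^ 2) := by
  unfold fs
  let e : relSub a i → {x : Fin n → R // x i = c} := fun y =>
    ⟨xc + y, by
      have : (y : Fin n → R) i = 0 := y.2.1
      rw [Pi.add_apply, this, add_zero, hxc]⟩
  have he : Function.Injective e := by
    intro y y' h
    have h1 := congrArg Subtype.val h
    have h2 : xc + (y : Fin n → R) = xc + (y' : Fin n → R) := h1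
    exact Subtype.ext (add_left_cancel h2)
  have hsupp : Function.support (fun x : {x : Fin n → R // x i = c} => gg a r t x) ⊆
      Set.range e := by
    intro x hx
    rw [Function.mem_support] at hx
    have hrx : ∑ j, a j * (x : Fin n → R) j = 0 := by
      by_contra h
      apply hx
      rw [gg, if_neg h]
    refine ⟨⟨(x : Fin n → R) - xc, ?_, ?_⟩, ?_⟩
    · rw [Pi.sub_apply, x.2, hxc, sub_self]
    · have : ∑ j, a j * ((x : Fin n → R) - xc) j =
          ∑ j, a j * (x : Fin n → R) j - ∑ j, a j * xc j := by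
        rw [← Finset.sum_sub_distrib]
        apply Finset.sum_congr rfl
        intro j _
        rw [Pi.sub_apply]; ring
      rw [this, hrx, hrel, sub_zero]
    · apply Subtype.ext
      show xc + ((x : Fin n → R) - xc) = x
      abel
  rw [← he.tsum_eq hsupp, ← tsum_mul_left]
  apply tsum_congr
  intro y
  show gg a r t (xc + y) = _
  have hy : ∑ j, a j * (y : Fin n → R) j = 0 := y.2.2
  have hxy := rel_add a hrel hy
  rw [gg, if_pos hxy, ← Real.exp_add]
  congr 1
  have h1 := hM (xc + y) hxy i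
  have h2 : (xc + (y : Fin n → R)) i = c := by
    have : (y : Fin n → R) i = 0 := y.2.1
    rw [Pi.add_apply, this, add_zero, hxc]
  rw [h2] at h1
  rw [h1, map_add]
  have h3 : r xc + r (y : Fin n → R) - M i c = r xc - M i c + r y := by abel
  rw [h3]; ring

lemma near_const (h14 : S14) (h15 : S15) (r : (Fin n → R) →+ H) (M : Fin n → R → H) (q : R → ℝ)
    (hM : ∀ x : Fin n → R, ∑ j, a j * x j = 0 → ∀ i,
      ‖r x‖ ^ 2 = q (x i) + ‖r x - M i (x i)‖ ^ 2) (t : ℝ) (ht : 0 < t)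
    (hs : Summable (gg a r (t / 2))) (i : Fin n) {m : ℕ} (b : Fin m → (Fin n → R))
    (hb : ∀ l, b l i = 0 ∧ ∑ j, a j * b l j = 0 ∧ r (b l) ≠ 0) (Cb : ℝ) (hCb : 0 < Cb)
    (hbC : ∀ l, ‖r (b l)‖ ^ 2 ≤ Cb) (htC : t * Cb ≤ 1)
    (hspan : ∀ x : Fin n → R, ∑ j, a j * x j = 0 →
        ∃ u : Fin m → ℝ, r x - M i (x i) = ∑ l, u l • r (b l))
    (hsurj : ∀ c : R, ∃ x : Fin n → R, x i = c ∧ ∑ j, a j * x j = 0) (c c' : R) :
    fs i (gg a r t) c * Real.exp (t * q c) ≤
      (1 + 16 * Real.exp (-1 / (t * Cb))) ^ m * (fs i (gg a r t) c' * Real.exp (t * q c')) := by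
  obtain ⟨x, hx, hrx⟩ := hsurj c
  obtain ⟨x', hx', hrx'⟩ := hsurj c'
  rw [full_eq a r M q hM t i c x hx hrx, full_eq a r M q hM t i c' x' hx' hrx']
  have e1 : ∀ (d : R) (Y : ℝ), Real.exp (-t * q d) * Y * Real.exp (t * q d) = Y := by
    intro d Y
    have : Real.exp (-t * q d) * Real.exp (t * q d) = 1 := by
      rw [← Real.exp_add]; simp
    calc _ = Y * (Real.exp (-t * q d) * Real.exp (t * q d)) := by ring
      _ = Y := by rw [this, mul_one]
  rw [e1, e1]
  obtain ⟨u, hu⟩ := hspan x hrx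
  obtain ⟨u', hu'⟩ := hspan x' hrx'
  rw [hx] at hu
  rw [hx'] at hu'
  let f : relSub a i →+ H := r.comp (relSub a i).subtype
  have hf : ∀ y : relSub a i, f y = r y := fun y => rfl
  let bb : Fin m → relSub a i := fun l => ⟨b l, (hb l).1, (hb l).2.1⟩
  have hbb : ∀ l, f (bb l) = r (b l) := fun l => rfl
  have h1 := shift_finset h14 h15 f t Cb ht hCb htC
    (fun s => summ_shift a r t ht hs i s) bb (fun l => by rw [hbb]; exact (hb l).2.2)
    (fun l => by rw [hbb]; exact hbC l) (fun l => u l - u' l) Finset.univ (r x' - M i c')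
  simp only [hbb, hf, Finset.card_univ, Fintype.card_fin] at h1
  have h2 : r x' - M i c' + ∑ l, (u l - u' l) • r (b l) = r x - M i c := by
    rw [hu, hu']
    simp only [sub_smul, Finset.sum_sub_distrib]
    abel
  rw [h2] at h1
  exact h1

end Rel

end Pool.Agent.H961R3.Smyth
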