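import Mathlib
import Pool.Agent.H961R3.Smyth.A2

open scoped NumberField ComplexConjugate

namespace Pool.Agent.H961R3.Smyth

lemma lim_aux (D : ℕ) (c Cst η : ℝ) (hc : 0 < c) (hη : 0 < η) :
    ∃ s₀ : ℕ, ∀ s : ℕ, s₀ ≤ s → Cst * (s : ℝ) ^ D * Real.exp (-(s : ℝ) / c) ≤ η := by
  have h1 := Real.tendsto_pow_mul_exp_neg_atTop_nhds_zero D
  have h2 : Filter.Tendsto (fun s : ℕ => (s : ℝ) / c) Filter.atTop Filter.atTop :=
    (tendsto_natCast_atTop_atTop (R := ℝ)).atTop_div_const hc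
  have h3 := (h1.comp h2).const_mul (Cst * c ^ D)
  rw [mul_zero] at h3
  obtain ⟨s₀, hs₀⟩ := Filter.eventually_atTop.1 (h3.eventually_le_const hη)
  refine ⟨s₀, fun s hs => ?_⟩
  have h4 := hs₀ s hs
  refine le_trans (le_of_eq ?_) h4
  simp only [Function.comp]
  rw [div_pow]
  have : c ^ D ≠ 0 := by positivity
  have h5 : -(s : ℝ) / c = -((s : ℝ) / c) := by ring
  rw [h5]
  field_simp

section NF

variable {K : Type} [Field K] [NumberField K] {n : ℕ} (a : Fin n → 𝓞 K)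
  {H : Type} [NormedAddCommGroup H] [InnerProductSpace ℝ H]

lemma qq_nonneg (c : 𝓞 K) : 0 ≤ qq K c := Finset.sum_nonneg (fun σ _ => by positivity)

lemma nu_nonneg (c : 𝓞 K) : 0 ≤ nu K c := norm_nonneg _

lemma nu_sq_le (c : 𝓞 K) : nu K c ^ 2 ≤ qq K c := by
  have h1 : nu K c ≤ Real.sqrt (qq K c) := by
    unfold nu
    rw [pi_norm_le_iff_of_nonneg (Real.sqrt_nonneg _)]
    intro σ
    apply Real.le_sqrt_of_sq_le
    unfold emb qq
    exact Finset.single_le_sum (f := fun σ : K →+* ℂ => ‖σ (c : K)‖ ^ 2)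
      (fun σ _ => by positivity) (Finset.mem_univ σ)
  calc nu K c ^ 2 ≤ (Real.sqrt (qq K c)) ^ 2 := pow_le_pow_left₀ (nu_nonneg c) h1 2
    _ = qq K c := Real.sq_sqrt (qq_nonneg c)

lemma qq_zero : qq K (0 : 𝓞 K) = 0 := by simp [qq]

lemma gg_le_prod (hn : 1 ≤ n) (r : (Fin n → 𝓞 K) →+ H) (M : Fin n → 𝓞 K → H)
    (hM : ∀ x : Fin n → 𝓞 K, ∑ j, a j * x j = 0 → ∀ i,
      ‖r x‖ ^ 2 = qq K (x i) + ‖r x - M i (x i)‖ ^ 2) (t : ℝ) (ht : 0 < t) (x : Fin n → 𝓞 K) :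
    gg a r t x ≤ ∏ j, Real.exp (-(t / n) * qq K (x j)) := by
  unfold gg
  split_ifs with h
  · rw [← Real.exp_sum]
    apply Real.exp_le_exp.2
    have hnR : (0 : ℝ) < n := by exact_mod_cast hn
    have h1 : ∑ j, qq K (x j) ≤ n * ‖r x‖ ^ 2 := by
      have : ∀ j ∈ (Finset.univ : Finset (Fin n)), qq K (x j) ≤ ‖r x‖ ^ 2 := by
        intro j _
        rw [hM x h j]
        have := sq_nonneg ‖r x - M j (x j)‖
        linarith
      have h2 := Finset.sum_le_card_nsmul _ _ _ this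
      simpa using h2
    rw [← Finset.mul_sum]
    have h3 : t / n * ∑ j, qq K (x j) ≤ t * ‖r x‖ ^ 2 := by
      calc t / n * ∑ j, qq K (x j) ≤ t / n * (n * ‖r x‖ ^ 2) :=
            mul_le_mul_of_nonneg_left h1 (by positivity)
        _ = t * ‖r x‖ ^ 2 := by field_simp
    linarith
  · exact Finset.prod_nonneg (fun j _ => (Real.exp_pos _).le)

lemma gg_summable (hn : 1 ≤ n) (h18 : S18) (r : (Fin n → 𝓞 K) →+ H) (M : Fin n → 𝓞 K → H)
    (hM : ∀ x : Fin n → 𝓞 K, ∑ j, a j * x j = 0 → ∀ i,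
      ‖r x‖ ^ 2 = qq K (x i) + ‖r x - M i (x i)‖ ^ 2) (C : ℝ) (B : ℕ)
    (h17 : ∀ t : ℝ, 0 < t → t ≤ 1 → (Summable fun c : 𝓞 K => Real.exp (-t * qq K c)) ∧
      (∑' c : 𝓞 K, Real.exp (-t * qq K c)) ≤ C * (1 / t) ^ B)
    (t : ℝ) (ht : 0 < t) (ht1 : t ≤ 1) :
    Summable (gg a r t) ∧ ∑' x, gg a r t x ≤ (C * (n / t) ^ B) ^ n := by
  have hnR : (1 : ℝ) ≤ n := by exact_mod_cast hn
  have htn : 0 < t / n := by positivity
  have htn1 : t / n ≤ 1 := by
    rw [div_le_one (by linarith)]; linarith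
  obtain ⟨h1, h2⟩ := h17 (t / n) htn htn1
  obtain ⟨h3, h4⟩ := h18 (𝓞 K) (fun c => Real.exp (-(t / n) * qq K c))
    (fun c => (Real.exp_pos _).le) h1 n
  have h5 : Summable (gg a r t) := Summable.of_nonneg_of_le (fun x => gg_nonneg a r t x)
    (fun x => gg_le_prod a hn r M hM t ht x) h3
  refine ⟨h5, ?_⟩
  calc ∑' x, gg a r t x ≤ ∑' x : Fin n → 𝓞 K, ∏ j, Real.exp (-(t / n) * qq K (x j)) :=
        h5.tsum_le_tsum (fun x => gg_le_prod a hn r M hM t ht x) h3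
    _ = (∑' c : 𝓞 K, Real.exp (-(t / n) * qq K c)) ^ n := h4
    _ ≤ (C * (n / t) ^ B) ^ n := by
        apply pow_le_pow_left₀ (tsum_nonneg (fun c => (Real.exp_pos _).le))
        refine h2.trans (le_of_eq ?_)
        rw [one_div_div]

/-- weighted summability -/
lemma gg_weight (r : (Fin n → 𝓞 K) →+ H) (M : Fin n → 𝓞 K → H)
    (hM : ∀ x : Fin n → 𝓞 K, ∑ j, a j * x j = 0 → ∀ i,
      ‖r x‖ ^ 2 = qq K (x i) + ‖r x - M i (x i)‖ ^ 2) (A : ℕ)
    (t : ℝ) (ht : 0 < t) (ht1 : t ≤ 1) (hs : Summable (gg a r (t / 2))) (i : Fin n) :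
    Summable (fun x => (1 + nu K (x i)) ^ A * gg a r t x) := by
  refine Summable.of_nonneg_of_le
    (fun x => mul_nonneg (pow_nonneg (by have := nu_nonneg (x i); linarith) _) (gg_nonneg a r t x))
    ?_ (hs.mul_left ((1 / t) ^ A * (A.factorial * Real.exp 2)))
  intro x
  have h1 := weight_le A t (nu K (x i)) (qq K (x i)) ht ht1 (nu_nonneg _) (nu_sq_le _)
  unfold gg
  split_ifs with h
  · have h2 : qq K (x i) ≤ ‖r x‖ ^ 2 := by
      rw [hM x h i]
      have := sq_nonneg ‖r x - M i (x i)‖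
      linarith
    calc (1 + nu K (x i)) ^ A * Real.exp (-t * ‖r x‖ ^ 2)
        ≤ ((1 / t) ^ A * (A.factorial * Real.exp 2) * Real.exp (t / 2 * qq K (x i))) *
            Real.exp (-t * ‖r x‖ ^ 2) := mul_le_mul_of_nonneg_right h1 (Real.exp_pos _).le
      _ = (1 / t) ^ A * (A.factorial * Real.exp 2) *
            Real.exp (t / 2 * qq K (x i) + -t * ‖r x‖ ^ 2) := by
          rw [Real.exp_add]; ring
      _ ≤ (1 / t) ^ A * (A.factorial * Real.exp 2) * Real.exp (-(t / 2) * ‖r x‖ ^ 2) := by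
          apply mul_le_mul_of_nonneg_left _ (by positivity)
          apply Real.exp_le_exp.2
          nlinarith
  · simp

lemma weight_sum (A : ℕ) (C : ℝ) (B : ℕ)
    (h17 : ∀ t : ℝ, 0 < t → t ≤ 1 → (Summable fun c : 𝓞 K => Real.exp (-t * qq K c)) ∧
      (∑' c : 𝓞 K, Real.exp (-t * qq K c)) ≤ C * (1 / t) ^ B)
    (t : ℝ) (ht : 0 < t) (ht1 : t ≤ 1) (T : Finset (𝓞 K)) :
    ∑ c ∈ T, (1 + nu K c) ^ A * Real.exp (-t * qq K c) ≤
      (1 / t) ^ A * (A.factorial * Real.exp 2) * (C * (2 / t) ^ B) := by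
  obtain ⟨h1, h2⟩ := h17 (t / 2) (by positivity) (by linarith)
  have h3 : ∀ c ∈ T, (1 + nu K c) ^ A * Real.exp (-t * qq K c) ≤
      ((1 / t) ^ A * (A.factorial * Real.exp 2)) * Real.exp (-(t / 2) * qq K c) := by
    intro c _
    have h4 := weight_le A t (nu K c) (qq K c) ht ht1 (nu_nonneg _) (nu_sq_le _)
    calc (1 + nu K c) ^ A * Real.exp (-t * qq K c)
        ≤ ((1 / t) ^ A * (A.factorial * Real.exp 2) * Real.exp (t / 2 * qq K c)) *
            Real.exp (-t * qq K c) := mul_le_mul_of_nonneg_right h4 (Real.exp_pos _).le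
      _ = (1 / t) ^ A * (A.factorial * Real.exp 2) *
            Real.exp (t / 2 * qq K c + -t * qq K c) := by
          rw [Real.exp_add]; ring
      _ = _ := by
          congr 2; ring
  refine (Finset.sum_le_sum h3).trans ?_
  rw [← Finset.mul_sum]
  apply mul_le_mul_of_nonneg_left _ (by positivity)
  refine (h1.sum_le_tsum T (fun c _ => (Real.exp_pos _).le)).trans (h2.trans (le_of_eq ?_))
  rw [one_div_div]

/-- The fibre sums of the Gaussian in different directions nearly agree. -/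
lemma fs_close (h14 : S14) (h15 : S15) (r : (Fin n → 𝓞 K) →+ H) (M : Fin n → 𝓞 K → H)
    (hM : ∀ x : Fin n → 𝓞 K, ∑ j, a j * x j = 0 → ∀ i,
      ‖r x‖ ^ 2 = qq K (x i) + ‖r x - M i (x i)‖ ^ 2) (t : ℝ) (ht : 0 < t)
    (hs : Summable (gg a r t)) (hs2 : Summable (gg a r (t / 2)))
    (hsq : Summable fun c : 𝓞 K => Real.exp (-t * qq K c))
    (m : Fin n → ℕ) (mm : ℕ) (hmm : ∀ i, m i ≤ mm)
    (b : ∀ i, Fin (m i) → (Fin n → 𝓞 K))
    (hb : ∀ i l, b i l i = 0 ∧ ∑ j, a j * b i l j = 0 ∧ r (b i l) ≠ 0) (Cb : ℝ) (hCb : 0 < Cb)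
    (hbC : ∀ i l, ‖r (b i l)‖ ^ 2 ≤ Cb) (htC : t * Cb ≤ 1)
    (hspan : ∀ i, ∀ x : Fin n → 𝓞 K, ∑ j, a j * x j = 0 →
        ∃ u : Fin (m i) → ℝ, r x - M i (x i) = ∑ l, u l • r (b i l))
    (hsurj : Surj (𝓞 K) n a) (i j : Fin n) (c : 𝓞 K) :
    |fs i (gg a r t) c - fs j (gg a r t) c| ≤
      2 * ((1 + 16 * Real.exp (-1 / (t * Cb))) ^ mm - 1) * (∑' x, gg a r t x) *
        Real.exp (-t * qq K c) := by
  set E : ℝ := (1 + 16 * Real.exp (-1 / (t * Cb))) ^ mm with hE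
  have hbase : (1 : ℝ) ≤ 1 + 16 * Real.exp (-1 / (t * Cb)) := by
    have := Real.exp_pos (-1 / (t * Cb)); linarith
  have hE1 : 1 ≤ E := one_le_pow₀ hbase
  set G : ℝ := ∑' c : 𝓞 K, Real.exp (-t * qq K c) with hG
  have hG1 : 1 ≤ G := by
    have h1 := hsq.le_tsum (0 : 𝓞 K) (fun c _ => (Real.exp_pos _).le)
    rw [qq_zero, mul_zero, Real.exp_zero] at h1
    exact h1
  set Z : ℝ := ∑' x, gg a r t x with hZ
  have hZ0 : 0 ≤ Z := tsum_nonneg (fun x => gg_nonneg a r t x)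
  set F : Fin n → 𝓞 K → ℝ := fun i c => fs i (gg a r t) c * Real.exp (t * qq K c) with hF
  have hfs0 : ∀ i c, 0 ≤ fs i (gg a r t) c := fun i c => fs_nonneg i _ (gg_nonneg a r t) c
  have hF0 : ∀ i c, 0 ≤ F i c := fun i c => mul_nonneg (hfs0 i c) (Real.exp_pos _).le
  have hnear : ∀ i c c', F i c ≤ E * F i c' := by
    intro i c c'
    have h1 := near_const a h14 h15 r M (qq K) hM t ht hs2 i (b i) (hb i) Cb hCb (hbC i) htC
      (hspan i) (hsurj i) c c'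
    refine h1.trans ?_
    apply mul_le_mul_of_nonneg_right _ (hF0 i c')
    exact pow_le_pow_right₀ hbase (hmm i)
  have hFe : ∀ i c, fs i (gg a r t) c = F i c * Real.exp (-t * qq K c) := by
    intro i c
    have : Real.exp (t * qq K c) * Real.exp (-t * qq K c) = 1 := by
      rw [← Real.exp_add]; simp
    simp only [hF]
    rw [mul_assoc, this, mul_one]
  have hub : ∀ i c, F i c * G ≤ E * Z := by
    intro i c
    obtain ⟨h1, h2⟩ := fs_summable_tsum i (gg a r t) hs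
    rw [hZ, ← h2, hG, ← tsum_mul_left, ← tsum_mul_left]
    apply Summable.tsum_le_tsum _ (hsq.mul_left _) (h1.mul_left _)
    intro c'
    rw [hFe i c', ← mul_assoc]
    exact mul_le_mul_of_nonneg_right (hnear i c c') (Real.exp_pos _).le
  have hlb : ∀ i c, Z ≤ E * F i c * G := by
    intro i c
    obtain ⟨h1, h2⟩ := fs_summable_tsum i (gg a r t) hs
    rw [hZ, ← h2, hG, ← tsum_mul_left]
    apply Summable.tsum_le_tsum _ h1 (hsq.mul_left _)
    intro c'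
    rw [hFe i c']
    exact mul_le_mul_of_nonneg_right (hnear i c' c) (Real.exp_pos _).le
  have h3 := compare Z G E (F i c) (F j c) hZ0 hG1 hE1 (hub i c) (hlb i c) (hub j c) (hlb j c)
  rw [hFe i c, hFe j c, ← sub_mul, abs_mul, abs_of_pos (Real.exp_pos (-t * qq K c))]
  exact mul_le_mul_of_nonneg_right h3 (Real.exp_pos _).le

end NF

end Pool.Agent.H961R3.Smyth
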