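import Mathlib
import Pool.Agent.H961R3.Smyth.A3

open scoped NumberField ComplexConjugate

namespace Pool.Agent.H961R3.Smyth

theorem s13 (h14 : S14) (h15 : S15) (h16 : S16) (h17 : S17) (h18 : S18) (h12 : S12) : S13 := by
  intro h10 K _ _ n a hn hA hsurj A C1 η hη
  classical
  obtain ⟨ι, hι, r, M, hM, hb0⟩ := h16 h10 K n a hn hA
  obtain ⟨C, B, hC, h17'⟩ := h17 K
  choose m b hb hspan using hb0
  -- injectivity of `r`
  have hrinj : ∀ x : Fin n → 𝓞 K, ∑ j, a j * x j = 0 → x ≠ 0 → r x ≠ 0 := by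
    intro x hx hx0 h0
    apply hx0
    funext i
    have h1 := hM x hx i
    rw [h0, norm_zero] at h1
    have h2 : qq K (x i) = 0 := by
      have := qq_nonneg (x i)
      have := sq_nonneg ‖(0 : EuclideanSpace ℝ ι) - M i (x i)‖
      nlinarith
    have h3 := nu_sq_le (x i)
    have h4 : nu K (x i) = 0 := by
      have := nu_nonneg (x i)
      nlinarith
    have h5 : emb K (x i) = 0 := norm_eq_zero.1 h4
    obtain ⟨σ⟩ := (inferInstance : Nonempty (K →+* ℂ))
    have h6 : σ ((x i : 𝓞 K) : K) = 0 := congrFun h5 σ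
    have h7 : ((x i : 𝓞 K) : K) = 0 := (map_eq_zero_iff σ σ.injective).1 h6
    exact_mod_cast h7
  have hnR : (1 : ℝ) ≤ n := by exact_mod_cast hn
  -- constants
  obtain ⟨mm, hmm⟩ : ∃ mm : ℕ, ∀ i, m i ≤ mm :=
    ⟨∑ i, m i, fun i => Finset.single_le_sum (f := m) (fun _ _ => Nat.zero_le _)
      (Finset.mem_univ i)⟩
  obtain ⟨Cb, hCb, hbC⟩ : ∃ Cb : ℝ, 0 < Cb ∧ ∀ i l, ‖r (b i l)‖ ^ 2 ≤ Cb := by
    refine ⟨1 + ∑ i, ∑ l, ‖r (b i l)‖ ^ 2, ?_, ?_⟩
    · have : 0 ≤ ∑ i, ∑ l, ‖r (b i l)‖ ^ 2 :=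
        Finset.sum_nonneg (fun i _ => Finset.sum_nonneg (fun l _ => by positivity))
      linarith
    · intro i l
      have h1 := Finset.single_le_sum (f := fun l => ‖r (b i l)‖ ^ 2) (s := Finset.univ)
        (fun l _ => by positivity) (Finset.mem_univ l)
      have h2 := Finset.single_le_sum (f := fun i => ∑ l, ‖r (b i l)‖ ^ 2) (s := Finset.univ)
        (fun i _ => Finset.sum_nonneg (fun l _ => by positivity)) (Finset.mem_univ i)
      linarith
  -- the finite ball
  have hballfin : {x : Fin n → 𝓞 K | ∀ j, nu K (x j) ≤ C1}.Finite := by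
    have := Set.Finite.pi' (fun _ : Fin n => h12 K C1)
    exact this
  obtain ⟨Nb, hNb0, hNb⟩ : ∃ Nb : ℝ, 0 < Nb ∧ ∀ x ∈ hballfin.toFinset, ‖r x‖ ^ 2 ≤ Nb := by
    refine ⟨1 + ∑ x ∈ hballfin.toFinset, ‖r x‖ ^ 2, ?_, ?_⟩
    · have : 0 ≤ ∑ x ∈ hballfin.toFinset, ‖r x‖ ^ 2 :=
        Finset.sum_nonneg (fun i _ => by positivity)
      linarith
    · intro x hx
      have h1 := Finset.single_le_sum (f := fun x => ‖r x‖ ^ 2) (s := hballfin.toFinset)
        (fun l _ => by positivity) hx
      linarith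
  have hκ : 0 < Real.exp 1 := Real.exp_pos 1
  -- choice of the scale `s`
  set Cst : ℝ := Real.exp 1 * (n * (n * (2 * (3 ^ mm * 16) * (C * n ^ B) ^ n *
    ((A.factorial * Real.exp 2) * (C * 2 ^ B))))) with hCst
  obtain ⟨s₁, hs₁⟩ := lim_aux (B * n + A + B) Cb Cst (η / 2) hCb (by positivity)
  obtain ⟨s₂, hs₂⟩ := lim_aux 0 Cb 16 1 hCb one_pos
  obtain ⟨s₃, hs₃⟩ := exists_nat_ge (max Cb Nb)
  obtain ⟨s, hs⟩ : ∃ s : ℕ, s = max (max s₁ s₂) (max s₃ 1) := ⟨_, rfl⟩
  have hss1 : s₁ ≤ s := by omega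
  have hss2 : s₂ ≤ s := by omega
  have hss3 : s₃ ≤ s := by omega
  have hs1 : 1 ≤ s := by omega
  have hsR : (1 : ℝ) ≤ s := by exact_mod_cast hs1
  have hspos : (0 : ℝ) < s := by linarith
  have hsCb : Cb ≤ s := (le_max_left _ _).trans (hs₃.trans (by exact_mod_cast hss3))
  have hsNb : Nb ≤ s := (le_max_right _ _).trans (hs₃.trans (by exact_mod_cast hss3))
  set t : ℝ := 1 / s with ht
  have ht0 : 0 < t := by positivity
  have ht1 : t ≤ 1 := by rw [ht, div_le_one hspos]; exact hsR
  have htC : t * Cb ≤ 1 := by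
    rw [ht, one_div_mul_eq_div, div_le_one hspos]; exact hsCb
  have htN : t * Nb ≤ 1 := by
    rw [ht, one_div_mul_eq_div, div_le_one hspos]; exact hsNb
  have h1t : 1 / t = s := by rw [ht, one_div_one_div]
  have hexpo : -1 / (t * Cb) = -(s : ℝ) / Cb := by
    rw [ht]; field_simp
  obtain ⟨hsum, hZle⟩ := gg_summable a hn h18 r M hM C B h17' t ht0 ht1
  obtain ⟨hsum2, -⟩ := gg_summable a hn h18 r M hM C B h17' (t / 2) (by positivity) (by linarith)
  have hsq := (h17' t ht0 ht1).1
  -- closeness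
  set δ : ℝ := Real.exp (-(s : ℝ) / Cb) with hδ
  have hδ0 : 0 < δ := Real.exp_pos _
  have h16δ : 16 * δ ≤ 1 := by
    have := hs₂ s hss2
    simpa using this
  have hE : (1 + 16 * Real.exp (-1 / (t * Cb))) ^ mm - 1 ≤ 3 ^ mm * (16 * δ) := by
    rw [hexpo, ← hδ]
    have := pow_one_add_le (16 * δ) (by positivity) h16δ mm
    linarith
  have hclose : ∀ i j c, |fs i (gg a r t) c - fs j (gg a r t) c| ≤
      2 * (3 ^ mm * (16 * δ)) * (C * (n / t) ^ B) ^ n * Real.exp (-t * qq K c) := by
    intro i j c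
    refine (fs_close a h14 h15 r M hM t ht0 hsum hsum2 hsq m mm hmm b
      (fun i l => ⟨(hb i l).1, (hb i l).2.1, hrinj _ (hb i l).2.1 (hb i l).2.2⟩) Cb hCb hbC htC
      hspan hsurj i j c).trans ?_
    apply mul_le_mul_of_nonneg_right _ (Real.exp_pos _).le
    have hZ0 : 0 ≤ ∑' x, gg a r t x := tsum_nonneg (fun x => gg_nonneg a r t x)
    apply mul_le_mul _ hZle hZ0 (by positivity)
    linarith
  -- tail
  have hWsum : Summable (fun x => ∑ i, (1 + nu K (x i)) ^ A * gg a r t x) :=
    summable_sum (fun i _ => gg_weight a r M hM A t ht0 ht1 hsum2 i)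
  have hW0 : ∀ x, 0 ≤ ∑ i, (1 + nu K (x i)) ^ A * gg a r t x := fun x =>
    Finset.sum_nonneg (fun i _ => mul_nonneg
      (pow_nonneg (by have := nu_nonneg (x i); linarith) _) (gg_nonneg a r t x))
  have htail := tendsto_tsum_compl_atTop_zero
    (fun x : Fin n → 𝓞 K => ∑ i, (1 + nu K (x i)) ^ A * gg a r t x)
  obtain ⟨s0, hs0, hs0t⟩ := ((Filter.eventually_ge_atTop (insert 0 hballfin.toFinset)).and
    (htail.eventually_le_const (show (0 : ℝ) < η / (4 * n * Real.exp 1) by positivity))).exists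
  have h0s : (0 : Fin n → 𝓞 K) ∈ s0 := hs0 (Finset.mem_insert_self _ _)
  -- the measure
  set μ : (Fin n → 𝓞 K) →₀ ℝ := Finsupp.onFinset s0
    (fun x => if x ∈ s0 ∧ x ≠ 0 then Real.exp 1 * gg a r t x else 0) (by
      intro x hx
      by_contra h
      apply hx
      rw [if_neg]
      rintro ⟨h1, -⟩
      exact h h1) with hμ
  have hμx : ∀ x, μ x = if x ∈ s0 ∧ x ≠ 0 then Real.exp 1 * gg a r t x else 0 := fun x => rfl
  set g' : (Fin n → 𝓞 K) → ℝ := fun x => if x ∈ s0 then 0 else gg a r t x with hg'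
  have hg'0 : ∀ x, 0 ≤ g' x := by
    intro x; simp only [hg']; split_ifs
    · exact le_rfl
    · exact gg_nonneg a r t x
  have hg'le : ∀ x, g' x ≤ gg a r t x := by
    intro x; simp only [hg']; split_ifs
    · exact gg_nonneg a r t x
    · exact le_rfl
  have hg's : Summable g' := Summable.of_nonneg_of_le hg'0 hg'le hsum
  have hdecomp : ∀ x, Real.exp 1 * gg a r t x =
      (μ x + Set.indicator {(0 : Fin n → 𝓞 K)} (fun _ => Real.exp 1) x) + Real.exp 1 * g' x := by
    intro x
    rw [hμx, Set.indicator_apply]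
    simp only [hg', Set.mem_singleton_iff]
    by_cases hx0 : x = 0
    · subst hx0
      have : gg a r t 0 = 1 := by
        unfold gg; simp
      simp [h0s, this]
    · by_cases hxs : x ∈ s0
      · simp [hx0, hxs]
      · simp [hx0, hxs]
  have hfs : ∀ i c, Real.exp 1 * fs i (gg a r t) c =
      (marg i μ c + Set.indicator {(0 : 𝓞 K)} (fun _ => Real.exp 1) c) +
        Real.exp 1 * fs i g' c := by
    intro i c
    have e1 : fs i (fun x => Real.exp 1 * gg a r t x) c = Real.exp 1 * fs i (gg a r t) c := by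
      unfold fs; rw [tsum_mul_left]
    have e2 : fs i (fun x => Real.exp 1 * g' x) c = Real.exp 1 * fs i g' c := by
      unfold fs; rw [tsum_mul_left]
    have hμs : Summable (fun x => μ x) := summable_of_finite_support μ.finite_support
    have hind : Summable (fun x => Set.indicator {(0 : Fin n → 𝓞 K)} (fun _ => Real.exp 1) x) :=
      summable_of_finite_support (Set.Finite.subset (Set.finite_singleton (0 : Fin n → 𝓞 K))
        (by intro x hx; rw [Function.mem_support] at hx; exact Set.mem_of_indicator_ne_zero hx))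
    rw [← e1, ← e2, marg_eq_fs, ← fs_delta i (Real.exp 1) c, ← fs_add i _ _ hμs hind,
      ← fs_add i _ _ (hμs.add hind) (hg's.mul_left _)]
    unfold fs
    exact tsum_congr (fun x => hdecomp x)
  refine ⟨μ, ?_, ?_, ?_, ?_⟩
  · intro x
    rw [hμx]
    split_ifs
    · exact mul_nonneg hκ.le (gg_nonneg a r t x)
    · exact le_rfl
  · intro x hx
    rw [Finsupp.mem_support_iff, hμx] at hx
    by_cases h : x ∈ s0 ∧ x ≠ 0
    · refine ⟨h.2, ?_⟩
      rw [if_pos h] at hx
      by_contra hr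
      apply hx
      rw [gg, if_neg hr, mul_zero]
    · rw [if_neg h] at hx
      exact absurd rfl hx
  · intro x hx0 hrx hxC
    have hxb : x ∈ hballfin.toFinset := by
      rw [Set.Finite.mem_toFinset]; exact hxC
    have hxs : x ∈ s0 := hs0 (Finset.mem_insert_of_mem hxb)
    rw [hμx, if_pos ⟨hxs, hx0⟩, gg, if_pos hrx, ← Real.exp_add]
    apply Real.one_le_exp
    have h1 := hNb x hxb
    have h2 : t * ‖r x‖ ^ 2 ≤ 1 := (mul_le_mul_of_nonneg_left h1 ht0.le).trans htN
    linarith
  · intro T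
    have hdiff : ∀ i j c, |marg i μ c - marg j μ c| ≤
        Real.exp 1 * (2 * (3 ^ mm * (16 * δ)) * (C * (n / t) ^ B) ^ n * Real.exp (-t * qq K c)) +
          (Real.exp 1 * fs i g' c + Real.exp 1 * fs j g' c) := by
      intro i j c
      have e : marg i μ c - marg j μ c =
          Real.exp 1 * (fs i (gg a r t) c - fs j (gg a r t) c)
            - Real.exp 1 * fs i g' c + Real.exp 1 * fs j g' c := by
        have h1 := hfs i c
        have h2 := hfs j c
        linarith
      rw [e]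
      have h3 := hclose i j c
      have h4 := mul_nonneg hκ.le (fs_nonneg i g' hg'0 c)
      have h5 := mul_nonneg hκ.le (fs_nonneg j g' hg'0 c)
      have h6 : |Real.exp 1 * (fs i (gg a r t) c - fs j (gg a r t) c)| ≤
          Real.exp 1 * (2 * (3 ^ mm * (16 * δ)) * (C * (n / t) ^ B) ^ n *
            Real.exp (-t * qq K c)) := by
        rw [abs_mul, abs_of_pos hκ]
        exact mul_le_mul_of_nonneg_left h3 hκ.le
      rw [abs_le] at h6 ⊢
      constructor <;> linarith [h6.1, h6.2]
    set Y : ℝ := 2 * (3 ^ mm * (16 * δ)) * (C * (n / t) ^ B) ^ n with hY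
    have hY0 : 0 ≤ Y := by positivity
    have hstep : ∑ c ∈ T, (1 + nu K c) ^ A * ∑ i, ∑ j, |marg i μ c - marg j μ c| ≤
        ∑ c ∈ T, (Real.exp 1 * (n * (n * Y)) * ((1 + nu K c) ^ A * Real.exp (-t * qq K c)) +
          2 * n * Real.exp 1 * ∑ i, (1 + nu K c) ^ A * fs i g' c) := by
      apply Finset.sum_le_sum
      intro c _
      have hw : 0 ≤ (1 + nu K c) ^ A := pow_nonneg (by have := nu_nonneg c; linarith) _
      have h1 : ∑ i, ∑ j, |marg i μ c - marg j μ c| ≤
          ∑ i : Fin n, ∑ j : Fin n, (Real.exp 1 * (Y * Real.exp (-t * qq K c)) +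
            (Real.exp 1 * fs i g' c + Real.exp 1 * fs j g' c)) :=
        Finset.sum_le_sum (fun i _ => Finset.sum_le_sum (fun j _ => hdiff i j c))
      have h2 : ∑ i : Fin n, ∑ j : Fin n, (Real.exp 1 * (Y * Real.exp (-t * qq K c)) +
            (Real.exp 1 * fs i g' c + Real.exp 1 * fs j g' c)) =
          Real.exp 1 * (n * (n * Y)) * Real.exp (-t * qq K c) +
            2 * n * Real.exp 1 * ∑ i, fs i g' c := by
        simp only [Finset.sum_add_distrib, Finset.sum_const, Finset.card_univ, Fintype.card_fin,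
          nsmul_eq_mul, ← Finset.mul_sum]
        ring
      rw [h2] at h1
      calc (1 + nu K c) ^ A * ∑ i, ∑ j, |marg i μ c - marg j μ c|
          ≤ (1 + nu K c) ^ A * (Real.exp 1 * (n * (n * Y)) * Real.exp (-t * qq K c) +
            2 * n * Real.exp 1 * ∑ i, fs i g' c) := mul_le_mul_of_nonneg_left h1 hw
        _ = _ := by
          rw [← Finset.mul_sum]; ring
    refine hstep.trans ?_
    rw [Finset.sum_add_distrib, ← Finset.mul_sum, ← Finset.mul_sum]
    have hmain : Real.exp 1 * (n * (n * Y)) *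
        ∑ c ∈ T, (1 + nu K c) ^ A * Real.exp (-t * qq K c) ≤ η / 2 := by
      have h1 := weight_sum A C B h17' t ht0 ht1 T
      have h2 := hs₁ s hss1
      refine (mul_le_mul_of_nonneg_left h1 (by positivity)).trans (le_trans (le_of_eq ?_) h2)
      rw [hY, hCst, ← hδ]
      have e1 : (n : ℝ) / t = n * s := by rw [ht]; field_simp
      have e2 : (2 : ℝ) / t = 2 * s := by rw [ht]; field_simp
      rw [e1, e2, h1t]
      simp only [mul_pow, pow_add, pow_mul]
      ring
    have htl : 2 * n * Real.exp 1 * ∑ c ∈ T, ∑ i, (1 + nu K c) ^ A * fs i g' c ≤ η / 2 := by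
      have h1 : ∑ c ∈ T, ∑ i, (1 + nu K c) ^ A * fs i g' c ≤
          ∑' x : {x : Fin n → 𝓞 K // x ∉ s0}, ∑ i, (1 + nu K ((x : Fin n → 𝓞 K) i)) ^ A *
            gg a r t x := by
        rw [Finset.sum_comm]
        have hsi : ∀ i, Summable (fun x => (1 + nu K (x i)) ^ A * g' x) := by
          intro i
          refine Summable.of_nonneg_of_le (fun x => mul_nonneg
            (pow_nonneg (by have := nu_nonneg (x i); linarith) _) (hg'0 x)) ?_
            (gg_weight a r M hM A t ht0 ht1 hsum2 i)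
          intro x
          exact mul_le_mul_of_nonneg_left (hg'le x)
            (pow_nonneg (by have := nu_nonneg (x i); linarith) _)
        have h2 : ∑ i, ∑ c ∈ T, (1 + nu K c) ^ A * fs i g' c ≤
            ∑ i, ∑' x, (1 + nu K (x i)) ^ A * g' x := by
          apply Finset.sum_le_sum
          intro i _
          exact fs_weight_sum_le i g' hg'0 (fun c => (1 + nu K c) ^ A)
            (fun c => pow_nonneg (by have := nu_nonneg c; linarith) _) (hsi i) T
        refine h2.trans (le_of_eq ?_)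
        rw [← Summable.tsum_finsetSum (fun i _ => hsi i)]
        have h3 := tsum_subtype {x : Fin n → 𝓞 K | x ∉ s0}
          (fun x => ∑ i, (1 + nu K (x i)) ^ A * gg a r t x)
        refine Eq.trans ?_ h3.symm
        apply tsum_congr
        intro x
        rw [Set.indicator_apply]
        simp only [hg', Set.mem_ofPred_eq]
        by_cases hx : x ∈ s0
        · simp [hx]
        · simp [hx]
      have h4 := h1.trans hs0t
      calc 2 * n * Real.exp 1 * ∑ c ∈ T, ∑ i, (1 + nu K c) ^ A * fs i g' c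
          ≤ 2 * n * Real.exp 1 * (η / (4 * n * Real.exp 1)) :=
            mul_le_mul_of_nonneg_left h4 (by positivity)
        _ = η / 2 := by
          field_simp; ring
    linarith

end Pool.Agent.H961R3.Smyth
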