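import Mathlib
import Pool.Agent.H961R3.Smyth.Stmts2

open scoped NumberField ComplexConjugate

/-! Task S11: the transport property for number fields. -/

namespace Pool.Agent.H961R3.Smyth

namespace T11

theorem exists_theta {ι : Type} [Finite ι] (f : ι → ℝ) (hf : ∀ i, f i < 1) :
    ∃ θ : ℝ, 0 ≤ θ ∧ θ < 1 ∧ ∀ i, f i ≤ θ := by
  rcases isEmpty_or_nonempty ι with h | h
  · exact ⟨0, le_refl _, one_pos, fun i => (h.false i).elim⟩
  · obtain ⟨i0, hi0⟩ := Finite.exists_max f
    exact ⟨max (f i0) 0, le_max_right _ _, max_lt (hf i0) one_pos,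
      fun i => (hi0 i).trans (le_max_left _ _)⟩

variable {K : Type} [Field K] [NumberField K] {n : ℕ}

/-- sum of the absolute values of the other coefficients -/
noncomputable def SS (a : Fin n → 𝓞 K) (i : Fin n) (σ : K →+* ℂ) : ℝ :=
  ∑ j ∈ Finset.univ.erase i, ‖σ (a j : K)‖

/-- the real solution with prescribed coordinate -/
noncomputable def yy (a : Fin n → 𝓞 K) (i : Fin n) (c : 𝓞 K) (j : Fin n) (σ : K →+* ℂ) : ℂ :=
  if j = i then σ (c : K)
  else -(σ (c : K) * σ (a i : K) * conj (σ (a j : K)) / ((‖σ (a j : K)‖ : ℂ) * (SS a i σ : ℂ)))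

theorem SS_pos (a : Fin n → 𝓞 K) (hA : StrongArch K n a) (i : Fin n) (σ : K →+* ℂ) :
    ‖σ (a i : K)‖ < SS a i σ := by
  have h := hA (NumberField.InfinitePlace.mk σ) i
  simpa [SS, NumberField.InfinitePlace.apply] using h

theorem yy_rel (a : Fin n → 𝓞 K) (hA : StrongArch K n a) (i : Fin n) (c : 𝓞 K) (σ : K →+* ℂ) :
    ∑ j, σ (a j : K) * yy a i c j σ = 0 := by
  have hpos : 0 < SS a i σ := lt_of_le_of_lt (norm_nonneg _) (SS_pos a hA i σ)
  have hne : (SS a i σ : ℂ) ≠ 0 := by exact_mod_cast hpos.ne'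
  rw [← Finset.add_sum_erase _ _ (Finset.mem_univ i)]
  have h1 : ∀ j ∈ Finset.univ.erase i, σ (a j : K) * yy a i c j σ =
      -(σ (c : K) * σ (a i : K) / (SS a i σ : ℂ)) * (‖σ (a j : K)‖ : ℂ) := by
    intro j hj
    have hji : j ≠ i := Finset.ne_of_mem_erase hj
    simp only [yy, if_neg hji]
    by_cases h0 : σ (a j : K) = 0
    · simp [h0]
    · have h2 : (‖σ (a j : K)‖ : ℂ) ≠ 0 := by exact_mod_cast (norm_pos_iff.2 h0).ne'
      have h3 : σ (a j : K) * conj (σ (a j : K)) = (‖σ (a j : K)‖ : ℂ) ^ 2 := by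
        rw [Complex.mul_conj, Complex.normSq_eq_norm_sq]; push_cast; rfl
      field_simp
      linear_combination (-(σ (c : K) * σ (a i : K))) * h3
  rw [Finset.sum_congr rfl h1, ← Finset.mul_sum]
  have h4 : ∑ j ∈ Finset.univ.erase i, (‖σ (a j : K)‖ : ℂ) = (SS a i σ : ℂ) := by
    simp [SS]
  rw [h4]
  simp only [yy, if_true]
  field_simp
  ring

omit [NumberField K] in
theorem yy_conj (a : Fin n → 𝓞 K) (i : Fin n) (c : 𝓞 K) (j : Fin n) (σ : K →+* ℂ) :
    yy a i c j (NumberField.ComplexEmbedding.conjugate σ) = conj (yy a i c j σ) := by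
  have hS : SS a i (NumberField.ComplexEmbedding.conjugate σ) = SS a i σ := by
    simp [SS, NumberField.ComplexEmbedding.conjugate_coe_eq]
  by_cases h : j = i
  · simp [yy, h, NumberField.ComplexEmbedding.conjugate_coe_eq]
  · simp only [yy, if_neg h, hS]
    simp [NumberField.ComplexEmbedding.conjugate_coe_eq]

theorem yy_norm (a : Fin n → 𝓞 K) (hA : StrongArch K n a) (i : Fin n) (c : 𝓞 K) (j : Fin n)
    (hj : j ≠ i) (σ : K →+* ℂ) :
    ‖yy a i c j σ‖ ≤ ‖σ (a i : K)‖ / SS a i σ * ‖σ (c : K)‖ := by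
  have hpos : 0 < SS a i σ := lt_of_le_of_lt (norm_nonneg _) (SS_pos a hA i σ)
  simp only [yy, if_neg hj, norm_neg, norm_div, norm_mul, Complex.norm_conj, Complex.norm_real,
    Real.norm_eq_abs, abs_of_pos hpos, abs_norm]
  by_cases h0 : ‖σ (a j : K)‖ = 0
  · rw [h0]; simp; positivity
  · apply le_of_eq
    field_simp

end T11

open T11 in
theorem s11 : S11 := by
  intro h10 K _ _ n a hn hA hS
  choose m x hx hz using fun i => h10 K n a i hA
  obtain ⟨θ, hθ0, hθ1, hθ⟩ := exists_theta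
    (fun p : Fin n × (K →+* ℂ) => ‖p.2 (a p.1 : K)‖ / SS a p.1 p.2) (by
      intro p
      exact (div_lt_one (lt_of_le_of_lt (norm_nonneg _) (SS_pos a hA p.1 p.2))).2
        (SS_pos a hA p.1 p.2))
  set C : ℝ := ∑ i, ∑ l, ∑ j, nu K (x i l j) with hC
  have hnu : ∀ c : 𝓞 K, 0 ≤ nu K c := fun c => norm_nonneg _
  have hC0 : 0 ≤ C := Finset.sum_nonneg fun i _ => Finset.sum_nonneg fun l _ =>
    Finset.sum_nonneg fun j _ => hnu _
  refine ⟨max 1 (2 * C / (1 - θ)), (1 + θ) / 2, le_max_left _ _, by linarith, by linarith, ?_⟩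
  intro i c hc
  obtain ⟨xc, hxc, hxr⟩ := hS i c
  obtain ⟨t, ht⟩ := hz i (fun j σ => yy a i c j σ - emb K (xc j) σ)
    (by
      intro j σ
      simp only [yy_conj, map_sub]
      simp [emb, NumberField.ComplexEmbedding.conjugate_coe_eq])
    (by
      funext σ
      simp [yy, emb, hxc])
    (by
      intro σ
      have h1 : ∑ j, σ (a j : K) * emb K (xc j) σ = 0 := by
        have h2 : σ ((∑ j, a j * xc j : 𝓞 K) : K) = 0 := by rw [hxr]; simp
        rw [← h2]
        simp [emb]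
      simp only [mul_sub, Finset.sum_sub_distrib, yy_rel a hA i c σ, h1, sub_zero])
  refine ⟨fun j => xc j + ∑ l, (⌊t l⌋ : 𝓞 K) * x i l j, ?_, ?_, ?_⟩
  · have : ∀ l, x i l i = 0 := fun l => (hx i l).1
    simp [this, hxc]
  · have h1 : ∀ l, ∑ j, a j * x i l j = 0 := fun l => (hx i l).2.1
    calc ∑ j, a j * (xc j + ∑ l, (⌊t l⌋ : 𝓞 K) * x i l j)
        = ∑ j, a j * xc j + ∑ l, (⌊t l⌋ : 𝓞 K) * ∑ j, a j * x i l j := by
          simp only [mul_add, Finset.sum_add_distrib, Finset.mul_sum]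
          congr 1
          rw [Finset.sum_comm]
          refine Finset.sum_congr rfl fun l _ => Finset.sum_congr rfl fun j _ => ?_
          ring
      _ = 0 := by simp [h1, hxr]
  · intro j hj
    have h1 : ∀ σ : K →+* ℂ, emb K (xc j + ∑ l, (⌊t l⌋ : 𝓞 K) * x i l j) σ =
        yy a i c j σ - ∑ l, ((Int.fract (t l) : ℝ) : ℂ) * emb K (x i l j) σ := by
      intro σ
      have h2 := ht j σ
      have h3 : emb K (xc j + ∑ l, (⌊t l⌋ : 𝓞 K) * x i l j) σ =
          emb K (xc j) σ + ∑ l, ((⌊t l⌋ : ℤ) : ℂ) * emb K (x i l j) σ := by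
        simp [emb]
      rw [h3]
      have h4 : ∑ l, ((Int.fract (t l) : ℝ) : ℂ) * emb K (x i l j) σ =
          ∑ l, (t l : ℂ) * emb K (x i l j) σ - ∑ l, ((⌊t l⌋ : ℤ) : ℂ) * emb K (x i l j) σ := by
        rw [← Finset.sum_sub_distrib]
        refine Finset.sum_congr rfl fun l _ => ?_
        rw [Int.fract]
        push_cast
        ring
      rw [h4, ← h2]
      ring
    have h50 : 0 ≤ θ * nu K c + C := add_nonneg (mul_nonneg hθ0 (hnu c)) hC0
    have h5 : nu K (xc j + ∑ l, (⌊t l⌋ : 𝓞 K) * x i l j) ≤ θ * nu K c + C := by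
      refine (pi_norm_le_iff_of_nonneg h50).2 fun σ => ?_
      rw [h1 σ]
      refine (norm_sub_le _ _).trans (add_le_add ?_ ?_)
      · refine (yy_norm a hA i c j hj σ).trans ?_
        refine mul_le_mul (hθ (i, σ)) ?_ (norm_nonneg _) hθ0
        exact norm_le_pi_norm (emb K c) σ
      · refine (norm_sum_le _ _).trans ?_
        have h6 : ∀ l ∈ (Finset.univ : Finset (Fin (m i))),
            ‖((Int.fract (t l) : ℝ) : ℂ) * emb K (x i l j) σ‖ ≤ ∑ j', nu K (x i l j') := by
          intro l _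
          rw [norm_mul, Complex.norm_real, Real.norm_eq_abs, abs_of_nonneg (Int.fract_nonneg _)]
          calc Int.fract (t l) * ‖emb K (x i l j) σ‖ ≤ 1 * nu K (x i l j) :=
                mul_le_mul (Int.fract_lt_one _).le (norm_le_pi_norm (emb K (x i l j)) σ)
                  (norm_nonneg _) zero_le_one
            _ = nu K (x i l j) := one_mul _
            _ ≤ ∑ j', nu K (x i l j') :=
                Finset.single_le_sum (f := fun j' => nu K (x i l j')) (fun _ _ => hnu _)
                  (Finset.mem_univ j)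
        refine (Finset.sum_le_sum h6).trans ?_
        exact Finset.single_le_sum (f := fun i => ∑ l, ∑ j', nu K (x i l j'))
          (fun i _ => Finset.sum_nonneg fun l _ => Finset.sum_nonneg fun j _ => hnu _)
          (Finset.mem_univ i)
    have h7 : 2 * C / (1 - θ) < nu K c := (le_max_right _ _).trans_lt hc
    have h8 : 2 * C < nu K c * (1 - θ) := (div_lt_iff₀ (by linarith)).1 h7
    refine h5.trans ?_
    linarith

end Pool.Agent.H961R3.Smyth
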