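import Mathlib
import Pool.Agent.H961R3.Smyth.Stmts3

open Real

namespace Pool.Agent.H961R3.Smyth.S14aux

/-- geometric sums over the integers without the zero term -/
noncomputable def gg (c : ℝ) (n : ℤ) : ℝ := if n = 0 then 0 else Real.exp (-c * |(n:ℝ)|)

lemma gg_hasSum {c : ℝ} (hc : 0 < c) :
    HasSum (gg c) (2 * (Real.exp (-c) / (1 - Real.exp (-c)))) := by
  set r := Real.exp (-c) with hr
  have hr0 : 0 < r := Real.exp_pos _
  have hr1 : r < 1 := by rw [hr]; exact Real.exp_lt_one_iff.2 (by linarith)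
  have hg : HasSum (fun n : ℕ => r ^ (n+1)) (r / (1 - r)) := by
    have h := (hasSum_geometric_of_lt_one hr0.le hr1).mul_left r
    have e : (fun n : ℕ => r ^ (n+1)) = fun n : ℕ => r * r ^ n := by
      funext n; rw [pow_succ]; ring
    rw [e]
    simpa [div_eq_mul_inv] using h
  have hpos : ∀ n : ℕ, Real.exp (-c * ((n:ℝ)+1)) = r ^ (n+1) := by
    intro n
    rw [hr, ← Real.exp_nat_mul]
    congr 1
    push_cast; ring
  have h1 : HasSum (fun n : ℕ => gg c (n:ℤ)) (r / (1 - r)) := by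
    rw [← hasSum_nat_add_iff' 1]
    simp only [Finset.sum_range_one]
    have e0 : gg c ((0:ℕ):ℤ) = 0 := by simp [gg]
    rw [e0, sub_zero]
    have e : (fun n : ℕ => gg c ((n + 1 : ℕ):ℤ)) = fun n : ℕ => r ^ (n+1) := by
      funext n
      have : ((n + 1 : ℕ):ℤ) ≠ 0 := by positivity
      simp only [gg, this, if_false]
      rw [← hpos n]
      congr 2
      push_cast
      rw [abs_of_nonneg (by positivity)]
    rw [e]; exact hg
  have h2 : HasSum (fun n : ℕ => gg c (-((n:ℤ) + 1))) (r / (1 - r)) := by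
    have e : (fun n : ℕ => gg c (-((n:ℤ) + 1))) = fun n : ℕ => r ^ (n+1) := by
      funext n
      have : (-((n:ℤ) + 1)) ≠ 0 := by omega
      simp only [gg, this, if_false]
      rw [← hpos n]
      congr 2
      push_cast
      rw [show (-((n:ℝ)+1)) = -((n:ℝ)+1) from rfl, abs_neg, abs_of_nonneg (by positivity)]
    rw [e]; exact hg
  have h3 := HasSum.of_nat_of_neg_add_one h1 h2
  rw [two_mul]; exact h3

lemma exp_bound {c : ℝ} (hc : 0 < c) (n : ℤ) (hn : n ≠ 0) :
    Real.exp (-c * (n:ℝ)^2) ≤ gg c n := by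
  simp only [gg, hn, if_false]
  apply Real.exp_le_exp.2
  have h1 : (1:ℝ) ≤ |(n:ℝ)| := by
    have : (1:ℤ) ≤ |n| := Int.one_le_abs hn
    exact_mod_cast this
  have h2 : |(n:ℝ)| ≤ (n:ℝ)^2 := by
    rw [← sq_abs]; nlinarith
  nlinarith

lemma summable_gauss {α : ℝ} (hα : 0 < α) (u : ℝ) :
    Summable fun j : ℤ => Real.exp (-α * ((j : ℝ) + u) ^ 2) := by
  have h1 : Summable fun j : ℤ => Real.exp (α * u^2) * (gg (α/2) j + if j = 0 then 1 else 0) := by
    apply Summable.mul_left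
    apply Summable.add (gg_hasSum (by positivity)).summable
    exact (hasSum_ite_eq (0:ℤ) (1:ℝ)).summable
  refine Summable.of_nonneg_of_le (fun j => (Real.exp_pos _).le) (fun j => ?_) h1
  by_cases hj : j = 0
  · subst hj
    simp only [gg, if_true, zero_add, mul_one, Int.cast_zero]
    apply Real.exp_le_exp.2
    nlinarith [sq_nonneg u]
  · have h2 := exp_bound (c := α/2) (by positivity) j hj
    simp only [hj, if_false, add_zero]
    calc Real.exp (-α * ((j : ℝ) + u) ^ 2) ≤ Real.exp (α * u^2 + (-(α/2) * (j:ℝ)^2)) := by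
          apply Real.exp_le_exp.2
          nlinarith [sq_nonneg ((j:ℝ) + 2 * u)]
      _ = Real.exp (α * u^2) * Real.exp (-(α/2) * (j:ℝ)^2) := by rw [Real.exp_add]
      _ ≤ _ := by gcongr

/-- the dual sum -/
noncomputable def LL (c u : ℝ) : ℂ :=
  ∑' n : ℤ, Complex.exp (-(c:ℂ) * (n:ℂ)^2 - 2 * π * Complex.I * u * n)

lemma norm_term (c u : ℝ) (n : ℤ) :
    ‖Complex.exp (-(c:ℂ) * (n:ℂ)^2 - 2 * π * Complex.I * u * n)‖ = Real.exp (-c * (n:ℝ)^2) := by
  rw [Complex.norm_exp]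
  congr 1
  have : (-(c:ℂ) * (n:ℂ)^2 - 2 * π * Complex.I * u * n) =
      ((-c * (n:ℝ)^2 : ℝ) : ℂ) + ((-(2 * π * u * n) : ℝ) : ℂ) * Complex.I := by
    push_cast; ring
  rw [this, Complex.add_re, Complex.re_ofReal_mul, Complex.ofReal_re, Complex.I_re, mul_zero,
    add_zero]

lemma LL_near {c : ℝ} (hc : 0 < c) (u : ℝ) :
    ‖LL c u - 1‖ ≤ 2 * (Real.exp (-c) / (1 - Real.exp (-c))) := by
  have hs := gg_hasSum hc
  -- the function without the zero term
  set f : ℤ → ℂ := fun n => Complex.exp (-(c:ℂ) * (n:ℂ)^2 - 2 * π * Complex.I * u * n) with hf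
  set h : ℤ → ℂ := fun n => if n = 0 then 0 else f n with hh
  have hb : ∀ n, ‖h n‖ ≤ gg c n := by
    intro n
    by_cases hn : n = 0
    · simp [hh, hn, gg]
    · simp only [hh, hn, if_false, hf]
      rw [norm_term]
      exact exp_bound hc n hn
  have hsum : Summable h := Summable.of_norm_bounded hs.summable hb
  have hf' : ∀ n, f n = h n + if n = 0 then 1 else 0 := by
    intro n
    by_cases hn : n = 0
    · simp [hh, hn, hf]
    · simp [hh, hn]
  have h1 : HasSum f ((∑' n, h n) + 1) := by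
    have e := hsum.hasSum.add (hasSum_ite_eq (0:ℤ) (1:ℂ))
    have e2 : f = fun n => h n + if n = 0 then 1 else 0 := funext hf'
    rw [e2]; exact e
  have h2 : LL c u = (∑' n, h n) + 1 := h1.tsum_eq
  rw [h2, add_sub_cancel_right]
  exact tsum_of_norm_bounded hs hb

lemma theta_eq {α : ℝ} (hα : 0 < α) (u : ℝ) :
    (((∑' j : ℤ, Real.exp (-α * ((j : ℝ) + u) ^ 2)) : ℝ) : ℂ) =
      ((π / α : ℝ) : ℂ) ^ (1 / 2 : ℂ) * LL (π ^ 2 / α) u := by
  have ha : 0 < (((π / α : ℝ) : ℂ)).re := by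
    rw [Complex.ofReal_re]; positivity
  have h := Complex.tsum_exp_neg_quadratic ha (-Complex.I * u)
  have hne : ((π / α : ℝ) : ℂ) ^ (1 / 2 : ℂ) ≠ 0 := by
    rw [Complex.cpow_def_of_ne_zero]
    · exact Complex.exp_ne_zero _
    · intro h0; rw [h0] at ha; simp at ha
  have hπ : (π : ℂ) ≠ 0 := by exact_mod_cast Real.pi_ne_zero
  have hα' : (α : ℂ) ≠ 0 := by exact_mod_cast hα.ne'
  have e1 : (∑' n : ℤ, Complex.exp (-π * ((π / α : ℝ) : ℂ) * n ^ 2 + 2 * π * (-Complex.I * u) * n))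
      = LL (π ^ 2 / α) u := by
    unfold LL
    apply tsum_congr
    intro n
    congr 1
    push_cast
    ring
  have e2 : (∑' n : ℤ, Complex.exp (-π / ((π / α : ℝ) : ℂ) * (n + Complex.I * (-Complex.I * u)) ^ 2))
      = (((∑' j : ℤ, Real.exp (-α * ((j : ℝ) + u) ^ 2)) : ℝ) : ℂ) := by
    rw [Complex.ofReal_tsum]
    apply tsum_congr
    intro n
    rw [Complex.ofReal_exp]
    congr 1
    have : Complex.I * (-Complex.I * u) = (u:ℂ) := by
      rw [← mul_assoc, mul_neg, Complex.I_mul_I]; simp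
    rw [this]
    push_cast
    field_simp
  rw [e1, e2] at h
  rw [h]
  field_simp

end Pool.Agent.H961R3.Smyth.S14aux

namespace Pool.Agent.H961R3.Smyth
open S14aux

theorem s14 : S14 := by
  intro α hα hα1
  refine ⟨summable_gauss hα, fun u u' => ?_⟩
  set θ := fun u : ℝ => ∑' j : ℤ, Real.exp (-α * ((j : ℝ) + u) ^ 2) with hθ
  set A := ‖((π / α : ℝ) : ℂ) ^ (1 / 2 : ℂ)‖ with hA
  have hA0 : 0 ≤ A := norm_nonneg _
  have hθ0 : ∀ u, 0 ≤ θ u := fun u => tsum_nonneg fun j => (Real.exp_pos _).le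
  set c := π ^ 2 / α with hc
  have hπ3 : 3 < π := Real.pi_gt_three
  have hc9 : 9 ≤ c := by
    rw [hc, le_div_iff₀ hα]; nlinarith
  have hcα : 1 / α ≤ c := by
    rw [hc, div_le_div_iff_of_pos_right hα]; nlinarith
  set δ := 2 * (Real.exp (-c) / (1 - Real.exp (-c))) with hδ
  have hn : ∀ u, θ u = A * ‖LL c u‖ := by
    intro u
    have h := theta_eq hα u
    have h2 : ‖((θ u : ℝ) : ℂ)‖ = A * ‖LL c u‖ := by
      rw [hθ]; simp only; rw [h, norm_mul]
    rw [Complex.norm_real, Real.norm_of_nonneg (hθ0 u)] at h2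
    exact h2
  have hnear : ∀ u, ‖LL c u - 1‖ ≤ δ := fun u => LL_near (by linarith) u
  have hup : ∀ u, ‖LL c u‖ ≤ 1 + δ := by
    intro u
    have h1 : ‖LL c u‖ ≤ ‖LL c u - 1‖ + ‖(1:ℂ)‖ := by
      simpa using norm_add_le (LL c u - 1) (1:ℂ)
    rw [norm_one] at h1
    linarith [hnear u]
  have hlo : ∀ u, 1 - δ ≤ ‖LL c u‖ := by
    intro u
    have h1 : ‖(1:ℂ)‖ ≤ ‖LL c u - 1‖ + ‖LL c u‖ := by
      have := norm_sub_le (LL c u) (LL c u - 1)
      have e : LL c u - (LL c u - 1) = 1 := by ring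
      rw [e] at this; linarith
    rw [norm_one] at h1
    linarith [hnear u]
  -- estimates of δ
  set E := Real.exp (-1 / α) with hE
  have hE0 : 0 < E := Real.exp_pos _
  have hec : Real.exp (-c) ≤ E := by
    apply Real.exp_le_exp.2
    rw [show -1/α = -(1/α) by ring]; linarith
  have hec8 : Real.exp (-c) ≤ 1/8 := by
    have h1 : Real.exp (-c) ≤ Real.exp (-9) := Real.exp_le_exp.2 (by linarith)
    have h2 : (8:ℝ) ≤ Real.exp 9 := by
      have := Real.add_one_le_exp (9:ℝ); linarith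
    have h3 : Real.exp (-9) ≤ 1/8 := by
      rw [Real.exp_neg, inv_eq_one_div]
      exact one_div_le_one_div_of_le (by norm_num) h2
    linarith
  have hec0 : 0 < Real.exp (-c) := Real.exp_pos _
  have hden : 0 < 1 - Real.exp (-c) := by linarith
  have hq : Real.exp (-c) / (1 - Real.exp (-c)) ≤ 2 * Real.exp (-c) := by
    rw [div_le_iff₀ hden]; nlinarith
  have hq0 : 0 ≤ Real.exp (-c) / (1 - Real.exp (-c)) := by positivity
  have hδ0 : 0 ≤ δ := by rw [hδ]; positivity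
  have hδE : δ ≤ 4 * E := by rw [hδ]; linarith
  have hδ2 : δ ≤ 1/2 := by rw [hδ]; linarith
  have key : 1 + δ ≤ (1 + 16 * E) * (1 - δ) := by
    nlinarith
  change θ u ≤ (1 + 16 * E) * θ u'
  rw [hn u, hn u']
  have h16 : 0 ≤ 1 + 16 * E := by positivity
  calc A * ‖LL c u‖ ≤ A * (1 + δ) := by gcongr; exact hup u
    _ ≤ A * ((1 + 16 * E) * (1 - δ)) := by gcongr
    _ ≤ A * ((1 + 16 * E) * ‖LL c u'‖) := by
        gcongr; exact hlo u'
    _ = (1 + 16 * E) * (A * ‖LL c u'‖) := by ring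

end Pool.Agent.H961R3.Smyth
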