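import Pool.Agent.H961R3.Smyth.Stmts3

open scoped NumberField ComplexConjugate

namespace Pool.Agent.H961R3.Smyth

theorem s17_sq_ge (k : ℤ) : |(k : ℝ)| ≤ (k : ℝ) ^ 2 := by
  rcases eq_or_ne k 0 with h | h
  · subst h; simp
  · have h1 : (1 : ℝ) ≤ |(k : ℝ)| := by
      have : (1 : ℤ) ≤ |k| := Int.one_le_abs h
      exact_mod_cast this
    have h2 : (k : ℝ) ^ 2 = |(k : ℝ)| * |(k : ℝ)| := by rw [← sq, sq_abs]
    rw [h2]
    nlinarith

theorem s17_geo (a : ℝ) (ha : 0 < a) (ha1 : a ≤ 1) :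
    (Summable fun k : ℤ => Real.exp (-a * (k : ℝ) ^ 2)) ∧
      (∑' k : ℤ, Real.exp (-a * (k : ℝ) ^ 2)) ≤ 4 / a := by
  set r : ℝ := Real.exp (-a) with hr
  have hr0 : 0 < r := Real.exp_pos _
  have hr1 : r < 1 := by rw [hr, ← Real.exp_zero]; exact Real.exp_lt_exp.mpr (by linarith)
  have hrb : a / 2 ≤ 1 - r := by
    have h1 : a + 1 ≤ Real.exp a := Real.add_one_le_exp a
    have h2 : r * Real.exp a = 1 := by rw [hr, ← Real.exp_add]; simp
    have h3 : r * (a + 1) ≤ 1 := by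
      calc r * (a + 1) ≤ r * Real.exp a := mul_le_mul_of_nonneg_left h1 hr0.le
        _ = 1 := h2
    nlinarith
  have hg := hasSum_geometric_of_lt_one hr0.le hr1
  have hf : HasSum (fun k : ℤ => Real.exp (-a * |(k : ℝ)|)) ((1 - r)⁻¹ + r * (1 - r)⁻¹) := by
    apply HasSum.of_nat_of_neg_add_one
    · convert hg using 1
      ext n
      rw [hr, ← Real.exp_nat_mul]
      congr 1
      push_cast
      rw [abs_of_nonneg (Nat.cast_nonneg n)]
      ring
    · have hfun : (fun n : ℕ => Real.exp (-a * |((-((n : ℤ) + 1) : ℤ) : ℝ)|)) =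
          fun n : ℕ => r * r ^ n := by
        ext n
        rw [hr, ← Real.exp_nat_mul, ← Real.exp_add]
        congr 1
        push_cast
        rw [abs_neg, abs_of_nonneg (by positivity)]
        ring
      rw [hfun]
      exact hg.mul_left r
  have hle : ∀ k : ℤ, Real.exp (-a * (k : ℝ) ^ 2) ≤ Real.exp (-a * |(k : ℝ)|) := by
    intro k
    apply Real.exp_le_exp.mpr
    have := s17_sq_ge k
    nlinarith
  have hs : Summable fun k : ℤ => Real.exp (-a * (k : ℝ) ^ 2) :=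
    Summable.of_nonneg_of_le (fun _ => (Real.exp_pos _).le) hle hf.summable
  refine ⟨hs, ?_⟩
  calc (∑' k : ℤ, Real.exp (-a * (k : ℝ) ^ 2)) ≤ ∑' k : ℤ, Real.exp (-a * |(k : ℝ)|) :=
        hs.tsum_le_tsum hle hf.summable
    _ = (1 - r)⁻¹ + r * (1 - r)⁻¹ := hf.tsum_eq
    _ = (1 + r) / (1 - r) := by ring
    _ ≤ 2 / (a / 2) := by
        apply div_le_div₀ (by norm_num) (by linarith) (by positivity) hrb
    _ = 4 / a := by field_simp; norm_num

theorem s17_prod (R : Type) (g : R → ℝ) (h0 : ∀ c, 0 ≤ g c) (hg : Summable g) : ∀ n : ℕ,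
    HasSum (fun x : Fin n → R => ∏ j, g (x j)) ((∑' c, g c) ^ n) := by
  intro n
  induction n with
  | zero =>
    have := hasSum_fintype (fun x : Fin 0 → R => ∏ j, g (x j))
    simp at this ⊢
  | succ n ih =>
    have h1 : HasSum (fun p : R × (Fin n → R) => g p.1 * ∏ j, g (p.2 j))
        ((∑' c, g c) * (∑' c, g c) ^ n) := by
      apply HasSum.mul hg.hasSum ih
      apply Summable.mul_of_nonneg hg ih.summable h0
      intro x
      exact Finset.prod_nonneg fun j _ => h0 _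
    rw [pow_succ']
    have h2 := (Fin.consEquiv (fun _ : Fin (n + 1) => R)).hasSum_iff
      (f := fun x : Fin (n + 1) → R => ∏ j, g (x j)) (a := (∑' c, g c) * (∑' c, g c) ^ n)
    rw [← h2]
    convert h1 using 1
    ext p
    simp [Fin.prod_univ_succ, Fin.consEquiv]

/-- bounded coordinates -/
theorem s17_coord (K : Type) [Field K] [NumberField K] (i : Module.Free.ChooseBasisIndex ℤ (𝓞 K)) :
    ∃ C : ℝ, 0 ≤ C ∧ ∀ c : 𝓞 K, (((NumberField.RingOfIntegers.basis K).repr c i : ℤ) : ℝ) ^ 2 ≤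
      C * qq K c := by
  set L : ((K →+* ℂ) → ℂ) →ₗ[ℂ] ℂ := (NumberField.canonicalEmbedding.latticeBasis K).coord i with hL
  set L' := LinearMap.toContinuousLinearMap L with hL'
  refine ⟨‖L'‖ ^ 2, by positivity, ?_⟩
  intro c
  set v : (K →+* ℂ) → ℂ := NumberField.canonicalEmbedding K (c : K) with hv
  have h1 : L v = (((NumberField.RingOfIntegers.basis K).repr c i : ℤ) : ℂ) := by
    rw [hL, Module.Basis.coord_apply, hv, NumberField.canonicalEmbedding.integralBasis_repr_apply]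
    have := NumberField.integralBasis_repr_apply K c i
    rw [show ((c : K)) = algebraMap (𝓞 K) K c from rfl, this]
    simp
  have h2 : ‖L v‖ ≤ ‖L'‖ * ‖v‖ := L'.le_opNorm v
  have h3 : ‖v‖ ^ 2 ≤ qq K c := by
    have hq0 : 0 ≤ qq K c := by
      unfold qq; positivity
    have h4 : ‖v‖ ≤ Real.sqrt (qq K c) := by
      rw [pi_norm_le_iff_of_nonneg (Real.sqrt_nonneg _)]
      intro σ
      apply Real.le_sqrt_of_sq_le
      have h5 : v σ = σ (c : K) := rfl
      rw [h5]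
      unfold qq
      exact Finset.single_le_sum (f := fun σ : K →+* ℂ => ‖σ (c : K)‖ ^ 2)
        (fun _ _ => by positivity) (Finset.mem_univ σ)
    calc ‖v‖ ^ 2 ≤ (Real.sqrt (qq K c)) ^ 2 := by
          apply pow_le_pow_left₀ (norm_nonneg _) h4
      _ = qq K c := Real.sq_sqrt hq0
  have h6 : ‖L v‖ = |(((NumberField.RingOfIntegers.basis K).repr c i : ℤ) : ℝ)| := by
    rw [h1]
    rw [Complex.norm_intCast]
  rw [h6] at h2
  calc (((NumberField.RingOfIntegers.basis K).repr c i : ℤ) : ℝ) ^ 2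
      = |(((NumberField.RingOfIntegers.basis K).repr c i : ℤ) : ℝ)| ^ 2 := (sq_abs _).symm
    _ ≤ (‖L'‖ * ‖v‖) ^ 2 := pow_le_pow_left₀ (abs_nonneg _) h2 2
    _ = ‖L'‖ ^ 2 * ‖v‖ ^ 2 := by ring
    _ ≤ ‖L'‖ ^ 2 * qq K c := mul_le_mul_of_nonneg_left h3 (by positivity)

theorem s17 : S17 := by
  intro K _ _
  classical
  set ι := Module.Free.ChooseBasisIndex ℤ (𝓞 K) with hι
  set d := Fintype.card ι with hd
  set e : ι ≃ Fin d := Fintype.equivFin ι with he
  set b := (NumberField.RingOfIntegers.basis K).reindex e with hb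
  choose C hC0 hC using s17_coord K
  set C0 : ℝ := 1 + ∑ i, C i with hC0'
  have hsum0 : 0 ≤ ∑ i, C i := Finset.sum_nonneg fun i _ => hC0 i
  have hC1 : 1 ≤ C0 := by rw [hC0']; linarith
  have hC0pos : 0 < C0 := by linarith
  have hq0 : ∀ c : 𝓞 K, 0 ≤ qq K c := by
    intro c; unfold qq; positivity
  have key : ∀ c : 𝓞 K, ∑ j, ((b.repr c j : ℤ) : ℝ) ^ 2 ≤ C0 * qq K c := by
    intro c
    have h1 : ∑ j, ((b.repr c j : ℤ) : ℝ) ^ 2 =
        ∑ i, (((NumberField.RingOfIntegers.basis K).repr c i : ℤ) : ℝ) ^ 2 := by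
      rw [← Equiv.sum_comp e]
      apply Finset.sum_congr rfl
      intro i _
      rw [hb, Module.Basis.repr_reindex_apply, Equiv.symm_apply_apply]
    rw [h1]
    calc ∑ i, (((NumberField.RingOfIntegers.basis K).repr c i : ℤ) : ℝ) ^ 2
        ≤ ∑ i, C i * qq K c := Finset.sum_le_sum fun i _ => hC i c
      _ = (∑ i, C i) * qq K c := by rw [Finset.sum_mul]
      _ ≤ C0 * qq K c := mul_le_mul_of_nonneg_right (by rw [hC0']; linarith) (hq0 c)
  refine ⟨(4 * C0) ^ d, d, by positivity, ?_⟩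
  intro a ha ha1
  have ha' : 0 < a / C0 := by positivity
  have ha1' : a / C0 ≤ 1 := by
    rw [div_le_one hC0pos]; linarith
  obtain ⟨hs, hle⟩ := s17_geo (a / C0) ha' ha1'
  have hp := s17_prod ℤ (fun k : ℤ => Real.exp (-(a / C0) * (k : ℝ) ^ 2))
    (fun _ => (Real.exp_pos _).le) hs d
  have hp2 : HasSum (fun c : 𝓞 K => ∏ j, Real.exp (-(a / C0) * ((b.repr c j : ℤ) : ℝ) ^ 2))
      ((∑' k : ℤ, Real.exp (-(a / C0) * (k : ℝ) ^ 2)) ^ d) := by
    have := (b.equivFun.toEquiv).hasSum_iff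
      (f := fun x : Fin d → ℤ => ∏ j, Real.exp (-(a / C0) * ((x j : ℤ) : ℝ) ^ 2))
      (a := (∑' k : ℤ, Real.exp (-(a / C0) * (k : ℝ) ^ 2)) ^ d)
    exact this.mpr hp
  have hterm : ∀ c : 𝓞 K, Real.exp (-a * qq K c) ≤
      ∏ j, Real.exp (-(a / C0) * ((b.repr c j : ℤ) : ℝ) ^ 2) := by
    intro c
    rw [← Real.exp_sum]
    apply Real.exp_le_exp.mpr
    rw [← Finset.mul_sum]
    have h1 := key c
    have h2 : (a / C0) * ∑ j, ((b.repr c j : ℤ) : ℝ) ^ 2 ≤ (a / C0) * (C0 * qq K c) :=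
      mul_le_mul_of_nonneg_left h1 ha'.le
    have h3 : (a / C0) * (C0 * qq K c) = a * qq K c := by field_simp
    linarith
  have hsum : Summable fun c : 𝓞 K => Real.exp (-a * qq K c) :=
    Summable.of_nonneg_of_le (fun _ => (Real.exp_pos _).le) hterm hp2.summable
  refine ⟨hsum, ?_⟩
  calc (∑' c : 𝓞 K, Real.exp (-a * qq K c))
      ≤ ∑' c : 𝓞 K, ∏ j, Real.exp (-(a / C0) * ((b.repr c j : ℤ) : ℝ) ^ 2) :=
        hsum.tsum_le_tsum hterm hp2.summable
    _ = (∑' k : ℤ, Real.exp (-(a / C0) * (k : ℝ) ^ 2)) ^ d := hp2.tsum_eq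
    _ ≤ (4 / (a / C0)) ^ d := by
        apply pow_le_pow_left₀ (tsum_nonneg fun _ => (Real.exp_pos _).le) hle
    _ = (4 * C0) ^ d * (1 / a) ^ d := by
        rw [← mul_pow]; congr 1; field_simp

end Pool.Agent.H961R3.Smyth
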