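import Pool.Agent.H961R3.Smyth.Stmts

/-! Task S4: from real balanced weights to permutations. -/

namespace Pool.Agent.H961R3.Smyth

open Finset

namespace S4

/-- A `ℚ`-linear functional positive on finitely many given positive reals. -/
theorem exists_pos_functional (S : Finset ℝ) (hS : ∀ s ∈ S, 0 < s) :
    ∃ F : ℝ →ₗ[ℚ] ℚ, ∀ s ∈ S, 0 < F s := by
  classical
  let W : Submodule ℚ ℝ := Submodule.span ℚ (S : Set ℝ)
  haveI : FiniteDimensional ℚ W := FiniteDimensional.span_of_finite ℚ S.finite_toSet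
  let b := Module.finBasis ℚ W
  have hmem : ∀ s ∈ S, s ∈ W := fun s hs => Submodule.subset_span hs
  -- the open set
  let U : Set (Fin (Module.finrank ℚ W) → ℝ) :=
    ⋂ s : S, {t | 0 < ∑ k, ((b.repr ⟨s.1, hmem s.1 s.2⟩ k : ℚ) : ℝ) * t k}
  have hUo : IsOpen U := by
    refine isOpen_iInter_of_finite fun s => ?_
    refine isOpen_lt continuous_const ?_
    exact continuous_finset_sum _ fun k _ => continuous_const.mul (continuous_apply k)
  have hbU : (fun k => ((b k : W) : ℝ)) ∈ U := by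
    refine Set.mem_iInter.2 fun s => ?_
    have h1 := b.sum_repr ⟨s.1, hmem s.1 s.2⟩
    have h2 := congrArg (fun y : W => (y : ℝ)) h1
    simp only [Submodule.coe_sum, Submodule.coe_smul] at h2
    change 0 < ∑ k, ((b.repr ⟨s.1, hmem s.1 s.2⟩ k : ℚ) : ℝ) * ((b k : W) : ℝ)
    have h3 : ∑ k, ((b.repr ⟨s.1, hmem s.1 s.2⟩ k : ℚ) : ℝ) * ((b k : W) : ℝ) = s.1 := by
      refine Eq.trans (Finset.sum_congr rfl fun k _ => ?_) h2
      rw [Rat.smul_def]
    rw [h3]
    exact hS s.1 s.2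
  have hdense : DenseRange (fun (q : Fin (Module.finrank ℚ W) → ℚ) =>
      (fun k => ((q k : ℚ) : ℝ))) := by
    have := DenseRange.piMap (fun _ : Fin (Module.finrank ℚ W) => Rat.denseRange_cast (𝕜 := ℝ))
    exact this
  obtain ⟨q, hq⟩ := hdense.exists_mem_open hUo ⟨_, hbU⟩
  let f : W →ₗ[ℚ] ℚ := b.constr ℚ q
  obtain ⟨F, hF⟩ := LinearMap.exists_extend f
  refine ⟨F, fun s hs => ?_⟩
  have h1 : F s = f ⟨s, hmem s hs⟩ := by
    rw [← hF]
    rfl
  have h2 := Set.mem_iInter.1 hq ⟨s, hs⟩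
  change 0 < ∑ k, ((b.repr ⟨s, hmem s hs⟩ k : ℚ) : ℝ) * ((q k : ℚ) : ℝ) at h2
  rw [h1]
  have h3 : f ⟨s, hmem s hs⟩ = ∑ k, b.repr ⟨s, hmem s hs⟩ k * q k := by
    change b.constr ℚ q ⟨s, hmem s hs⟩ = _
    rw [Module.Basis.constr_apply_fintype]
    simp only [smul_eq_mul, Module.Basis.equivFun_apply]
  rw [h3]
  exact_mod_cast h2

end S4

open S4 in
theorem s4 : S4 := by
  classical
  intro R _ n a hn hB
  obtain ⟨X, w, hw0, ⟨x0, hx0, hwx0⟩, hX, hmarg⟩ := hB
  -- rational weights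
  obtain ⟨F, hF⟩ := exists_pos_functional ((X.image w).filter (fun s => 0 < s))
    (fun s hs => (mem_filter.1 hs).2)
  have hFpos : ∀ x ∈ X, 0 < w x → 0 < F (w x) := fun x hx h =>
    hF _ (mem_filter.2 ⟨mem_image_of_mem _ hx, h⟩)
  have hF0 : ∀ x ∈ X, 0 ≤ F (w x) := by
    intro x hx
    rcases (hw0 x hx).eq_or_lt with h | h
    · rw [← h, map_zero]
    · exact (hFpos x hx h).le
  -- natural weights
  let D : ℕ := ∏ x ∈ X, (F (w x)).den
  have hD : 0 < D := Finset.prod_pos fun x _ => (F (w x)).den_pos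
  have hm : ∀ x, ∃ m : ℕ, x ∈ X → (m : ℚ) = D * F (w x) := by
    intro x
    by_cases hx : x ∈ X
    · obtain ⟨d, hd⟩ := Finset.dvd_prod_of_mem (fun x => (F (w x)).den) hx
      refine ⟨d * (F (w x)).num.toNat, fun _ => ?_⟩
      have h1 : ((F (w x)).num.toNat : ℤ) = (F (w x)).num :=
        Int.toNat_of_nonneg (Rat.num_nonneg.2 (hF0 x hx))
      have h2 : ((F (w x)).num.toNat : ℚ) = ((F (w x)).num : ℚ) := by exact_mod_cast congrArg (fun z : ℤ => (z : ℚ)) h1
      have h3 : (D : ℚ) = ((F (w x)).den : ℚ) * d := by exact_mod_cast congrArg (fun z : ℕ => (z : ℚ)) hd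
      rw [Nat.cast_mul, h2, h3, ← Rat.mul_den_eq_num (F (w x))]
      ring
    · exact ⟨0, fun h => absurd h hx⟩
  choose m hm using hm
  have hmargm : ∀ (i j : Fin n) (c : R), (∑ x ∈ X, if x i = c then m x else 0) =
      ∑ x ∈ X, if x j = c then m x else 0 := by
    have key : ∀ (i : Fin n) (c : R), ((∑ x ∈ X, if x i = c then m x else 0 : ℕ) : ℚ) =
        D * F (∑ x ∈ X, Set.indicator {y : Fin n → R | y i = c} w x) := by
      intro i c
      rw [Nat.cast_sum, map_sum, Finset.mul_sum]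
      refine Finset.sum_congr rfl fun x hx => ?_
      by_cases h : x i = c
      · rw [if_pos h, Set.indicator_of_mem (show x ∈ {y : Fin n → R | y i = c} from h), hm x hx]
      · rw [if_neg h, Set.indicator_of_notMem (show x ∉ {y : Fin n → R | y i = c} from h),
          map_zero, mul_zero, Nat.cast_zero]
    intro i j c
    have h1 := key i c
    rw [hmarg i j c, ← key j c] at h1
    exact_mod_cast h1
  -- the list of vectors
  let I : Type := Σ x : X, Fin (m x.1)
  have hcard : ∀ (i : Fin n) (c : R), Fintype.card {k : I // k.1.1 i = c} =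
      ∑ x ∈ X, if x i = c then m x else 0 := by
    intro i c
    rw [Fintype.card_subtype, Finset.card_filter]
    rw [Fintype.sum_sigma]
    rw [← Finset.sum_coe_sort X]
    refine Finset.sum_congr rfl fun x _ => ?_
    simp only []
    split_ifs with h
    · simp
    · simp
  have i0 : Fin n := ⟨0, hn⟩
  let e : I ≃ Fin (Fintype.card I) := Fintype.equivFin I
  have hσ : ∀ i : Fin n, ∃ σ : I ≃ I, ∀ k, (σ k).1.1 i0 = k.1.1 i := by
    intro i
    have hfe : ∀ c : R, Nonempty ({k : I // k.1.1 i = c} ≃ {k : I // k.1.1 i0 = c}) := by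
      intro c
      refine ⟨Fintype.equivOfCardEq ?_⟩
      rw [hcard, hcard]
      exact hmargm i i0 c
    exact ⟨Equiv.ofFiberEquiv (fun c => (hfe c).some),
      fun k => Equiv.ofFiberEquiv_map (fun c => (hfe c).some) k⟩
  choose σ hσ using hσ
  refine ⟨Fintype.card I, fun k => (e.symm k).1.1 i0, fun i => (e.symm.trans (σ i)).trans e, ?_, ?_⟩
  · intro h0
    have hmx0 : 0 < m x0 := by
      have h1 : (0 : ℚ) < (m x0 : ℚ) := by
        rw [hm x0 hx0]
        exact mul_pos (by exact_mod_cast hD) (hFpos x0 hx0 hwx0)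
      exact_mod_cast h1
    let k0 : I := ⟨⟨x0, hx0⟩, ⟨0, hmx0⟩⟩
    apply (hX x0 hx0).1
    funext i
    have h2 := congrFun h0 (e (σ i k0))
    simp only [Equiv.symm_apply_apply, Pi.zero_apply] at h2
    rw [hσ] at h2
    exact h2
  · intro k
    have h1 : ∀ i, (e.symm ((e.symm.trans (σ i)).trans e k)).1.1 i0 = (e.symm k).1.1 i := by
      intro i
      rw [Equiv.trans_apply, Equiv.trans_apply, Equiv.symm_apply_apply, hσ]
    simp only [h1]
    exact (hX _ (e.symm k).1.2).2

end Pool.Agent.H961R3.Smyth
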