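import Pool.Agent.H961R3.Smyth.Stmts

set_option autoImplicit false

open Polynomial

namespace Pool.Agent.H961R3.Smyth

namespace T1

/-- the integer polynomial `(X^2+4) ∏_{j<m} (X-2j) - 2` -/
noncomputable def f (m : ℕ) : ℤ[X] :=
  (X ^ 2 + C 4) * (∏ j ∈ Finset.range m, (X - C (2 * (j : ℤ)))) - C 2

lemma monic_prod (m : ℕ) : (∏ j ∈ Finset.range m, (X - C (2 * (j : ℤ)))).Monic :=
  monic_prod_of_monic _ _ fun j _ => monic_X_sub_C _

lemma natDegree_prod (m : ℕ) :
    (∏ j ∈ Finset.range m, (X - C (2 * (j : ℤ)))).natDegree = m := by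
  rw [natDegree_prod_of_monic _ _ fun j _ => monic_X_sub_C _]
  simp only [natDegree_X_sub_C, Finset.sum_const, Finset.card_range, smul_eq_mul, mul_one]

lemma monic_quad : (X ^ 2 + C 4 : ℤ[X]).Monic := monic_X_pow_add_C 4 two_ne_zero

lemma monic_main (m : ℕ) :
    ((X ^ 2 + C 4) * (∏ j ∈ Finset.range m, (X - C (2 * (j : ℤ))))).Monic :=
  monic_quad.mul (monic_prod m)

lemma natDegree_main (m : ℕ) :
    ((X ^ 2 + C 4) * (∏ j ∈ Finset.range m, (X - C (2 * (j : ℤ))))).natDegree = m + 2 := by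
  rw [monic_quad.natDegree_mul (monic_prod m), natDegree_prod, natDegree_X_pow_add_C]
  ring

lemma degree_lt (m : ℕ) : (C 2 : ℤ[X]).degree <
    ((X ^ 2 + C 4) * (∏ j ∈ Finset.range m, (X - C (2 * (j : ℤ))))).degree := by
  rw [degree_eq_natDegree (monic_main m).ne_zero, natDegree_main]
  refine lt_of_le_of_lt degree_C_le ?_
  exact_mod_cast Nat.succ_pos _

lemma f_monic (m : ℕ) : (f m).Monic := (monic_main m).sub_of_left (degree_lt m)

lemma f_natDegree (m : ℕ) : (f m).natDegree = m + 2 := by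
  rw [f, natDegree_sub_C, natDegree_main]

lemma f_coeff_zero (m : ℕ) (hm : 1 ≤ m) : (f m).coeff 0 = -2 := by
  rw [coeff_zero_eq_eval_zero, f, eval_sub, eval_mul, eval_prod,
    Finset.prod_eq_zero (i := 0) (Finset.mem_range.2 (by omega)) (by simp)]
  simp

lemma f_mod_two (m : ℕ) : (f m).map (Int.castRingHom (ZMod 2)) = X ^ (m + 2) := by
  have h2 : (Int.castRingHom (ZMod 2)) 2 = 0 := by decide
  have h4 : (Int.castRingHom (ZMod 2)) 4 = 0 := by decide
  have hj : ∀ j : ℕ, ((X : ℤ[X]) - C (2 * (j : ℤ))).map (Int.castRingHom (ZMod 2)) = X := by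
    intro j
    rw [Polynomial.map_sub, Polynomial.map_X, Polynomial.map_C, map_mul, h2, zero_mul, C_0,
      sub_zero]
  rw [f, Polynomial.map_sub, Polynomial.map_mul, Polynomial.map_prod, Polynomial.map_add,
    Polynomial.map_pow, Polynomial.map_X, Polynomial.map_C, Polynomial.map_C, h2, h4,
    Finset.prod_congr rfl fun j _ => hj j, Finset.prod_const, Finset.card_range, C_0, add_zero,
    sub_zero, ← pow_add, add_comm]

lemma f_coeff_even (m n : ℕ) (hn : n < m + 2) : (2 : ℤ) ∣ (f m).coeff n := by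
  have h := congrArg (fun q => q.coeff n) (f_mod_two m)
  simp only [coeff_map, coeff_X_pow, if_neg hn.ne, eq_intCast] at h
  exact_mod_cast (ZMod.intCast_zmod_eq_zero_iff_dvd _ 2).1 h

lemma f_irreducible (m : ℕ) (hm : 1 ≤ m) : Irreducible (f m) := by
  have hprime : (Ideal.span {(2 : ℤ)}).IsPrime := by
    rw [Ideal.span_singleton_prime two_ne_zero]
    exact Int.prime_two
  refine irreducible_of_eisenstein_criterion hprime ?_ ?_ ?_ ?_ (f_monic m).isPrimitive
  · rw [(f_monic m).leadingCoeff, Ideal.mem_span_singleton]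
    decide
  · intro n hn
    rw [Ideal.mem_span_singleton]
    apply f_coeff_even
    rw [degree_eq_natDegree (f_monic m).ne_zero, f_natDegree] at hn
    exact_mod_cast hn
  · rw [degree_eq_natDegree (f_monic m).ne_zero, f_natDegree]
    exact_mod_cast Nat.succ_pos _
  · rw [f_coeff_zero m hm, Ideal.span_singleton_pow, Ideal.mem_span_singleton]
    decide

/-- the rational polynomial -/
noncomputable def p (m : ℕ) : ℚ[X] := (f m).map (Int.castRingHom ℚ)

lemma p_irreducible (m : ℕ) (hm : 1 ≤ m) : Irreducible (p m) :=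
  (IsPrimitive.Int.irreducible_iff_irreducible_map_cast (f_monic m).isPrimitive).1
    (f_irreducible m hm)

lemma p_natDegree (m : ℕ) : (p m).natDegree = m + 2 := by
  rw [p, (f_monic m).natDegree_map, f_natDegree]

lemma p_monic (m : ℕ) : (p m).Monic := (f_monic m).map _

lemma p_aeval {R : Type*} [CommRing R] [Algebra ℚ R] (m : ℕ) (x : R) :
    aeval x (p m) = (x ^ 2 + 4) * (∏ j ∈ Finset.range m, (x - 2 * (j : R))) - 2 := by
  rw [p, ← eval_map_algebraMap, Polynomial.map_map, f]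
  simp [eval_prod, Polynomial.map_prod, Polynomial.map_sub, Polynomial.map_mul]

/-- sign of the product at odd points -/
lemma prod_sign (m k : ℕ) (hk : k ≤ m) :
    (1 : ℝ) ≤ (-1) ^ (m - k) * ∏ j ∈ Finset.range m, ((2 * (k : ℝ) - 1) - 2 * (j : ℝ)) := by
  have hsplit : ∏ j ∈ Finset.range m, ((2 * (k : ℝ) - 1) - 2 * (j : ℝ)) =
      (∏ j ∈ Finset.range k, ((2 * (k : ℝ) - 1) - 2 * (j : ℝ))) *
        ∏ j ∈ Finset.Ico k m, ((2 * (k : ℝ) - 1) - 2 * (j : ℝ)) :=
    (Finset.prod_range_mul_prod_Ico _ hk).symm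
  have h2 : ∏ j ∈ Finset.Ico k m, ((2 * (k : ℝ) - 1) - 2 * (j : ℝ)) =
      (-1) ^ (m - k) * ∏ j ∈ Finset.Ico k m, (2 * (j : ℝ) - (2 * (k : ℝ) - 1)) := by
    rw [← Nat.card_Ico k m, ← Finset.prod_const, ← Finset.prod_mul_distrib]
    exact Finset.prod_congr rfl fun j _ => by ring
  have ha : (1 : ℝ) ≤ ∏ j ∈ Finset.range k, ((2 * (k : ℝ) - 1) - 2 * (j : ℝ)) := by
    refine Finset.one_le_prod fun j hj => ?_
    have : (j : ℝ) + 1 ≤ k := by exact_mod_cast Finset.mem_range.1 hj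
    linarith
  have hb : (1 : ℝ) ≤ ∏ j ∈ Finset.Ico k m, (2 * (j : ℝ) - (2 * (k : ℝ) - 1)) := by
    refine Finset.one_le_prod fun j hj => ?_
    have : (k : ℝ) ≤ j := by exact_mod_cast (Finset.mem_Ico.1 hj).1
    linarith
  have hs : ((-1 : ℝ) ^ (m - k)) * (-1) ^ (m - k) = 1 := by
    rw [← mul_pow]; norm_num
  rw [hsplit, h2]
  calc (1 : ℝ) ≤ (∏ j ∈ Finset.range k, ((2 * (k : ℝ) - 1) - 2 * (j : ℝ))) *
      ∏ j ∈ Finset.Ico k m, (2 * (j : ℝ) - (2 * (k : ℝ) - 1)) := one_le_mul_of_one_le_of_one_le ha hb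
    _ = ((-1 : ℝ) ^ (m - k) * (-1) ^ (m - k)) *
      ((∏ j ∈ Finset.range k, ((2 * (k : ℝ) - 1) - 2 * (j : ℝ))) *
      ∏ j ∈ Finset.Ico k m, (2 * (j : ℝ) - (2 * (k : ℝ) - 1))) := by rw [hs, one_mul]
    _ = _ := by ring

lemma exists_root (m k : ℕ) (hk : k < m) :
    ∃ x : ℝ, (2 * (k : ℝ) - 1 < x ∧ x < 2 * (k : ℝ) + 1) ∧ aeval x (p m) = 0 := by
  set G : ℝ → ℝ := fun x => (-1) ^ (m - k) *
    ((x ^ 2 + 4) * (∏ j ∈ Finset.range m, (x - 2 * (j : ℝ))) - 2) with hG
  have hcont : Continuous G := by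
    refine continuous_const.mul (((continuous_pow 2).add continuous_const).mul ?_ |>.sub
      continuous_const)
    exact continuous_finsetProd _ fun j _ => continuous_id.sub continuous_const
  have habs : |((-1 : ℝ)) ^ (m - k)| = 1 := by rw [abs_pow]; norm_num
  have hs1 : (-1 : ℝ) ^ (m - k) ≤ 1 := (le_abs_self _).trans habs.le
  have hs2 : -1 ≤ (-1 : ℝ) ^ (m - k) := by
    have := neg_abs_le ((-1 : ℝ) ^ (m - k)); rw [habs] at this; exact this
  have h1 : 0 < G (2 * (k : ℝ) - 1) := by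
    have h := prod_sign m k hk.le
    have hq : (4 : ℝ) ≤ (2 * (k : ℝ) - 1) ^ 2 + 4 := by nlinarith [sq_nonneg (2 * (k : ℝ) - 1)]
    have : G (2 * (k : ℝ) - 1) = ((2 * (k : ℝ) - 1) ^ 2 + 4) *
        ((-1) ^ (m - k) * ∏ j ∈ Finset.range m, ((2 * (k : ℝ) - 1) - 2 * (j : ℝ))) -
        2 * (-1) ^ (m - k) := by rw [hG]; ring
    rw [this]
    nlinarith
  have h2 : G (2 * (k : ℝ) + 1) < 0 := by
    have h := prod_sign m (k + 1) hk
    have e1 : (2 * (((k + 1 : ℕ) : ℝ)) - 1) = 2 * (k : ℝ) + 1 := by push_cast; ring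
    rw [e1] at h
    have hq : (4 : ℝ) ≤ (2 * (k : ℝ) + 1) ^ 2 + 4 := by nlinarith [sq_nonneg (2 * (k : ℝ) + 1)]
    have hpow : (-1 : ℝ) ^ (m - k) = - (-1) ^ (m - (k + 1)) := by
      have : m - k = (m - (k + 1)) + 1 := by omega
      rw [this, pow_succ]; ring
    have : G (2 * (k : ℝ) + 1) = -(((2 * (k : ℝ) + 1) ^ 2 + 4) *
        ((-1) ^ (m - (k + 1)) * ∏ j ∈ Finset.range m, ((2 * (k : ℝ) + 1) - 2 * (j : ℝ)))) -
        2 * (-1) ^ (m - k) := by
      rw [hG]; simp only; rw [hpow]; ring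
    rw [this]
    nlinarith
  obtain ⟨x, hx, hx0⟩ := intermediate_value_Ioo' (by linarith : 2 * (k : ℝ) - 1 ≤ 2 * (k : ℝ) + 1)
    hcont.continuousOn ⟨h2, h1⟩
  refine ⟨x, ⟨hx.1, hx.2⟩, ?_⟩
  rw [p_aeval]
  have hne : (-1 : ℝ) ^ (m - k) ≠ 0 := pow_ne_zero _ (by norm_num)
  exact (mul_eq_zero.1 hx0).resolve_left hne

lemma card_real (m : ℕ) : m ≤ Fintype.card ((p m).rootSet ℝ) := by
  classical
  choose! r hr using exists_root m
  let g : Fin m → (p m).rootSet ℝ := fun k =>
    ⟨r k, (mem_rootSet.2 ⟨(p_monic m).ne_zero, (hr k k.2).2⟩)⟩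
  have hg : Function.Injective g := by
    intro a b hab
    have hab' : r a = r b := congrArg Subtype.val hab
    by_contra hne
    have hne' : (a : ℕ) ≠ b := fun h => hne (Fin.ext h)
    rcases lt_or_gt_of_ne hne' with h | h
    · have h1 := (hr a a.2).1.2
      have h2 := (hr b b.2).1.1
      have : ((a : ℕ) : ℝ) + 1 ≤ ((b : ℕ) : ℝ) := by exact_mod_cast h
      linarith
    · have h1 := (hr b b.2).1.2
      have h2 := (hr a a.2).1.1
      have : ((b : ℕ) : ℝ) + 1 ≤ ((a : ℕ) : ℝ) := by exact_mod_cast h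
      linarith
  simpa using Fintype.card_le_of_injective g hg

lemma card_real_lt (m : ℕ) (hm : 1 ≤ m) : Fintype.card ((p m).rootSet ℝ) < m + 2 := by
  classical
  by_contra hcon
  push Not at hcon
  set q : ℝ[X] := (p m).map (algebraMap ℚ ℝ) with hq
  have hqm : q.Monic := (p_monic m).map _
  have hqd : q.natDegree = m + 2 := by rw [hq, (p_monic m).natDegree_map, p_natDegree]
  have hcard : Multiset.card q.roots = q.natDegree := by
    refine le_antisymm (card_roots' q) ?_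
    rw [hqd]
    refine hcon.trans ?_
    have : Fintype.card ((p m).rootSet ℝ) = q.roots.toFinset.card := by
      simp_rw [rootSet_def, Finset.coe_sort_coe, Fintype.card_coe, hq]
    rw [this]
    exact Multiset.toFinset_card_le _
  have hprod := prod_multiset_X_sub_C_of_monic_of_roots_card_eq hqm hcard
  have hev : aeval (2 * Complex.I) (p m) = -2 := by
    rw [p_aeval]
    have : (2 * Complex.I) ^ 2 + 4 = 0 := by
      rw [mul_pow, Complex.I_sq]; norm_num
    rw [this]; ring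
  have hev2 : aeval (2 * Complex.I) q = -2 := by
    rw [hq, aeval_map_algebraMap, hev]
  rw [← hprod, map_multiset_prod, Multiset.map_map] at hev2
  have hnorm : ‖(Multiset.map (⇑(aeval (2 * Complex.I)) ∘ fun a => X - C a) q.roots).prod‖ = 2 := by
    rw [hev2]; simp
  have hle : ∀ s : Multiset ℝ, (2 : ℝ) ^ (Multiset.card s) ≤
      ‖(Multiset.map (⇑(aeval (2 * Complex.I)) ∘ fun a : ℝ => (X - C a : ℝ[X])) s).prod‖ := by
    intro s
    induction s using Multiset.induction_on with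
    | empty => simp
    | cons a s ih =>
      rw [Multiset.map_cons, Multiset.prod_cons, Multiset.card_cons, pow_succ, norm_mul, mul_comm]
      refine mul_le_mul ?_ ih (by positivity) (norm_nonneg _)
      simp only [Function.comp, map_sub, aeval_X, aeval_C]
      have h1 := Complex.abs_im_le_norm (2 * Complex.I - (algebraMap ℝ ℂ) a)
      simpa using h1
  have h3 := hle q.roots
  rw [hnorm, hcard, hqd] at h3
  have h4 : (2 : ℝ) ^ 2 ≤ 2 ^ (m + 2) := pow_le_pow_right₀ (by norm_num) (by omega)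
  linarith

end T1

attribute [local instance] Polynomial.Gal.splits_ℚ_ℂ

theorem s1 : S1 := by
  classical
  intro l hl hl5
  obtain ⟨m, rfl⟩ : ∃ m, l = m + 2 := ⟨l - 2, by omega⟩
  have hm : 1 ≤ m := by omega
  refine ⟨T1.p m, T1.p_irreducible m hm, T1.p_natDegree m, ?_⟩
  have hirr := T1.p_irreducible m hm
  have hC : Fintype.card ((T1.p m).rootSet ℂ) = m + 2 := by
    rw [card_rootSet_eq_natDegree hirr.separable (IsAlgClosed.splits _), T1.p_natDegree]
  have h1 := T1.card_real m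
  have h2 := T1.card_real_lt m hm
  have hbij : Function.Bijective (Gal.galActionHom (T1.p m) ℂ) := by
    refine Gal.galActionHom_bijective_of_prime_degree' hirr ?_ ?_ ?_
    · rwa [T1.p_natDegree]
    · omega
    · omega
  intro F _ _ _ τ
  haveI : IsAlgClosed F := IsAlgClosure.isAlgClosed ℚ
  haveI : Algebra.IsAlgebraic ℚ F := IsAlgClosure.isAlgebraic
  haveI hsp : Fact (((T1.p m).map (algebraMap ℚ F)).Splits) := ⟨IsAlgClosed.splits _⟩
  have hF : Fintype.card ((T1.p m).rootSet F) = m + 2 := by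
    rw [card_rootSet_eq_natDegree hirr.separable (IsAlgClosed.splits _), T1.p_natDegree]
  have hinj := Gal.galActionHom_injective (T1.p m) F
  have hcard : Nat.card (T1.p m).Gal = Nat.card (Equiv.Perm ((T1.p m).rootSet F)) := by
    rw [Nat.card_congr (Equiv.ofBijective _ hbij), Nat.card_eq_fintype_card,
      Nat.card_eq_fintype_card, Fintype.card_perm, Fintype.card_perm, hC, hF]
  have hbijF : Function.Bijective (Gal.galActionHom (T1.p m) F) :=
    (Nat.bijective_iff_injective_and_card _).2 ⟨hinj, hcard⟩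
  obtain ⟨g, hg⟩ := hbijF.2 τ
  haveI : Normal ℚ F := inferInstance
  obtain ⟨σ, hσ⟩ := Gal.restrict_surjective (T1.p m) F g
  refine ⟨σ, fun x => ?_⟩
  rw [← Gal.galActionHom_restrict (T1.p m) F σ x, hσ, hg]

end Pool.Agent.H961R3.Smyth
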