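import Mathlib
import Pool.Agent.H961R3.Smyth.Stmts2

set_option autoImplicit false

open scoped NumberField ComplexConjugate

namespace Pool.Agent.H961R3.Smyth

open NumberField Module

/-- vectors compatible with complex conjugation are real combinations of the integral basis -/
lemma real_span (K : Type) [Field K] [NumberField K] (y : (K →+* ℂ) → ℂ)
    (hy : ∀ σ, y (ComplexEmbedding.conjugate σ) = conj (y σ)) :
    ∃ s : Free.ChooseBasisIndex ℤ (𝓞 K) → ℝ, ∀ σ : K →+* ℂ,
      y σ = ∑ k, (s k : ℂ) * σ ((RingOfIntegers.basis K k : 𝓞 K) : K) := by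
  have hb : ∀ k (σ : K →+* ℂ), canonicalEmbedding.latticeBasis K k σ =
      σ ((RingOfIntegers.basis K k : 𝓞 K) : K) := by
    intro k σ
    rw [canonicalEmbedding.latticeBasis_apply, integralBasis_apply]
    rfl
  set r := (canonicalEmbedding.latticeBasis K).repr y with hr
  have h1 : ∀ σ : K →+* ℂ, y σ = ∑ k, r k * σ ((RingOfIntegers.basis K k : 𝓞 K) : K) := by
    intro σ
    have h := congrFun ((canonicalEmbedding.latticeBasis K).sum_repr y) σ
    rw [← h, Finset.sum_apply]
    refine Finset.sum_congr rfl fun k _ => ?_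
    rw [Pi.smul_apply, smul_eq_mul, hb]
  have h2 : ∀ σ : K →+* ℂ, y σ = ∑ k, conj (r k) * σ ((RingOfIntegers.basis K k : 𝓞 K) : K) := by
    intro σ
    have h := h1 (ComplexEmbedding.conjugate σ)
    rw [hy σ] at h
    have h3 := congrArg conj h
    rw [Complex.conj_conj] at h3
    rw [h3, map_sum]
    refine Finset.sum_congr rfl fun k _ => ?_
    rw [map_mul, ComplexEmbedding.conjugate_coe_eq, Complex.conj_conj]
  have h3 : ∑ k, (r k - conj (r k)) • canonicalEmbedding.latticeBasis K k = 0 := by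
    funext σ
    rw [Finset.sum_apply]
    have : ∀ k, ((r k - conj (r k)) • canonicalEmbedding.latticeBasis K k) σ =
        r k * σ ((RingOfIntegers.basis K k : 𝓞 K) : K) -
          conj (r k) * σ ((RingOfIntegers.basis K k : 𝓞 K) : K) := by
      intro k
      rw [Pi.smul_apply, smul_eq_mul, hb, sub_mul]
    rw [Finset.sum_congr rfl fun k _ => this k, Finset.sum_sub_distrib, ← h1, ← h2]
    simp
  have h4 := Fintype.linearIndependent_iff.1 (canonicalEmbedding.latticeBasis K).linearIndependent _ h3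
  refine ⟨fun k => (r k).re, fun σ => ?_⟩
  rw [h1 σ]
  refine Finset.sum_congr rfl fun k _ => ?_
  have h5 := h4 k
  have h6 : r k = conj (r k) := sub_eq_zero.1 h5
  have h7 : ((r k).re : ℂ) = r k := Complex.conj_eq_iff_re.1 h6.symm
  rw [h7]

theorem s10 : S10 := by
  intro K _ _ n a i hA
  classical
  -- a nonzero coefficient
  obtain ⟨p, hpi, hp0⟩ : ∃ p, p ≠ i ∧ a p ≠ 0 := by
    obtain ⟨v⟩ : Nonempty (InfinitePlace K) := inferInstance
    by_contra hcon
    push Not at hcon
    have h1 := hA v i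
    have h2 : ∑ j ∈ Finset.univ.erase i, v (a j : K) = 0 := by
      refine Finset.sum_eq_zero fun j hj => ?_
      rw [hcon j (Finset.ne_of_mem_erase hj)]
      simp
    rw [h2] at h1
    exact absurd (apply_nonneg v (a i : K)) (not_le.2 h1)
  have hpσ : ∀ σ : K →+* ℂ, σ (a p : K) ≠ 0 := by
    intro σ h
    rw [map_eq_zero] at h
    exact hp0 (by exact_mod_cast h)
  let J : Type := {j : Fin n // j ≠ i ∧ j ≠ p} × Free.ChooseBasisIndex ℤ (𝓞 K)
  let X : J → Fin n → 𝓞 K := fun jk l =>
    if l = jk.1.1 then RingOfIntegers.basis K jk.2 * a p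
    else if l = p then - (RingOfIntegers.basis K jk.2 * a jk.1.1) else 0
  have hXj : ∀ jk : J, X jk jk.1.1 = RingOfIntegers.basis K jk.2 * a p := fun jk => if_pos rfl
  have hXp : ∀ jk : J, X jk p = - (RingOfIntegers.basis K jk.2 * a jk.1.1) := fun jk => by
    change (if p = jk.1.1 then _ else if p = p then _ else _) = _
    rw [if_neg jk.1.2.2.symm, if_pos rfl]
  have hX0 : ∀ (jk : J) l, l ≠ jk.1.1 → l ≠ p → X jk l = 0 := fun jk l h1 h2 => by
    change (if l = jk.1.1 then _ else if l = p then _ else _) = _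
    rw [if_neg h1, if_neg h2]
  let e : J ≃ Fin (Fintype.card J) := Fintype.equivFin J
  refine ⟨Fintype.card J, fun l => X (e.symm l), ?_, ?_⟩
  · intro l
    set jk := e.symm l with hjk
    refine ⟨hX0 jk i jk.1.2.1.symm hpi.symm, ?_, ?_⟩
    · have h1 : ∑ j, a j * X jk j = ∑ j ∈ ({jk.1.1, p} : Finset (Fin n)), a j * X jk j := by
        symm
        apply Finset.sum_subset (Finset.subset_univ _)
        intro j _ hj
        rw [Finset.mem_insert, Finset.mem_singleton, not_or] at hj
        rw [hX0 jk j hj.1 hj.2, mul_zero]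
      rw [h1, Finset.sum_pair jk.1.2.2, hXj, hXp]
      ring
    · intro h
      have h2 : RingOfIntegers.basis K jk.2 * a p = 0 := by
        rw [← hXj jk]
        exact congrFun h jk.1.1
      rcases mul_eq_zero.1 h2 with h3 | h3
      · exact (RingOfIntegers.basis K).ne_zero jk.2 h3
      · exact hp0 h3
  · intro z hz hzi hrel
    have hy : ∀ j : Fin n, ∃ s : Free.ChooseBasisIndex ℤ (𝓞 K) → ℝ, ∀ σ : K →+* ℂ,
        z j σ / σ (a p : K) = ∑ k, (s k : ℂ) * σ ((RingOfIntegers.basis K k : 𝓞 K) : K) := by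
      intro j
      refine real_span K (fun σ => z j σ / σ (a p : K)) fun σ => ?_
      rw [hz j σ, ComplexEmbedding.conjugate_coe_eq, map_div₀]
    choose s hs using hy
    refine ⟨fun l => s (e.symm l).1.1 (e.symm l).2, fun j σ => ?_⟩
    have hsum : ∑ l, ((s (e.symm l).1.1 (e.symm l).2 : ℝ) : ℂ) * emb K (X (e.symm l) j) σ =
        ∑ jk : J, ((s jk.1.1 jk.2 : ℝ) : ℂ) * σ ((X jk j : 𝓞 K) : K) :=
      Equiv.sum_comp e.symm (fun jk : J => ((s jk.1.1 jk.2 : ℝ) : ℂ) * σ ((X jk j : 𝓞 K) : K))
    rw [hsum, Fintype.sum_prod_type]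
    by_cases hji : j = i
    · rw [hji]
      rw [show z i σ = 0 from congrFun hzi σ]
      symm
      refine Finset.sum_eq_zero fun j' _ => Finset.sum_eq_zero fun k _ => ?_
      rw [hX0 (j', k) i j'.2.1.symm hpi.symm]
      simp
    by_cases hjp : j = p
    · rw [hjp]
      have h1 : ∀ j' : {j : Fin n // j ≠ i ∧ j ≠ p},
          ∑ k, ((s j'.1 k : ℝ) : ℂ) * σ ((X (j', k) p : 𝓞 K) : K) =
            - (σ (a j'.1 : K) * (z j'.1 σ / σ (a p : K))) := by
        intro j'
        rw [hs j'.1 σ, Finset.mul_sum, ← Finset.sum_neg_distrib]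
        refine Finset.sum_congr rfl fun k _ => ?_
        rw [hXp]
        push_cast
        rw [map_neg, map_mul]
        ring
      rw [Finset.sum_congr rfl fun j' _ => h1 j']
      have h2 : ∑ j' : {j : Fin n // j ≠ i ∧ j ≠ p}, - (σ (a j'.1 : K) * (z j'.1 σ / σ (a p : K))) =
          ∑ j ∈ Finset.univ.filter (fun j : Fin n => j ≠ i ∧ j ≠ p),
            - (σ (a j : K) * (z j σ / σ (a p : K))) := by
        rw [← Finset.sum_subtype (Finset.univ.filter (fun j : Fin n => j ≠ i ∧ j ≠ p))
          (p := fun j => j ≠ i ∧ j ≠ p) (by simp)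
          (fun j => - (σ (a j : K) * (z j σ / σ (a p : K))))]
      rw [h2]
      have h3 := hrel σ
      have h4 : ∑ j, σ (a j : K) * z j σ =
          σ (a p : K) * z p σ + ∑ j ∈ Finset.univ.filter (fun j : Fin n => j ≠ i ∧ j ≠ p),
            σ (a j : K) * z j σ := by
        rw [← Finset.add_sum_erase _ _ (Finset.mem_univ p)]
        congr 1
        symm
        apply Finset.sum_subset
        · intro j hj
          rw [Finset.mem_filter] at hj
          exact Finset.mem_erase.2 ⟨hj.2.2, Finset.mem_univ _⟩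
        · intro j hj hj'
          have hjp' := Finset.ne_of_mem_erase hj
          have : j = i := by
            by_contra hne
            exact hj' (Finset.mem_filter.2 ⟨Finset.mem_univ _, hne, hjp'⟩)
          rw [this, show z i σ = 0 from congrFun hzi σ, mul_zero]
      rw [h4] at h3
      have h5 : ∑ j ∈ Finset.univ.filter (fun j : Fin n => j ≠ i ∧ j ≠ p),
          - (σ (a j : K) * (z j σ / σ (a p : K))) =
          - (∑ j ∈ Finset.univ.filter (fun j : Fin n => j ≠ i ∧ j ≠ p), σ (a j : K) * z j σ) /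
            σ (a p : K) := by
        rw [neg_div, Finset.sum_div, ← Finset.sum_neg_distrib]
        refine Finset.sum_congr rfl fun j _ => ?_
        rw [mul_div_assoc]
      rw [h5, eq_div_iff (hpσ σ)]
      linear_combination h3
    · rw [Finset.sum_eq_single (⟨j, hji, hjp⟩ : {j : Fin n // j ≠ i ∧ j ≠ p})]
      · have h1 : ∀ k, ((s j k : ℝ) : ℂ) * σ ((X ((⟨j, hji, hjp⟩ : {j : Fin n // j ≠ i ∧ j ≠ p}), k) j : 𝓞 K) : K) =
            (((s j k : ℝ) : ℂ) * σ ((RingOfIntegers.basis K k : 𝓞 K) : K)) * σ (a p : K) := by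
          intro k
          rw [hXj ((⟨j, hji, hjp⟩ : {j : Fin n // j ≠ i ∧ j ≠ p}), k)]
          push_cast
          rw [map_mul]
          ring
        simp only
        rw [Finset.sum_congr rfl fun k _ => h1 k, ← Finset.sum_mul, ← hs j σ,
          div_mul_cancel₀ _ (hpσ σ)]
      · intro j' _ hne
        refine Finset.sum_eq_zero fun k _ => ?_
        rw [hX0 (j', k) j (fun h => hne (Subtype.ext h.symm)) hjp]
        simp
      · intro h
        exact absurd (Finset.mem_univ _) h

end Pool.Agent.H961R3.Smyth
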