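import Pool.Agent.H961R3.Smyth.Stmts3

set_option autoImplicit false

/-! Task S15 of the H961-SMYTH project (helper133): shifts along the real line through a lattice
vector. -/

namespace Pool.Agent.H961R3.Smyth



theorem s15 : S15 := by
  intro h14 H _ _ G _ f b a ha hb hab hsum s t
  have hne : 0 < ‖f b‖ ^ 2 := by
    have := norm_pos_iff.2 hb
    positivity
  have hα : 0 < a * ‖f b‖ ^ 2 := by positivity
  obtain ⟨hS, hI⟩ := h14 (a * ‖f b‖ ^ 2) hα hab
  set α : ℝ := a * ‖f b‖ ^ 2 with hαdef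
  -- the linear functional
  set l : G → ℝ := fun y => inner ℝ (f y) (f b) / ‖f b‖ ^ 2 with hl
  have hlk : ∀ (y : G) (k : ℤ), l (y + k • b) = l y + k := by
    intro y k
    simp only [hl]
    rw [map_add, map_zsmul, inner_add_left, ← Int.cast_smul_eq_zsmul ℝ, real_inner_smul_left,
      real_inner_self_eq_norm_sq]
    field_simp
  -- the equivalence
  let G0 : Type := {y : G // ⌊l y⌋ = 0}
  let E : G0 × ℤ ≃ G :=
    { toFun := fun p => p.1.1 + p.2 • b
      invFun := fun y => (⟨y - ⌊l y⌋ • b, by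
        have := hlk y (-⌊l y⌋)
        rw [neg_smul, ← sub_eq_add_neg] at this
        rw [this]
        push_cast
        rw [← sub_eq_add_neg, Int.floor_sub_intCast]
        simp⟩, ⌊l y⌋)
      left_inv := by
        rintro ⟨⟨y, hy⟩, k⟩
        have h1 : ⌊l (y + k • b)⌋ = k := by
          rw [hlk, Int.floor_add_intCast, hy, zero_add]
        simp only [h1]
        refine Prod.ext (Subtype.ext ?_) rfl
        simp
      right_inv := by
        intro y
        simp }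
  have hE : ∀ (y0 : G0) (k : ℤ), E (y0, k) = y0.1 + k • b := fun _ _ => rfl
  -- norm computation
  set τ : G0 → ℝ := fun y0 => inner ℝ (s + f y0.1) (f b) / ‖f b‖ ^ 2 with hτ
  set ρ : G0 → ℝ := fun y0 => ‖s + f y0.1‖ ^ 2 - inner ℝ (s + f y0.1) (f b) ^ 2 / ‖f b‖ ^ 2 with hρ
  have hnorm : ∀ (y0 : G0) (x : ℝ), ‖(s + f y0.1) + x • f b‖ ^ 2 =
      ‖f b‖ ^ 2 * (x + τ y0) ^ 2 + ρ y0 := by
    intro y0 x
    rw [norm_add_sq_real, norm_smul, real_inner_smul_right, mul_pow, Real.norm_eq_abs, sq_abs]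
    simp only [hτ, hρ]
    field_simp
    ring
  have h1 : ∀ (y0 : G0) (k : ℤ), Real.exp (-a * ‖s + t • f b + f (E (y0, k))‖ ^ 2) =
      Real.exp (-a * ρ y0) * Real.exp (-α * ((k : ℝ) + (t + τ y0)) ^ 2) := by
    intro y0 k
    rw [← Real.exp_add]
    congr 1
    have h2 : s + t • f b + f (E (y0, k)) = (s + f y0.1) + ((k : ℝ) + t) • f b := by
      rw [hE, map_add, map_zsmul, ← Int.cast_smul_eq_zsmul ℝ, add_smul]
      abel
    rw [h2, hnorm, hαdef]
    ring
  have h2 : ∀ (y0 : G0) (k : ℤ), Real.exp (-a * ‖s + f (E (y0, k))‖ ^ 2) =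
      Real.exp (-a * ρ y0) * Real.exp (-α * ((k : ℝ) + τ y0) ^ 2) := by
    intro y0 k
    rw [← Real.exp_add]
    congr 1
    have h2 : s + f (E (y0, k)) = (s + f y0.1) + (k : ℝ) • f b := by
      rw [hE, map_add, map_zsmul, ← Int.cast_smul_eq_zsmul ℝ]
      abel
    rw [h2, hnorm, hαdef]
    ring
  -- summability
  have hs1 : Summable fun p : G0 × ℤ => Real.exp (-a * ‖s + t • f b + f (E p)‖ ^ 2) :=
    (E.summable_iff (f := fun y : G => Real.exp (-a * ‖s + t • f b + f y‖ ^ 2))).2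
      (hsum (s + t • f b))
  have hs2 : Summable fun p : G0 × ℤ => Real.exp (-a * ‖s + f (E p)‖ ^ 2) :=
    (E.summable_iff (f := fun y : G => Real.exp (-a * ‖s + f y‖ ^ 2))).2 (hsum s)
  have e1 : (∑' y : G, Real.exp (-a * ‖s + t • f b + f y‖ ^ 2)) =
      ∑' y0 : G0, ∑' k : ℤ, Real.exp (-a * ‖s + t • f b + f (E (y0, k))‖ ^ 2) := by
    rw [← E.tsum_eq, hs1.tsum_prod]
  have e2 : (∑' y : G, Real.exp (-a * ‖s + f y‖ ^ 2)) =
      ∑' y0 : G0, ∑' k : ℤ, Real.exp (-a * ‖s + f (E (y0, k))‖ ^ 2) := by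
    rw [← E.tsum_eq, hs2.tsum_prod]
  rw [e1, e2, ← tsum_mul_left]
  refine Summable.tsum_le_tsum ?_ hs1.prod (hs2.prod.mul_left _)
  intro y0
  simp_rw [h1, h2]
  rw [tsum_mul_left, tsum_mul_left]
  have h3 := hI (t + τ y0) (τ y0)
  have h4 : 0 < Real.exp (-a * ρ y0) := Real.exp_pos _
  calc Real.exp (-a * ρ y0) * ∑' k : ℤ, Real.exp (-α * ((k : ℝ) + (t + τ y0)) ^ 2)
      ≤ Real.exp (-a * ρ y0) * ((1 + 16 * Real.exp (-1 / α)) *
        ∑' k : ℤ, Real.exp (-α * ((k : ℝ) + τ y0) ^ 2)) := by gcongr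
    _ = _ := by ring

end Pool.Agent.H961R3.Smyth
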