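import Pool.Agent.H961R3.Smyth.Stmts

/-!
Task S2: from polynomials over `ℚ` with symmetric Galois group to prescribed permutations over `K`.
-/

set_option autoImplicit false

open scoped NumberField
open Polynomial

namespace Pool.Agent.H961R3.Smyth.T2

/-- a subgroup of small index of the symmetric group contains the alternating group -/
theorem alternating_le {α : Type*} [DecidableEq α] [Fintype α] (h5 : 5 ≤ Fintype.card α)
    (H : Subgroup (Equiv.Perm α)) (hi : H.index < Fintype.card α) :
    alternatingGroup α ≤ H := by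
  refine le_trans ?_ (Subgroup.normalCore_le H)
  have h5' : 5 ≤ Nat.card α := by rw [Nat.card_eq_fintype_card]; exact h5
  refine Equiv.Perm.alternatingGroup_le_of_normal h5' ?_
  by_contra hnt
  rw [Subgroup.nontrivial_iff_ne_bot, not_not] at hnt
  rw [Subgroup.normalCore_eq_ker] at hnt
  have hinj : Function.Injective (MulAction.toPermHom (Equiv.Perm α) (Equiv.Perm α ⧸ H)) :=
    (MonoidHom.ker_eq_bot_iff _).1 hnt
  have h1 := Nat.card_le_card_of_injective _ hinj
  have h2 : Nat.card (Equiv.Perm (Equiv.Perm α ⧸ H)) = (H.index).factorial := by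
    rw [Nat.card_perm, Subgroup.index_eq_card]
  have h3 : Nat.card (Equiv.Perm α) = (Fintype.card α).factorial := by
    rw [Nat.card_perm, Nat.card_eq_fintype_card]
  rw [h2, h3] at h1
  have h4 : (H.index).factorial < (Fintype.card α).factorial := by
    have h6 : 0 < H.index := Nat.pos_of_ne_zero Subgroup.index_ne_zero_of_finite
    exact (Nat.factorial_lt h6).2 hi
  omega

variable (K : Type) [Field K] [NumberField K]


/-- the permutations of a set of roots which are induced by automorphisms over `K` -/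
def HK (R : Set (AlgebraicClosure K)) : Subgroup (Equiv.Perm R) where
  carrier := {τ | ∃ σ : AlgebraicClosure K ≃ₐ[K] AlgebraicClosure K,
    ∀ x : R, σ (x : AlgebraicClosure K) = (τ x : AlgebraicClosure K)}
  one_mem' := ⟨AlgEquiv.refl, fun x => rfl⟩
  mul_mem' := by
    rintro τ₁ τ₂ ⟨σ₁, h₁⟩ ⟨σ₂, h₂⟩
    refine ⟨σ₁ * σ₂, fun x => ?_⟩
    rw [AlgEquiv.mul_apply, h₂, h₁]; rfl
  inv_mem' := by
    rintro τ ⟨σ, h⟩
    refine ⟨σ⁻¹, fun x => ?_⟩
    have h1 := h (τ⁻¹ x)
    have h2 : τ (τ⁻¹ x) = x := by simp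
    rw [h2] at h1
    rw [← h1]
    change σ.symm (σ _) = _
    rw [AlgEquiv.symm_apply_apply]

theorem index_le (R : Set (AlgebraicClosure K)) [Finite R]
    (hR : ∀ τ : Equiv.Perm R, ∃ σ : AlgebraicClosure K ≃ₐ[ℚ] AlgebraicClosure K,
      ∀ x : R, σ (x : AlgebraicClosure K) = (τ x : AlgebraicClosure K)) :
    (HK K R).index ≤ Module.finrank ℚ K := by
  choose s hs using hR
  have hcard : Nat.card (K →ₐ[ℚ] AlgebraicClosure K) = Module.finrank ℚ K := by
    rw [Nat.card_eq_fintype_card, AlgHom.card ℚ K (AlgebraicClosure K)]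
  rw [← hcard, Subgroup.index_eq_card]
  let φ : Equiv.Perm R → (K →ₐ[ℚ] AlgebraicClosure K) := fun τ =>
    (s τ).toAlgHom.comp (IsScalarTower.toAlgHom ℚ K (AlgebraicClosure K))
  have hφ : ∀ τ τ', φ τ = φ τ' → τ⁻¹ * τ' ∈ HK K R := by
    intro τ τ' h
    have hk : ∀ k : K, (s τ) (algebraMap K (AlgebraicClosure K) k) =
        (s τ') (algebraMap K (AlgebraicClosure K) k) := fun k => DFunLike.congr_fun h k
    let ρ : AlgebraicClosure K ≃ₐ[ℚ] AlgebraicClosure K := (s τ')  |>.trans (s τ).symm
    refine ⟨AlgEquiv.ofRingEquiv (f := ρ.toRingEquiv) (fun k => ?_), fun x => ?_⟩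
    · change (s τ).symm (s τ' (algebraMap K (AlgebraicClosure K) k)) = _
      rw [← hk, AlgEquiv.symm_apply_apply]
    · change (s τ).symm (s τ' x) = _
      rw [hs τ', AlgEquiv.symm_apply_eq]
      rw [hs τ]
      simp
  refine Nat.card_le_card_of_injective (fun q : Equiv.Perm R ⧸ HK K R => φ q.out) ?_
  intro q q' h
  have := hφ _ _ h
  rw [← QuotientGroup.eq] at this
  simpa using this

theorem s2 : S2 := by
  intro h1 K _ _ n N τ
  obtain ⟨l, hl, hlp⟩ := Nat.exists_infinite_primes (max (2 * N) (max (Module.finrank ℚ K + 1) 5))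
  have l1 : 2 * N ≤ l := le_trans (le_max_left _ _) hl
  have l2 : Module.finrank ℚ K + 1 ≤ l :=
    le_trans (le_trans (le_max_left _ _) (le_max_right _ _)) hl
  have l3 : 5 ≤ l := le_trans (le_trans (le_max_right _ _) (le_max_right _ _)) hl
  obtain ⟨p, hp, hdeg, hτ⟩ := h1 l hlp l3
  have : Algebra.IsAlgebraic ℚ (AlgebraicClosure K) :=
    Algebra.IsAlgebraic.trans ℚ K (AlgebraicClosure K)
  have : IsAlgClosure ℚ (AlgebraicClosure K) := ⟨inferInstance, inferInstance⟩
  have hsurj := hτ (AlgebraicClosure K)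
  set R : Set (AlgebraicClosure K) := p.rootSet (AlgebraicClosure K) with hRdef
  have hnat : Nat.card R = l := by
    rw [← hdeg, ← Polynomial.card_rootSet_eq_natDegree (K := AlgebraicClosure K) hp.separable
      (IsAlgClosed.splits _), ← Nat.card_eq_fintype_card]
  classical
  have : Fintype R := Fintype.ofFinite _
  have hcard : Fintype.card R = l := by
    rw [← Nat.card_eq_fintype_card]; exact hnat
  have hidx := index_le K R hsurj
  have halt := alternating_le (by omega) (HK K R) (by omega)
  obtain ⟨e⟩ : Nonempty (Fin N ⊕ Fin N ↪ R) := by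
    refine Function.Embedding.nonempty_of_card_le ?_
    rw [Fintype.card_sum, Fintype.card_fin, hcard]; omega
  have hT : ∀ i, ((Equiv.Perm.sumCongr (τ i) (τ i)).viaEmbedding e) ∈ HK K R := by
    intro i
    apply halt
    rw [Equiv.Perm.mem_alternatingGroup, Equiv.Perm.viaEmbedding, Equiv.Perm.sign_extendDomain,
      Equiv.Perm.sign_sumCongr]
    exact Int.units_mul_self _
  choose σ hσ using hT
  refine ⟨fun k => (e (Sum.inl k) : AlgebraicClosure K), σ, ?_, ?_⟩
  · intro k k' h
    exact Sum.inl_injective (e.injective (Subtype.val_injective h))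
  · intro i k
    rw [hσ i, Equiv.Perm.viaEmbedding_apply]
    rfl

end Pool.Agent.H961R3.Smyth.T2
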