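import Pool.Agent.H961R3.Smyth.Stmts

open scoped NumberField
open Polynomial

namespace Pool.Agent.H961R3.Smyth

theorem s3 : S3 := by
  intro hG K _ _ n a N v τ hv hrel
  obtain ⟨β, σ, hβ, hσ⟩ := hG K n N (fun i => (τ i)⁻¹)
  set ι : 𝓞 K → AlgebraicClosure K := fun x => algebraMap K (AlgebraicClosure K) (x : K) with hι
  have hιinj : ∀ x, ι x = 0 → x = 0 := by
    intro x hx
    have h1 : ((x : 𝓞 K) : K) = 0 := by
      have := (map_eq_zero (algebraMap K (AlgebraicClosure K))).1 hx
      exact this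
    exact_mod_cast h1
  have hιmul : ∀ x y, ι (x * y) = ι x * ι y := by
    intro x y; simp [hι]
  have hιsum : ∀ (f : Fin n → 𝓞 K), ι (∑ i, f i) = ∑ i, ι (f i) := by
    intro f; simp [hι]
  -- some power sum is nonzero
  obtain ⟨m, hm⟩ : ∃ m : Fin N, ∑ k, ι (v k) * β k ^ (m : ℕ) ≠ 0 := by
    by_contra hcon
    push Not at hcon
    have h0 := Matrix.eq_zero_of_forall_pow_sum_mul_pow_eq_zero hβ hcon
    apply hv
    funext k
    exact hιinj _ (congrFun h0 k)
  set g : AlgebraicClosure K := ∑ k, ι (v k) * β k ^ (m : ℕ) with hg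
  have hσg : ∀ i, σ i g = ∑ j, ι (v (τ i j)) * β j ^ (m : ℕ) := by
    intro i
    rw [hg, map_sum]
    rw [← Equiv.sum_comp (τ i)]
    refine Finset.sum_congr rfl fun j _ => ?_
    rw [map_mul, map_pow, hσ]
    have : σ i (ι (v (τ i j))) = ι (v (τ i j)) := (σ i).commutes _
    rw [this]
    simp
  refine ⟨fun i => σ i g, ?_, ?_, ?_⟩
  · intro i
    simpa using hm
  · intro i j
    rw [minpoly.algEquiv_eq, minpoly.algEquiv_eq]
  · have : ∀ i, algebraMap K (AlgebraicClosure K) (a i : K) * σ i g =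
        ∑ j, ι (a i * v (τ i j)) * β j ^ (m : ℕ) := by
      intro i
      rw [hσg, Finset.mul_sum]
      refine Finset.sum_congr rfl fun j _ => ?_
      rw [hιmul]
      simp only [hι]
      ring
    rw [Finset.sum_congr rfl fun i _ => this i, Finset.sum_comm]
    refine Finset.sum_eq_zero fun j _ => ?_
    rw [← Finset.sum_mul, ← hιsum, hrel j]
    simp [hι]

end Pool.Agent.H961R3.Smyth
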