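import Pool.Agent.H961R3.Smyth.Stmts

/-!
# Task S5: a vanishing combination of roots of unity gives a Smyth tuple
-/

set_option autoImplicit false

open scoped NumberField
open Polynomial

namespace Pool.Agent.H961R3.Smyth

/-- For every `m > 0` some `X ^ m - c` with `c ∈ 𝓞 K` is irreducible over `K` (Eisenstein). -/
theorem s5_exists (K : Type) [Field K] [NumberField K] (m : ℕ) (hm : 0 < m) :
    ∃ c : 𝓞 K, c ≠ 0 ∧ Irreducible (X ^ m - C (c : K) : K[X]) := by
  obtain ⟨P, hP0, hP⟩ := Ring.not_isField_iff_exists_prime.1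
    (NumberField.RingOfIntegers.not_isField K)
  obtain ⟨c, hc1, hc2⟩ := Ideal.exists_mem_pow_notMem_pow_succ P hP0 hP.ne_top 1
  rw [pow_one] at hc1
  have hm0 : m ≠ 0 := hm.ne'
  have hmon : (X ^ m - C c : (𝓞 K)[X]).Monic := monic_X_pow_sub_C c hm0
  have hdeg : (X ^ m - C c : (𝓞 K)[X]).natDegree = m := natDegree_X_pow_sub_C
  have hE : (X ^ m - C c : (𝓞 K)[X]).IsEisensteinAt P := by
    refine ⟨?_, ?_, ?_⟩
    · rw [hmon.leadingCoeff]
      exact fun h => hP.ne_top ((Ideal.eq_top_iff_one P).2 h)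
    · intro n hn
      rw [hdeg] at hn
      rw [coeff_sub, coeff_X_pow, if_neg hn.ne, coeff_C, zero_sub]
      split_ifs
      · exact neg_mem hc1
      · rw [neg_zero]; exact zero_mem P
    · rw [coeff_sub, coeff_X_pow, if_neg (Ne.symm hm0), coeff_C_zero, zero_sub]
      intro h
      exact hc2 (by simpa using h)
  have hirr : Irreducible (X ^ m - C c : (𝓞 K)[X]) :=
    hE.irreducible hP hmon.isPrimitive (by rw [hdeg]; exact hm)
  refine ⟨c, ?_, ?_⟩
  · rintro rfl
    exact hc2 (zero_mem _)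
  · have := (hmon.irreducible_iff_irreducible_map_fraction_map (K := K)).1 hirr
    simpa using this

theorem s5 : S5 := by
  intro K _ _ n a ⟨ω, hω, hsum⟩
  choose m hm hωm using hω
  have hM : 0 < ∏ i, m i := Finset.prod_pos fun i _ => hm i
  have hωM : ∀ i, ω i ^ (∏ i, m i) = 1 := by
    intro i
    obtain ⟨k, hk⟩ := Finset.dvd_prod_of_mem m (Finset.mem_univ i)
    rw [hk, pow_mul, hωm, one_pow]
  obtain ⟨c, hc0, hirr⟩ := s5_exists K (∏ i, m i) hM
  obtain ⟨γ, hγ⟩ := IsAlgClosed.exists_pow_nat_eq (algebraMap K (AlgebraicClosure K) (c : K)) hM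
  have hc0' : algebraMap K (AlgebraicClosure K) (c : K) ≠ 0 := by
    rw [Ne, map_eq_zero]
    exact fun h => hc0 (by exact_mod_cast h)
  have hγ0 : γ ≠ 0 := by
    rintro rfl
    rw [zero_pow hM.ne'] at hγ
    exact hc0' hγ.symm
  have hω0 : ∀ i, ω i ≠ 0 := by
    intro i h
    have := hωM i
    rw [h, zero_pow hM.ne'] at this
    exact zero_ne_one this
  have hmin : ∀ i, minpoly K (ω i * γ) = X ^ (∏ i, m i) - C (c : K) := by
    intro i
    refine (minpoly.eq_of_irreducible_of_monic hirr ?_ (monic_X_pow_sub_C _ hM.ne')).symm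
    rw [map_sub, map_pow, aeval_X, aeval_C, mul_pow, hωM, one_mul, hγ, sub_self]
  refine ⟨fun i => ω i * γ, fun i => mul_ne_zero (hω0 i) hγ0, fun i j => ?_, ?_⟩
  · rw [hmin, hmin]
  · have : ∑ i, algebraMap K (AlgebraicClosure K) (a i : K) * (ω i * γ) =
        (∑ i, algebraMap K (AlgebraicClosure K) (a i : K) * ω i) * γ := by
      rw [Finset.sum_mul]
      exact Finset.sum_congr rfl fun i _ => by ring
    rw [this, hsum, zero_mul]

end Pool.Agent.H961R3.Smyth
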