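import Pool.Agent.H961R3.Smyth.Stmts

open scoped NumberField
open Polynomial

namespace Pool.Agent.H961R3.Smyth

/-- Equality case of the triangle inequality. -/
theorem s7_complex {ι : Type*} [Fintype ι] [DecidableEq ι] (i : ι) (A y : ι → ℂ) (M : ℝ)
    (hM : 0 < M) (hAi : A i ≠ 0) (hyi : ‖y i‖ = M) (hy : ∀ j, ‖y j‖ ≤ M)
    (hsum : ∑ j, A j * y j = 0)
    (hA : ∑ j ∈ Finset.univ.erase i, ‖A j‖ ≤ ‖A i‖) :
    ∀ j, j ≠ i → A j * y j = - (((‖A j‖ / ‖A i‖ : ℝ) : ℂ) * (A i * y i)) := by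
  have hyi0 : y i ≠ 0 := by
    intro h
    rw [h, norm_zero] at hyi
    exact hM.ne hyi
  have hAy : A i * y i ≠ 0 := mul_ne_zero hAi hyi0
  have hAin : 0 < ‖A i‖ := norm_pos_iff.2 hAi
  set z : ι → ℂ := fun j => -(A j * y j) / (A i * y i) with hz
  have hz1 : ∑ j ∈ Finset.univ.erase i, z j = 1 := by
    have h1 : ∑ j ∈ Finset.univ.erase i, (A j * y j) = -(A i * y i) := by
      have := Finset.add_sum_erase Finset.univ (fun j => A j * y j) (Finset.mem_univ i)
      rw [hsum] at this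
      linear_combination this
    simp only [hz, neg_div]
    rw [Finset.sum_neg_distrib, ← Finset.sum_div, h1, neg_div, neg_neg, div_self hAy]
  have hzn : ∀ j, ‖z j‖ ≤ ‖A j‖ / ‖A i‖ := by
    intro j
    simp only [hz, norm_div, norm_neg, norm_mul, hyi]
    rw [div_le_div_iff₀ (by positivity) hAin]
    have := hy j
    have h3 : 0 ≤ ‖A j‖ := norm_nonneg _
    calc ‖A j‖ * ‖y j‖ * ‖A i‖ ≤ ‖A j‖ * M * ‖A i‖ := by gcongr
      _ = ‖A j‖ * (‖A i‖ * M) := by ring
  have hc : ∑ j ∈ Finset.univ.erase i, ‖A j‖ / ‖A i‖ ≤ 1 := by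
    rw [← Finset.sum_div, div_le_one hAin]
    exact hA
  have hre : ∀ j, (z j).re ≤ ‖A j‖ / ‖A i‖ := fun j => (Complex.re_le_norm _).trans (hzn j)
  have hre1 : ∑ j ∈ Finset.univ.erase i, (z j).re = 1 := by
    rw [← Complex.re_sum, hz1, Complex.one_re]
  have hdiff : ∑ j ∈ Finset.univ.erase i, (‖A j‖ / ‖A i‖ - (z j).re) = 0 := by
    apply le_antisymm
    · rw [Finset.sum_sub_distrib, hre1]; linarith
    · exact Finset.sum_nonneg fun j _ => sub_nonneg.2 (hre j)
  have hall := (Finset.sum_eq_zero_iff_of_nonneg (fun j _ => sub_nonneg.2 (hre j))).1 hdiff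
  intro j hj
  have hj' := hall j (Finset.mem_erase.2 ⟨hj, Finset.mem_univ j⟩)
  have hzre : (z j).re = ‖A j‖ / ‖A i‖ := by linarith
  have hzim : (z j).im = 0 := by
    have h1 := hzn j
    have h2 : (z j).re ^ 2 + (z j).im ^ 2 = ‖z j‖ ^ 2 := by
      rw [Complex.sq_norm, Complex.normSq_apply]; ring
    have h3 : ‖z j‖ ^ 2 ≤ (‖A j‖ / ‖A i‖) ^ 2 := by
      have := norm_nonneg (z j)
      gcongr
    rw [← hzre] at h3
    have : (z j).im ^ 2 ≤ 0 := by linarith
    exact pow_eq_zero_iff (two_ne_zero) |>.1 (le_antisymm this (sq_nonneg _))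
  have hzj : z j = ((‖A j‖ / ‖A i‖ : ℝ) : ℂ) := by
    apply Complex.ext
    · rw [hzre, Complex.ofReal_re]
    · rw [hzim, Complex.ofReal_im]
  have h5 : z j * (A i * y i) = -(A j * y j) := by
    simp only [hz]
    rw [div_mul_cancel₀ _ hAy]
  rw [← hzj, h5, neg_neg]

theorem s7 : S7 := by
  intro K _ _ n a ⟨α, hα0, hαm, hαs⟩
  classical
  by_cases hS : StrongArch K n a
  · exact Or.inl hS
  right
  unfold StrongArch at hS
  push Not at hS
  obtain ⟨v, i, hvi⟩ := hS
  set φ : K →+* ℂ := v.embedding with hφ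
  have hvφ : ∀ x : K, v x = ‖φ x‖ := fun x => (NumberField.InfinitePlace.norm_embedding_eq v x).symm
  letI : Algebra K ℂ := φ.toAlgebra
  let ψ : AlgebraicClosure K →ₐ[K] ℂ := IsAlgClosed.lift
  have hψφ : ∀ x : K, ψ (algebraMap K (AlgebraicClosure K) x) = φ x := fun x => ψ.commutes x
  have hψinj : Function.Injective ψ := ψ.toRingHom.injective
  set A : Fin n → ℂ := fun j => φ (a j : K) with hAdef
  have hA : ∑ j ∈ Finset.univ.erase i, ‖A j‖ ≤ ‖A i‖ := by
    simpa only [hvφ] using hvi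
  by_cases hAi : A i = 0
  · -- all coefficients vanish
    have h1 : ∀ j ∈ Finset.univ.erase i, ‖A j‖ = 0 := by
      apply (Finset.sum_eq_zero_iff_of_nonneg (fun j _ => norm_nonneg _)).1
      apply le_antisymm
      · rw [hAi, norm_zero] at hA; exact hA
      · exact Finset.sum_nonneg fun j _ => norm_nonneg _
    have h2 : ∀ j, (a j : K) = 0 := by
      intro j
      have : A j = 0 := by
        by_cases hj : j = i
        · rw [hj]; exact hAi
        · exact norm_eq_zero.1 (h1 j (Finset.mem_erase.2 ⟨hj, Finset.mem_univ j⟩))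
      exact (map_eq_zero φ).1 this
    refine ⟨fun _ => 1, fun _ => ⟨1, one_pos, one_pow _⟩, ?_⟩
    simp [h2]
  -- the finite set of conjugates
  have hint : IsIntegral K (α i) := Algebra.IsIntegral.isIntegral (α i)
  have hm0 : minpoly K (α i) ≠ 0 := minpoly.ne_zero hint
  set T : Finset (AlgebraicClosure K) := ((minpoly K (α i)).aroots (AlgebraicClosure K)).toFinset
    with hT
  have hTmem : ∀ x, x ∈ T ↔ aeval x (minpoly K (α i)) = 0 := by
    intro x
    rw [hT, Multiset.mem_toFinset, mem_aroots]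
    exact ⟨fun h => h.2, fun h => ⟨hm0, h⟩⟩
  have hTσ : ∀ (σ : AlgebraicClosure K ≃ₐ[K] AlgebraicClosure K) (j : Fin n), σ (α j) ∈ T := by
    intro σ j
    rw [hTmem, hαm i j]
    have := minpoly.aeval K (α j)
    have h2 : aeval (σ (α j)) (minpoly K (α j)) = σ (aeval (α j) (minpoly K (α j))) :=
      aeval_algHom_apply σ.toAlgHom (α j) _
    rw [h2, this, map_zero]
  have hTne : T.Nonempty := ⟨α i, hTσ AlgEquiv.refl i⟩
  obtain ⟨x0, hx0T, hx0⟩ := Finset.exists_max_image T (fun x => ‖ψ x‖) hTne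
  set M : ℝ := ‖ψ x0‖ with hMdef
  have hconj : ∀ x ∈ T, ∃ σ : AlgebraicClosure K ≃ₐ[K] AlgebraicClosure K, σ (α i) = x := by
    intro x hx
    exact minpoly.exists_algEquiv_of_root' (Algebra.IsAlgebraic.isAlgebraic (α i)) ((hTmem x).1 hx)
  have hne : ∀ x ∈ T, x ≠ 0 := by
    intro x hx
    obtain ⟨σ, rfl⟩ := hconj x hx
    exact (map_ne_zero_iff σ σ.injective).2 (hα0 i)
  have hM : 0 < M := norm_pos_iff.2 ((map_ne_zero_iff ψ hψinj).2 (hne x0 hx0T))
  -- key relation
  have hkey : ∀ (σ : AlgebraicClosure K ≃ₐ[K] AlgebraicClosure K), ‖ψ (σ (α i))‖ = M →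
      ∀ j, j ≠ i → A j * ψ (σ (α j)) = -(((‖A j‖ / ‖A i‖ : ℝ) : ℂ) * (A i * ψ (σ (α i)))) := by
    intro σ hσ
    apply s7_complex i A (fun j => ψ (σ (α j))) M hM hAi hσ
    · intro j
      exact hx0 _ (hTσ σ j)
    · have := congrArg (fun x => ψ (σ x)) hαs
      simp only [map_sum, map_mul, map_zero, AlgEquiv.commutes, hψφ] at this
      exact this
    · exact hA
  obtain ⟨σ0, hσ0⟩ := hconj x0 hx0T
  have hx00 : x0 ≠ 0 := hne x0 hx0T
  have hroot : ∀ j, j ≠ i → A j ≠ 0 → ∃ m : ℕ, 0 < m ∧ (σ0 (α j) / x0) ^ m = 1 := by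
    intro j hj hAj
    set ρ := σ0 (α j) / x0 with hρ
    have hρA : A j * ψ ρ = -(((‖A j‖ / ‖A i‖ : ℝ) : ℂ) * A i) := by
      have h1 := hkey σ0 (by rw [hσ0]) j hj
      rw [hσ0] at h1
      have h2 : ψ (σ0 (α j)) = ψ ρ * ψ x0 := by
        rw [← map_mul, hρ, div_mul_cancel₀ _ hx00]
      rw [h2] at h1
      have h3 : ψ x0 ≠ 0 := (map_ne_zero_iff ψ hψinj).2 hx00
      apply mul_right_cancel₀ h3
      linear_combination h1
    -- multiplication by rho preserves maximal conjugates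
    have hstep : ∀ x ∈ T, ‖ψ x‖ = M → ρ * x ∈ T ∧ ‖ψ (ρ * x)‖ = M := by
      intro x hx hxM
      obtain ⟨σ, hσ⟩ := hconj x hx
      have h1 := hkey σ (by rw [hσ]; exact hxM) j hj
      rw [hσ] at h1
      have h2 : ψ (σ (α j)) = ψ (ρ * x) := by
        apply mul_left_cancel₀ hAj
        rw [h1, map_mul, ← mul_assoc (A j), hρA]
        ring
      have h3 : σ (α j) = ρ * x := hψinj h2
      refine ⟨h3 ▸ hTσ σ j, ?_⟩
      rw [← h2]
      have h4 := congrArg norm h1
      rw [norm_neg, norm_mul, norm_mul, norm_mul, Complex.norm_real, Real.norm_eq_abs,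
        abs_of_nonneg (by positivity), hxM] at h4
      have h5 : 0 < ‖A j‖ := norm_pos_iff.2 hAj
      have h6 : 0 < ‖A i‖ := norm_pos_iff.2 hAi
      have h7 : ‖A j‖ / ‖A i‖ * (‖A i‖ * M) = ‖A j‖ * M := by
        field_simp
      rw [h7] at h4
      exact mul_left_cancel₀ h5.ne' h4
    have hpow : ∀ k : ℕ, ρ ^ k * x0 ∈ T ∧ ‖ψ (ρ ^ k * x0)‖ = M := by
      intro k
      induction k with
      | zero => simpa using ⟨hx0T, hMdef.symm⟩
      | succ k ih =>
        have := hstep _ ih.1 ih.2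
        rwa [← mul_assoc, ← pow_succ'] at this
    have hninj : ¬ Function.Injective (fun k : ℕ => (⟨ρ ^ k * x0, (hpow k).1⟩ : T)) :=
      not_injective_infinite_finite _
    rw [Function.not_injective_iff] at hninj
    obtain ⟨k, l, hkl, hne'⟩ := hninj
    have hkl' : ρ ^ k * x0 = ρ ^ l * x0 := by simpa using congrArg Subtype.val hkl
    have hkl2 : ρ ^ k = ρ ^ l := mul_right_cancel₀ hx00 hkl'
    have hρ0 : ρ ≠ 0 := by
      rw [hρ]
      exact div_ne_zero ((map_ne_zero_iff σ0 σ0.injective).2 (hα0 j)) hx00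
    rcases lt_or_gt_of_ne hne' with h | h
    · refine ⟨l - k, Nat.sub_pos_of_lt h, ?_⟩
      have : ρ ^ k * ρ ^ (l - k) = ρ ^ k * 1 := by
        rw [← pow_add, Nat.add_sub_cancel' h.le, mul_one, hkl2]
      exact mul_left_cancel₀ (pow_ne_zero _ hρ0) this
    · refine ⟨k - l, Nat.sub_pos_of_lt h, ?_⟩
      have : ρ ^ l * ρ ^ (k - l) = ρ ^ l * 1 := by
        rw [← pow_add, Nat.add_sub_cancel' h.le, mul_one, hkl2]
      exact mul_left_cancel₀ (pow_ne_zero _ hρ0) this
  refine ⟨fun j => if (a j : K) = 0 then 1 else σ0 (α j) / x0, ?_, ?_⟩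
  · intro j
    by_cases haj : (a j : K) = 0
    · exact ⟨1, one_pos, by simp [haj]⟩
    · by_cases hj : j = i
      · refine ⟨1, one_pos, ?_⟩
        simp only [haj, if_false, pow_one]
        rw [hj, hσ0, div_self hx00]
      · simp only [haj, if_false]
        apply hroot j hj
        simp only [hAdef]
        exact (map_ne_zero φ).2 haj
  · have h1 := congrArg (fun x => σ0 x / x0) hαs
    simp only [map_sum, map_mul, map_zero, AlgEquiv.commutes, zero_div, Finset.sum_div] at h1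
    rw [← h1]
    apply Finset.sum_congr rfl
    intro j _
    by_cases haj : (a j : K) = 0
    · simp [haj]
    · simp only [haj, if_false]
      rw [mul_div_assoc]

end Pool.Agent.H961R3.Smyth
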