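import Pool.Agent.H961R3.Smyth.Stmts2

set_option autoImplicit false
set_option maxHeartbeats 4000000

/-! Task S9 of the H961-SMYTH project (helper683): the combinatorial part. -/

open scoped NumberField ComplexConjugate Classical

namespace Pool.Agent.H961R3.Smyth

namespace S9Aux

set_option linter.unusedSectionVars false

variable {R : Type} [CommRing R] {n : ℕ}

theorem marg_apply (i : Fin n) (μ : (Fin n → R) →₀ ℝ) (c : R) :
    marg i μ c = ∑ x ∈ μ.support, if x i = c then μ x else 0 := by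
  unfold marg
  rw [Finsupp.mapDomain, Finsupp.sum_apply, Finsupp.sum]
  refine Finset.sum_congr rfl fun x _ => ?_
  rw [Finsupp.single_apply]

theorem marg_add (i : Fin n) (μ κ : (Fin n → R) →₀ ℝ) (c : R) :
    marg i (μ + κ) c = marg i μ c + marg i κ c := by
  unfold marg
  rw [Finsupp.mapDomain_add, Finsupp.add_apply]

theorem marg_zero (i : Fin n) (c : R) : marg i (0 : (Fin n → R) →₀ ℝ) c = 0 := by
  unfold marg
  rw [Finsupp.mapDomain_zero, Finsupp.zero_apply]

theorem marg_smul (i : Fin n) (t : ℝ) (μ : (Fin n → R) →₀ ℝ) (c : R) :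
    marg i (t • μ) c = t * marg i μ c := by
  unfold marg
  rw [Finsupp.mapDomain_smul, Finsupp.smul_apply, smul_eq_mul]

theorem marg_sub (i : Fin n) (μ κ : (Fin n → R) →₀ ℝ) (c : R) :
    marg i (μ - κ) c = marg i μ c - marg i κ c := by
  have : μ - κ = μ + (-1 : ℝ) • κ := by rw [neg_one_smul, sub_eq_add_neg]
  rw [this, marg_add, marg_smul]; ring

theorem marg_single (i : Fin n) (x : Fin n → R) (r : ℝ) (c : R) :
    marg i (Finsupp.single x r) c = if x i = c then r else 0 := by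
  unfold marg
  rw [Finsupp.mapDomain_single, Finsupp.single_apply]

theorem marg_sum {ι : Type*} (s : Finset ι) (i : Fin n) (μ : ι → (Fin n → R) →₀ ℝ) (c : R) :
    marg i (∑ l ∈ s, μ l) c = ∑ l ∈ s, marg i (μ l) c := by
  induction s using Finset.induction_on with
  | empty => simp [marg_zero]
  | insert l s hl ih => rw [Finset.sum_insert hl, Finset.sum_insert hl, marg_add, ih]

/-- total mass -/
noncomputable def mass : ((Fin n → R) →₀ ℝ) →ₗ[ℝ] ℝ := Finsupp.linearCombination ℝ (fun _ => 1)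

theorem mass_apply (μ : (Fin n → R) →₀ ℝ) : mass μ = ∑ x ∈ μ.support, μ x := by
  unfold mass
  rw [Finsupp.linearCombination_apply, Finsupp.sum]
  simp

theorem mass_single (x : Fin n → R) (r : ℝ) : mass (Finsupp.single x r) = r := by
  unfold mass
  rw [Finsupp.linearCombination_single]
  simp

theorem marg_nonneg (i : Fin n) (μ : (Fin n → R) →₀ ℝ) (hμ : ∀ x, 0 ≤ μ x) (c : R) :
    0 ≤ marg i μ c := by
  rw [marg_apply]
  refine Finset.sum_nonneg fun x _ => ?_
  split_ifs
  · exact hμ x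
  · exact le_rfl

theorem marg_le (i : Fin n) (μ : (Fin n → R) →₀ ℝ) (hμ : ∀ x, 0 ≤ μ x) (c : R) :
    marg i μ c ≤ mass μ := by
  rw [marg_apply, mass_apply]
  refine Finset.sum_le_sum fun x _ => ?_
  split_ifs
  · exact le_rfl
  · exact hμ x

/-- nonzero relation vectors -/
def NN (a : Fin n → R) : Set (Fin n → R) := {x | x ≠ 0 ∧ ∑ j, a j * x j = 0}

theorem mem_supp {a : Fin n → R} {μ : (Fin n → R) →₀ ℝ} :
    μ ∈ Finsupp.supported ℝ ℝ (NN a) ↔ ∀ x ∈ μ.support, x ≠ 0 ∧ ∑ j, a j * x j = 0 := by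
  rw [Finsupp.mem_supported]
  rfl

theorem tau (a : Fin n → R) (ν : R → ℝ) (hn : 2 ≤ n) (hν : ∀ c, 0 ≤ ν c) (C0 θ : ℝ)
    (h1 : 1 ≤ C0) (hθ0 : 0 < θ) (hθ1 : θ < 1)
    (hx : ∀ (i : Fin n) (c : R), C0 < ν c →
      ∃ x : Fin n → R, x i = c ∧ ∑ j, a j * x j = 0 ∧ ∀ j, j ≠ i → ν (x j) ≤ θ * ν c)
    (A : ℕ) (hA : (n : ℝ) ^ 2 * ((1 + θ) / 2) ^ A ≤ 1 / 2) (m : ℕ) :
    ∀ (i : Fin n) (c : R), C0 < ν c → ν c * θ ^ m ≤ C0 →
      ∃ (τ : (Fin n → R) →₀ ℝ) (s : R → ℝ), (∀ x, 0 ≤ τ x) ∧
        τ ∈ Finsupp.supported ℝ ℝ (NN a) ∧ mass τ ≤ (1 + ν c) ^ A ∧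
        ∀ k c', C0 < ν c' → marg k τ c' = (if k = i ∧ c' = c then 1 else 0) + s c' := by
  induction m with
  | zero =>
    intro i c h2 h3
    exfalso
    rw [pow_zero, mul_one] at h3
    linarith
  | succ m ih =>
    intro i c h2 h3
    obtain ⟨x, hxi, hxr, hxs⟩ := hx i c h2
    have hcpos : 0 < ν c := by linarith
    have hx0 : x ≠ 0 := by
      rintro rfl
      obtain ⟨j, hj⟩ : ∃ j : Fin n, j ≠ i := by
        have : Nontrivial (Fin n) := Fin.nontrivial_iff_two_le.2 hn
        exact exists_ne i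
      have h4 := hxs j hj
      simp only [Pi.zero_apply] at h4 hxi
      rw [hxi] at h4
      nlinarith
    have key : ∀ j i' : Fin n, ∃ (τ : (Fin n → R) →₀ ℝ) (s : R → ℝ), (∀ x, 0 ≤ τ x) ∧
        τ ∈ Finsupp.supported ℝ ℝ (NN a) ∧ mass τ ≤ (1 + θ * ν c) ^ A ∧
        ∀ k c', C0 < ν c' → marg k τ c' =
          (if j ≠ i ∧ i' ≠ j ∧ k = i' ∧ c' = x j then 1 else 0) + s c' := by
      intro j i'
      by_cases hc : j ≠ i ∧ i' ≠ j ∧ C0 < ν (x j)
      · obtain ⟨hj, hi', hl⟩ := hc
        have h5 := hxs j hj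
        have h6 : ν (x j) * θ ^ m ≤ C0 := by
          refine le_trans ?_ h3
          rw [pow_succ]
          have : 0 < θ ^ m := pow_pos hθ0 m
          nlinarith
        obtain ⟨τ, s, t1, t2, t3, t4⟩ := ih i' (x j) hl h6
        refine ⟨τ, s, t1, t2, le_trans t3 ?_, ?_⟩
        · exact pow_le_pow_left₀ (by linarith [hν (x j)]) (by linarith) A
        · intro k c' hc'
          rw [t4 k c' hc']
          congr 1
          simp only [hj, hi', ne_eq, not_false_eq_true, true_and]
      · refine ⟨0, 0, fun _ => le_rfl, Submodule.zero_mem _, ?_, ?_⟩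
        · rw [map_zero]
          exact pow_nonneg (by positivity) A
        · intro k c' hc'
          rw [marg_zero, if_neg]
          · simp
          · rintro ⟨e1, e2, e3, e4⟩
            exact hc ⟨e1, e2, by rw [← e4]; exact hc'⟩
    choose τ s t1 t2 t3 t4 using key
    refine ⟨Finsupp.single x 1 + ∑ j, ∑ i', τ j i',
      fun c' => (∑ j, if j ≠ i ∧ c' = x j then 1 else 0) + ∑ j, ∑ i', s j i' c', ?_, ?_, ?_, ?_⟩
    · intro y
      rw [Finsupp.add_apply, Finsupp.finsetSum_apply]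
      refine add_nonneg ?_ (Finset.sum_nonneg fun j _ => ?_)
      · rw [Finsupp.single_apply]
        split_ifs <;> norm_num
      · rw [Finsupp.finsetSum_apply]
        exact Finset.sum_nonneg fun i' _ => t1 j i' y
    · refine Submodule.add_mem _ ?_ (Submodule.sum_mem _ fun j _ => Submodule.sum_mem _ fun i' _ =>
        t2 j i')
      exact Finsupp.single_mem_supported ℝ 1 ⟨hx0, hxr⟩
    · rw [map_add, mass_single, map_sum]
      have h7 : ∑ j, mass (∑ i', τ j i') ≤ ∑ j : Fin n, ∑ i' : Fin n, (1 + θ * ν c) ^ A := by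
        refine Finset.sum_le_sum fun j _ => ?_
        rw [map_sum]
        exact Finset.sum_le_sum fun i' _ => t3 j i'
      rw [Finset.sum_const, Finset.sum_const, Finset.card_univ, Fintype.card_fin, nsmul_eq_mul,
        nsmul_eq_mul] at h7
      have h8 : (1 + θ * ν c) ^ A ≤ ((1 + θ) / 2) ^ A * (1 + ν c) ^ A := by
        rw [← mul_pow]
        refine pow_le_pow_left₀ (by positivity) ?_ A
        nlinarith
      have h9 : (0 : ℝ) < (1 + ν c) ^ A := by positivity
      have hA1 : A ≠ 0 := by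
        rintro rfl
        rw [pow_zero, mul_one] at hA
        have : (2 : ℝ) ≤ n := by exact_mod_cast hn
        nlinarith
      have h10 : (2 : ℝ) ≤ (1 + ν c) ^ A := by
        calc (2 : ℝ) ≤ 1 + ν c := by linarith
          _ = (1 + ν c) ^ 1 := (pow_one _).symm
          _ ≤ (1 + ν c) ^ A := pow_le_pow_right₀ (by linarith) (by omega)
      have h11 : (n : ℝ) * (n * (1 + θ * ν c) ^ A) ≤ 1 / 2 * (1 + ν c) ^ A := by
        calc (n : ℝ) * (n * (1 + θ * ν c) ^ A) = (n : ℝ) ^ 2 * (1 + θ * ν c) ^ A := by ring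
          _ ≤ (n : ℝ) ^ 2 * (((1 + θ) / 2) ^ A * (1 + ν c) ^ A) :=
            mul_le_mul_of_nonneg_left h8 (by positivity)
          _ = ((n : ℝ) ^ 2 * ((1 + θ) / 2) ^ A) * (1 + ν c) ^ A := by ring
          _ ≤ 1 / 2 * (1 + ν c) ^ A := mul_le_mul_of_nonneg_right hA h9.le
      linarith
    · intro k c' hc'
      rw [marg_add, marg_single, marg_sum]
      have h5 : ∀ j, marg k (∑ i', τ j i') c' =
          (if j ≠ i ∧ k ≠ j ∧ c' = x j then 1 else 0) + ∑ i', s j i' c' := by
        intro j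
        rw [marg_sum, Finset.sum_congr rfl fun i' _ => t4 j i' k c' hc', Finset.sum_add_distrib]
        congr 1
        rw [Finset.sum_eq_single k]
        · simp
        · intro b _ hb
          rw [if_neg]
          rintro ⟨_, _, e, _⟩
          exact hb e.symm
        · intro h
          exact absurd (Finset.mem_univ k) h
      rw [Finset.sum_congr rfl fun j _ => h5 j, Finset.sum_add_distrib]
      have h6 : ∑ j, (if j ≠ i ∧ c' = x j then (1 : ℝ) else 0) =
          ∑ j, (if j ≠ i ∧ k ≠ j ∧ c' = x j then (1 : ℝ) else 0) +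
            if k ≠ i ∧ c' = x k then 1 else 0 := by
        have : (if k ≠ i ∧ c' = x k then (1 : ℝ) else 0) =
            ∑ j, if k = j then (if j ≠ i ∧ c' = x j then (1 : ℝ) else 0) else 0 := by
          rw [Finset.sum_ite_eq]
          simp
        rw [this, ← Finset.sum_add_distrib]
        refine Finset.sum_congr rfl fun j _ => ?_
        by_cases e1 : j = i <;> by_cases e2 : k = j <;> by_cases e3 : c' = x j <;>
          simp [e1, e2, e3]
      change _ = (if k = i ∧ c' = c then (1 : ℝ) else 0) +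
        ((∑ j, if j ≠ i ∧ c' = x j then (1 : ℝ) else 0) + ∑ j, ∑ i', s j i' c')
      rw [h6]
      have h7 : (if x k = c' then (1 : ℝ) else 0) =
          (if k = i ∧ c' = c then 1 else 0) + if k ≠ i ∧ c' = x k then 1 else 0 := by
        by_cases e1 : k = i
        · subst e1
          rw [hxi]
          by_cases e2 : c = c'
          · simp [e2]
          · have e3 : ¬ c' = c := fun h => e2 h.symm
            simp [e2, e3]
        · by_cases e2 : x k = c'
          · simp [e1, e2]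
          · have e3 : ¬ c' = x k := fun h => e2 h.symm
            simp [e1, e2, e3]
      rw [h7]
      ring

/-- relation measures balanced outside the ball -/
noncomputable def QQ (a : Fin n → R) (ν : R → ℝ) (C0 : ℝ) : Submodule ℝ ((Fin n → R) →₀ ℝ) where
  carrier := {μ | μ ∈ Finsupp.supported ℝ ℝ (NN a) ∧
    ∀ i j : Fin n, ∀ c, C0 < ν c → marg i μ c = marg j μ c}
  zero_mem' := ⟨Submodule.zero_mem _, fun i j c _ => by rw [marg_zero, marg_zero]⟩
  add_mem' := by
    rintro μ κ ⟨h1, h2⟩ ⟨h3, h4⟩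
    refine ⟨Submodule.add_mem _ h1 h3, fun i j c hc => ?_⟩
    rw [marg_add, marg_add, h2 i j c hc, h4 i j c hc]
  smul_mem' := by
    rintro t μ ⟨h1, h2⟩
    refine ⟨Submodule.smul_mem _ t h1, fun i j c hc => ?_⟩
    rw [marg_smul, marg_smul, h2 i j c hc]

/-- imbalance inside the ball -/
noncomputable def LL (B : Finset R) : ((Fin n → R) →₀ ℝ) →ₗ[ℝ] (Fin n → Fin n → B → ℝ) where
  toFun μ i j c := marg i μ c - marg j μ c
  map_add' μ κ := by
    funext i j c
    simp only [Pi.add_apply, marg_add]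
    ring
  map_smul' t μ := by
    funext i j c
    simp only [Pi.smul_apply, marg_smul, RingHom.id_apply, smul_eq_mul]
    ring

/-- a bounded right inverse with uniformly finite supports -/
theorem rinv (a : Fin n → R) (ν : R → ℝ) (C0 : ℝ) (B : Finset R) :
    ∃ (X1 : Finset (Fin n → R)) (M : ℝ), 0 ≤ M ∧ (∀ x ∈ X1, x ∈ NN a) ∧
      ∀ μ ∈ QQ a ν C0, ∃ κ ∈ QQ a ν C0, LL B κ = LL B μ ∧ (∀ x ∉ X1, κ x = 0) ∧
        ∀ x, |κ x| ≤ M * ‖LL (n := n) B μ‖ := by
  let LQ := (LL (n := n) B).domRestrict (QQ a ν C0)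
  obtain ⟨g, hg⟩ := LQ.rangeRestrict.exists_rightInverse_of_surjective
    (LinearMap.range_eq_top.2 (LinearMap.surjective_rangeRestrict LQ))
  let b := Module.finBasis ℝ (LinearMap.range LQ)
  let X1 : Finset (Fin n → R) :=
    Finset.univ.biUnion fun l => ((g (b l) : (Fin n → R) →₀ ℝ)).support
  have hsupp : ∀ w : LinearMap.range LQ, ∀ x ∉ X1, (g w : (Fin n → R) →₀ ℝ) x = 0 := by
    intro w x hx
    have h1 : g w = ∑ l, b.repr w l • g (b l) := by
      conv_lhs => rw [← b.sum_repr w]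
      rw [map_sum]
      simp
    rw [h1, Submodule.coe_sum, Finsupp.finsetSum_apply]
    refine Finset.sum_eq_zero fun l _ => ?_
    rw [Submodule.coe_smul, Finsupp.smul_apply]
    have : x ∉ ((g (b l) : (Fin n → R) →₀ ℝ)).support := by
      intro h
      exact hx (Finset.mem_biUnion.2 ⟨l, Finset.mem_univ _, h⟩)
    rw [Finsupp.notMem_support_iff.1 this, smul_zero]
  let h : LinearMap.range LQ →ₗ[ℝ] (X1 → ℝ) :=
    { toFun := fun w x => (g w : (Fin n → R) →₀ ℝ) x
      map_add' := by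
        intro w w'
        funext x
        simp
      map_smul' := by
        intro t w
        funext x
        simp }
  let hc := LinearMap.toContinuousLinearMap h
  refine ⟨X1, ‖hc‖, hc.opNorm_nonneg, ?_, ?_⟩
  · intro x hx
    obtain ⟨l, _, hl⟩ := Finset.mem_biUnion.1 hx
    exact mem_supp.1 (g (b l)).2.1 x hl
  · intro μ hμ
    let w : LinearMap.range LQ := ⟨LQ ⟨μ, hμ⟩, LinearMap.mem_range_self _ _⟩
    refine ⟨g w, (g w).2, ?_, hsupp w, ?_⟩
    · have h1 : LQ.rangeRestrict (g w) = w := LinearMap.congr_fun hg w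
      have h2 := congrArg Subtype.val h1
      exact h2
    · intro x
      by_cases hx : x ∈ X1
      · have h1 : ‖hc w‖ ≤ ‖hc‖ * ‖w‖ := hc.le_opNorm w
        have h2 : |(g w : (Fin n → R) →₀ ℝ) x| ≤ ‖hc w‖ := norm_le_pi_norm (hc w) ⟨x, hx⟩
        exact le_trans h2 h1
      · rw [hsupp w x hx, abs_zero]
        positivity

theorem balanced_of (a : Fin n → R) (μ : (Fin n → R) →₀ ℝ) (h0 : ∀ x, 0 ≤ μ x)
    (h1 : ∃ x, 0 < μ x) (h2 : μ ∈ Finsupp.supported ℝ ℝ (NN a))
    (h3 : ∀ i j c, marg i μ c = marg j μ c) : Balanced R n a := by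
  refine ⟨μ.support, μ, fun x _ => h0 x, ?_, fun x hx => mem_supp.1 h2 x hx, ?_⟩
  · obtain ⟨x, hx⟩ := h1
    exact ⟨x, Finsupp.mem_support_iff.2 hx.ne', hx⟩
  · intro i j c
    have h4 := h3 i j c
    rw [marg_apply, marg_apply] at h4
    simpa only [Set.indicator_apply, Set.mem_ofPred_eq] using h4

end S9Aux

open S9Aux in
theorem s9 : S9 := by
  intro R _ n a ν hn hν hfin hex hTP hAP
  obtain ⟨x0, hx0, hx0r⟩ := hex
  by_cases hn2 : 2 ≤ n
  swap
  · have hn1 : n = 1 := by omega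
    subst hn1
    refine balanced_of a (Finsupp.single x0 1) ?_ ⟨x0, by simp⟩
      (Finsupp.single_mem_supported ℝ 1 ⟨hx0, hx0r⟩) ?_
    · intro x
      rw [Finsupp.single_apply]
      split_ifs <;> norm_num
    · intro i j c
      rw [Subsingleton.elim i j]
  obtain ⟨C0, θ, hC0, hθ0, hθ1, hx⟩ := hTP
  have hnpos : (0 : ℝ) < n := by exact_mod_cast (show 0 < n by omega)
  obtain ⟨A, hA'⟩ := exists_pow_lt_of_lt_one (show (0 : ℝ) < 1 / (2 * (n : ℝ) ^ 2) by positivity)
    (show (1 + θ) / 2 < 1 by linarith)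
  have hA : (n : ℝ) ^ 2 * ((1 + θ) / 2) ^ A ≤ 1 / 2 := by
    have : (n : ℝ) ^ 2 * ((1 + θ) / 2) ^ A ≤ (n : ℝ) ^ 2 * (1 / (2 * (n : ℝ) ^ 2)) :=
      mul_le_mul_of_nonneg_left hA'.le (by positivity)
    refine le_trans this (le_of_eq ?_)
    field_simp
  have htau : ∀ (i : Fin n) (c : R), ∃ (τ : (Fin n → R) →₀ ℝ) (s : R → ℝ), C0 < ν c →
      (∀ x, 0 ≤ τ x) ∧
        τ ∈ Finsupp.supported ℝ ℝ (NN a) ∧ mass τ ≤ (1 + ν c) ^ A ∧
        ∀ k c', C0 < ν c' → marg k τ c' = (if k = i ∧ c' = c then 1 else 0) + s c' := by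
    intro i c
    by_cases hc : C0 < ν c
    · have hcpos : 0 < ν c := by linarith
      obtain ⟨m, hm⟩ := exists_pow_lt_of_lt_one (show (0 : ℝ) < C0 / ν c by positivity) hθ1
      obtain ⟨τ, s, h⟩ := tau a ν hn2 hν C0 θ hC0 hθ0 hθ1 hx A hA m i c hc (by
        rw [lt_div_iff₀ hcpos] at hm
        linarith)
      exact ⟨τ, s, fun _ => h⟩
    · exact ⟨0, 0, fun h => absurd h hc⟩
  choose τ s hτ using htau
  let B : Finset R := (hfin C0).toFinset
  have hB : ∀ c, c ∈ B ↔ ν c ≤ C0 := by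
    intro c
    simp [B]
  obtain ⟨X1, M, hM, hX1, hinv⟩ := rinv a ν C0 B
  let C1 : ℝ := ∑ x ∈ insert x0 X1, ∑ j, ν (x j)
  have hC1 : ∀ x ∈ insert x0 X1, ∀ j, ν (x j) ≤ C1 := by
    intro x hx j
    calc ν (x j) ≤ ∑ j, ν (x j) :=
          Finset.single_le_sum (f := fun j => ν (x j)) (fun j _ => hν _) (Finset.mem_univ j)
      _ ≤ C1 := Finset.single_le_sum (f := fun x : Fin n → R => ∑ j, ν (x j))
          (fun x _ => Finset.sum_nonneg fun j _ => hν _) hx
  let η : ℝ := 1 / (2 * (M + 1) * (1 + 2 * n))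
  have hη : 0 < η := by positivity
  obtain ⟨μ, m1, m2, m3, m4⟩ := hAP A C1 η hη
  -- the imbalance
  let δ : R → ℝ := fun c => ∑ i, ∑ j, |marg i μ c - marg j μ c|
  have hδ : ∀ c, 0 ≤ δ c := fun c =>
    Finset.sum_nonneg fun i _ => Finset.sum_nonneg fun j _ => abs_nonneg _
  have hδ1 : ∀ i j c, |marg i μ c - marg j μ c| ≤ δ c := by
    intro i j c
    calc |marg i μ c - marg j μ c| ≤ ∑ j, |marg i μ c - marg j μ c| :=
          Finset.single_le_sum (f := fun j => |marg i μ c - marg j μ c|)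
            (fun j _ => abs_nonneg _) (Finset.mem_univ j)
      _ ≤ δ c := Finset.single_le_sum (f := fun i => ∑ j, |marg i μ c - marg j μ c|)
          (fun i _ => Finset.sum_nonneg fun j _ => abs_nonneg _) (Finset.mem_univ i)
  let z : Fin n := ⟨0, by omega⟩
  let t : Fin n → R → ℝ := fun i c => marg z μ c - marg i μ c + δ c
  have ht0 : ∀ i c, 0 ≤ t i c := by
    intro i c
    have := hδ1 z i c
    have := neg_abs_le (marg z μ c - marg i μ c)
    simp only [t]
    linarith
  have ht1 : ∀ i c, t i c ≤ 2 * δ c := by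
    intro i c
    have := hδ1 z i c
    have := le_abs_self (marg z μ c - marg i μ c)
    simp only [t]
    linarith
  let T : Finset R := (Finset.univ.biUnion fun i => (marg i μ).support).filter (fun c => C0 < ν c)
  have hT : ∀ c ∈ T, C0 < ν c := fun c hc => (Finset.mem_filter.1 hc).2
  have hT' : ∀ c, C0 < ν c → c ∉ T → ∀ i, t i c = 0 := by
    intro c hc hcT i
    have h1 : ∀ i, marg i μ c = 0 := by
      intro i
      by_contra h
      exact hcT (Finset.mem_filter.2 ⟨Finset.mem_biUnion.2 ⟨i, Finset.mem_univ _,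
        Finsupp.mem_support_iff.2 h⟩, hc⟩)
    simp only [t, δ, h1]
    simp
  let κ : (Fin n → R) →₀ ℝ := ∑ c ∈ T, ∑ i, t i c • τ i c
  have hκ0 : ∀ x, 0 ≤ κ x := by
    intro x
    simp only [κ, Finsupp.finsetSum_apply, Finsupp.smul_apply, smul_eq_mul]
    exact Finset.sum_nonneg fun c hc => Finset.sum_nonneg fun i _ =>
      mul_nonneg (ht0 i c) ((hτ i c (hT c hc)).1 x)
  have hκs : κ ∈ Finsupp.supported ℝ ℝ (NN a) :=
    Submodule.sum_mem _ fun c hc => Submodule.sum_mem _ fun i _ =>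
      Submodule.smul_mem _ _ (hτ i c (hT c hc)).2.1
  have hκm : mass κ ≤ 2 * n * η := by
    simp only [κ, map_sum, map_smul, smul_eq_mul]
    calc ∑ c ∈ T, ∑ i, t i c * mass (τ i c)
        ≤ ∑ c ∈ T, ∑ i : Fin n, 2 * δ c * (1 + ν c) ^ A := by
          refine Finset.sum_le_sum fun c hc => Finset.sum_le_sum fun i _ => ?_
          refine mul_le_mul (ht1 i c) (hτ i c (hT c hc)).2.2.1 ?_ ?_
          · rw [mass_apply]
            exact Finset.sum_nonneg fun x _ => (hτ i c (hT c hc)).1 x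
          · have := hδ c
            positivity
      _ = 2 * n * ∑ c ∈ T, (1 + ν c) ^ A * δ c := by
          rw [Finset.mul_sum]
          refine Finset.sum_congr rfl fun c _ => ?_
          rw [Finset.sum_const, Finset.card_univ, Fintype.card_fin, nsmul_eq_mul]
          ring
      _ ≤ 2 * n * η := mul_le_mul_of_nonneg_left (m4 T) (by positivity)
  have hκmarg : ∀ k c', C0 < ν c' → marg k κ c' = t k c' + ∑ c ∈ T, ∑ i, t i c * s i c c' := by
    intro k c' hc'
    simp only [κ]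
    rw [marg_sum]
    have h1 : ∀ c ∈ T, marg k (∑ i, t i c • τ i c) c' =
        (if c' = c then t k c else 0) + ∑ i, t i c * s i c c' := by
      intro c hc
      rw [marg_sum]
      have h2 : ∀ i, marg k (t i c • τ i c) c' =
          (if k = i then (if c' = c then t i c else 0) else 0) + t i c * s i c c' := by
        intro i
        rw [marg_smul, (hτ i c (hT c hc)).2.2.2 k c' hc', mul_add]
        congr 1
        by_cases e1 : k = i <;> by_cases e2 : c' = c <;> simp [e1, e2]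
      rw [Finset.sum_congr rfl fun i _ => h2 i, Finset.sum_add_distrib, Finset.sum_ite_eq]
      simp
    rw [Finset.sum_congr rfl h1, Finset.sum_add_distrib, Finset.sum_ite_eq]
    congr 1
    split_ifs with h
    · rfl
    · exact (hT' c' hc' h k).symm
  -- the transported measure
  let μ' := μ + κ
  have hμ'Q : μ' ∈ QQ a ν C0 := by
    refine ⟨Submodule.add_mem _ (mem_supp.2 m2) hκs, fun i j c hc => ?_⟩
    simp only [μ']
    rw [marg_add, marg_add, hκmarg i c hc, hκmarg j c hc]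
    simp only [t]
    ring
  obtain ⟨ρ, hρQ, hρL, hρ0, hρM⟩ := hinv μ' hμ'Q
  have hnorm : ‖LL (n := n) B μ'‖ ≤ (1 + 2 * n) * η := by
    have h0 : 0 ≤ (1 + 2 * n) * η := by positivity
    refine (pi_norm_le_iff_of_nonneg h0).2 fun i => (pi_norm_le_iff_of_nonneg h0).2 fun j =>
      (pi_norm_le_iff_of_nonneg h0).2 fun c => ?_
    change |marg i μ' c - marg j μ' c| ≤ _
    simp only [μ']
    rw [marg_add, marg_add]
    have e1 : |marg i μ c - marg j μ c| ≤ η := by
      refine le_trans (hδ1 i j c) ?_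
      have e2 := m4 {(c : R)}
      rw [Finset.sum_singleton] at e2
      refine le_trans ?_ e2
      have e3 : (1 : ℝ) ≤ (1 + ν c) ^ A := one_le_pow₀ (by linarith [hν c])
      have e4 := hδ c
      change δ c ≤ (1 + ν c) ^ A * δ c
      nlinarith
    have e5 := marg_nonneg i κ hκ0 c
    have e6 := marg_nonneg j κ hκ0 c
    have e7 := marg_le i κ hκ0 c
    have e8 := marg_le j κ hκ0 c
    rw [abs_le] at e1 ⊢
    constructor <;> nlinarith [e1.1, e1.2]
  have hρb : ∀ x, |ρ x| ≤ 1 / 2 := by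
    intro x
    refine le_trans (hρM x) ?_
    have e1 : M * ‖LL (n := n) B μ'‖ ≤ (M + 1) * ((1 + 2 * n) * η) :=
      mul_le_mul (by linarith) hnorm (norm_nonneg _) (by linarith)
    refine le_trans e1 (le_of_eq ?_)
    simp only [η]
    field_simp
  refine balanced_of a (μ' - ρ) ?_ ⟨x0, ?_⟩ (Submodule.sub_mem _ hμ'Q.1 hρQ.1) ?_
  · intro x
    rw [Finsupp.sub_apply]
    have e0 : μ x ≤ μ' x := by
      simp only [μ', Finsupp.add_apply]
      linarith [hκ0 x]
    by_cases hxX : x ∈ X1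
    · have e1 := m3 x (hX1 x hxX).1 (hX1 x hxX).2 (hC1 x (Finset.mem_insert_of_mem hxX))
      have e2 := (abs_le.1 (hρb x)).2
      linarith
    · rw [hρ0 x hxX]
      linarith [m1 x]
  · rw [Finsupp.sub_apply]
    have e0 : μ x0 ≤ μ' x0 := by
      simp only [μ', Finsupp.add_apply]
      linarith [hκ0 x0]
    have e1 := m3 x0 hx0 hx0r (hC1 x0 (Finset.mem_insert_self _ _))
    have e2 := (abs_le.1 (hρb x0)).2
    linarith
  · intro i j c
    rw [marg_sub, marg_sub]
    by_cases hc : C0 < ν c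
    · rw [hμ'Q.2 i j c hc, hρQ.2 i j c hc]
    · have hcB : c ∈ B := (hB c).2 (not_lt.1 hc)
      have e1 := congrFun (congrFun (congrFun hρL i) j) ⟨c, hcB⟩
      change marg i ρ c - marg j ρ c = marg i μ' c - marg j μ' c at e1
      linarith

end Pool.Agent.H961R3.Smyth
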