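import Mathlib
import Pool.Agent.H961R3.Smyth.Stmts3
import Pool.Agent.H961R3.Smyth.A4
import Pool.Agent.H961R3.Smyth.T1
import Pool.Agent.H961R3.Smyth.T2
import Pool.Agent.H961R3.Smyth.T3
import Pool.Agent.H961R3.Smyth.S4
import Pool.Agent.H961R3.Smyth.T5
import Pool.Agent.H782R3.Smyth.S6
import Pool.Agent.H961R3.Smyth.T7
import Pool.Agent.H380R3.SM.S8
import Pool.Agent.H961R3.Smyth.T9
import Pool.Agent.H961R3.Smyth.T10
import Pool.Agent.H961R3.Smyth.S11
import Pool.Agent.H244R3.Smyth.S12
import Pool.Agent.H961R3.Smyth.S14
import Pool.Agent.H961R3.Smyth.T15
import Pool.Agent.H104R3.SmythS16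
import Pool.Agent.H961R3.Smyth.S17
import Pool.Agent.H265R3.S18

open scoped NumberField

/-!
# Smyth's conjecture over number fields (frozen S18875, MP_ed3ef1_nt)

Proof outline.  Let `a` satisfy the strong absolute value criteria.  The relation lattice
`Λ = {x ∈ O_K^n : ∑ a_j x_j = 0}` projects onto `O_K` in every coordinate (nonarchimedean criterion).
At every embedding there are explicit unit vectors `u_1, …, u_n` spanning an `(n-1)`-dimensional
space with `∑ |a_j| u_j = 0` (archimedean criterion), so `Λ ⊗ ℝ` carries a Euclidean structure for
which all coordinate projections are co-isometries.  Hence the Gaussian measures on `Λ` have nearly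
equal marginals (Poisson summation), with exponentially small error.  The errors are moved towards
the origin by adding relation vectors `x` with one large coordinate and all others smaller, and
the remaining error near the origin is removed by finite-dimensional linear algebra.  This gives
permutations `τ_i` and a nonzero vector `v` with `∑ a_i v(τ_i k) = 0`, and symmetric Galois groups
turn it into conjugates.
-/

namespace Pool.Agent.H961R3.Smyth

theorem core_proved : Core :=
  core_of s9 s10 s11 s12 (s13 s14 s15 Pool.Agent.H104R3.SmythS16.s16 s17 Pool.Agent.H265R3.S18.s18 s12)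

end Pool.Agent.H961R3.Smyth
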